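import Pool.Agent.J4H81.HL.Stm
import Pool.Agent.J4H81.PT.CMa

/-!
# Hardy-Littlewood for almost all admissible sets (uniform measure): statements of parts (helper81)

`VV h` (module `J4H81.PT.CMa`) is the set of the classes `c` modulo `W` for which all the `c + h i` are units, `AdmZ k W` the
set of the vectors `h` for which it is nonempty.
-/

set_option autoImplicit false

namespace Pool.Agent.J4H81.HL

open Finset
open Pool.Agent.J4H81.PT (VV AdmZ)

open Classical in
/-- **Part G.** A random admissible residue vector `h` (uniform) and a random class `c` of `VV h` (uniform) lead to values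
`b i = c + h i` which are almost independent: they hit a small set `B` of units no more often than independent ones, up to a
factor `120 w ^ 2` for every coordinate.

Proof. Let `μ` be the law of `b ∈ U ^ k`, `U` the units modulo `W = ∏_{p ≤ w} p`. By the Chinese remainder theorem `μ` is the
product over `p ∣ W` of the laws `μ_p (b) = (1 / m (b)) / ∑ b', 1 / m (b')` on `U_p ^ k`, where `U_p` is the set of the nonzero
classes modulo `p` and `m (b) = p - #{b i} ≥ 1` (for the pair `(h, c)` has the weight `1 / (|Adm_p| m (b))` and there are `p` values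
of `c` for each `b`). For a set `J` of `j` coordinates the density of the marginal law of `(b i), i ∈ J`, relative to the uniform
law on `U_p ^ J` is `E_d / (mean of E_d over b_J)`, where `d` is the number of the different values of `b_J` and
`E_d = mean over the other coordinates of 1 / (1 + M)`, `M` the number of the units not in `{b_J}` which are missed by the other
coordinates. `E_d` is nondecreasing and `E_{d+1} - E_d = mean of 1_{M ≥ 1} / (M + 1) / (p - 1 - d) ≤ E_d / (p - 1 - d)`
(remove one more unit `u`; average over `u`). So the density is at most `E_{min (j, p - 1)} / E_1 ≤ (p - 1) / (p - min (j, p - 1))`,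
which is at most `p` for `p ≤ 2 j` and at most `exp (2 j / p)` for `p > 2 j`; the product over `p ≤ w` is at most
`4 ^ (2 j) exp (2 j (1 + log w)) = (16 e^2 w^2) ^ j ≤ (120 w^2) ^ j`. Expand the product over the subsets `J`. -/
def S_MU : Prop := ∀ (k w W : ℕ) [NeZero W] (B : Finset (ZMod W)) (C : ℝ), W = primorial w → 2 ≤ w → 0 ≤ C →
  (∀ b ∈ B, IsUnit b) →
  ∑ h ∈ AdmZ k W, (1 / ((VV h).card : ℝ)) * ∑ c ∈ VV h, ∏ i : Fin k, (1 + C * (if c + h i ∈ B then 1 else 0)) ≤
    (1 + C * (120 * (w : ℝ) ^ 2) * B.card / Nat.totient W) ^ k * (AdmZ k W).card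

/-- **Part H.** The Brun-Titchmarsh inequality in any window of a progression, with some constant (several versions are in
the library: `H617R3.BT`, `H426R3.CP.BT`, `H307R2.OP.BT4`). -/
def S_BT : Prop := ∃ C : ℝ, 1 ≤ C ∧ ∀ W a T : ℕ, 1 ≤ W → a.Coprime W → 2 ≤ T →
  (((range T).filter (fun t => (a + W * t).Prime)).card : ℝ) ≤ C * ((W : ℝ) / Nat.totient W) * (T / Real.log T)

end Pool.Agent.J4H81.HL
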