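import Mathlib

/-!
# Hardy-Littlewood on average for growing tuples: the statements of the parts (helper81)
-/

set_option autoImplicit false

namespace Pool.Agent.J4H81.HL

open Finset

/-- the number of residue classes modulo `p` which contain an element of `A` -/
def nu (A : Finset ℕ) (p : ℕ) : ℕ := (A.image (· % p)).card

/-- the factor at `p` of the singular series of `A` -/
noncomputable def loc (A : Finset ℕ) (p : ℕ) : ℝ := (1 - (nu A p : ℝ) / p) / (1 - 1 / (p : ℝ)) ^ A.card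

/-- the singular series of `A` -/
noncomputable def sing (A : Finset ℕ) : ℝ := ∏' p : Nat.Primes, loc A p

/-- the singular series of `A` cut at `z` -/
noncomputable def singZ (z : ℕ) (A : Finset ℕ) : ℝ := ∏ p ∈ (Icc 1 z).filter Nat.Prime, loc A p

/-- the number of the `1 ≤ n ≤ y` for which all `n + a`, `a ∈ A`, are prime -/
def count (y : ℕ) (A : Finset ℕ) : ℕ := ((Icc 1 y).filter (fun n => ∀ a ∈ A, (n + a).Prime)).card

/-- the number of residue classes modulo `p` of the entries of the vector `a` -/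
def nuV {k : ℕ} (a : Fin k → ℕ) (p : ℕ) : ℕ := ((univ : Finset (Fin k)).image (fun i => a i % p)).card

/-- the factor at `p` of the singular series of the vector `a` -/
noncomputable def XX {k : ℕ} (a : Fin k → ℕ) (p : ℕ) : ℝ := (1 - (nuV a p : ℝ) / p) / (1 - 1 / (p : ℝ)) ^ k

/-- **Part A.** Second moment of the middle part of the singular series over the lifts of a residue vector.
Proof: `X_p ^ j = 1 + Y_p`, `|Y_p| ≤ 13 k / p` for `j = 1, 2` and `p > w ≥ 2 k`; expand the product over the subsets `S`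
of the primes in `(w, z]`, `q = ∏ S`; the mean of `Y_S` over the lifts is the product of the means over `(ZMod p)^k` up to
`min 2 (2 k q / T) * ∏ (13 k / p) ≤ 2 (k q / T) ^ σ * ∏ (13 k / p)` with `σ = 1 / log z`, so the total error is at most
`2 (k / T) ^ σ * exp (36 k (1 + log z)) ≤ 6 exp (- log T / (2 log z))`. The mean of `X_p` is `1`, the mean of `X_p ^ 2` is
`(1 / p) (1 - 1 / p) ^ (-k) + (1 - 1 / p) (1 - 1 / (p - 1) ^ 2) ^ k ≤ 1 + 2 k ^ 2 / (p - 1) ^ 3` (count the pairs `(r, r')`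
of classes modulo `p` which are not hit). -/
def S_SING : Prop := ∀ (k w z T W : ℕ) (h : Fin k → ℕ), 1 ≤ k → 2 * k ≤ w → w ≤ z → 3 ≤ z → 1 ≤ T →
  (∀ p : ℕ, p.Prime → w < p → ¬ p ∣ W) → 100 * (k : ℝ) * (1 + Real.log z) ^ 2 ≤ Real.log T →
  ∑ t ∈ Fintype.piFinset (fun _ : Fin k => range T),
    (∏ p ∈ (Ioc w z).filter Nat.Prime, XX (fun i => h i + W * t i) p - 1) ^ 2 ≤
  (8 * (k : ℝ) ^ 2 / (w : ℝ) ^ 2 + 18 * Real.exp (-(Real.log T / (2 * Real.log z)))) * (T : ℝ) ^ k

/-- **Part B.** The tail of the singular series. Proof: for `p > z` let `c_p = k - ν_p`, at most the number of pairs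
`a < a'` in `A` with `p ∣ a' - a`. Then `1 - k ^ 2 / p ^ 2 ≤ loc A p ≤ exp (2 c_p / p)`, and the sum of `c_p / p` over
`p > z` is at most `(k ^ 2 / 2) (log y / log z) / z`. (Convergence: `loc A p = 1 + O(k ^ 2 / p ^ 2)` for `p > y`.) -/
def S_TAIL : Prop := ∀ (y z : ℕ) (A : Finset ℕ), 2 ≤ y → 3 ≤ z → A ⊆ range (y + 1) → 1 ≤ A.card →
  2 * (A.card : ℝ) ^ 2 * (1 + Real.log y) ≤ z →
  |sing A - singZ z A| ≤ 4 * (A.card : ℝ) ^ 2 * (1 + Real.log y) / z * singZ z A

/-- **Part C.** Primes in windows, from the prime number theorem with error `O(x / (log x) ^ 3)`. -/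
def S_PNT : Prop := ∃ C : ℝ, 1 ≤ C ∧ ∃ y₀ : ℕ, 3 ≤ y₀ ∧ ∀ y ≥ y₀, ∀ n ≤ y,
  (((range (y + 1)).filter (fun a => (n + a).Prime)).card : ℝ) ≤ y / Real.log y * (1 + C / Real.log y)

end Pool.Agent.J4H81.HL
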