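import Pool.Agent.J4H81.HL.Stm
import Pool.Agent.J4H81.PT.CMa

/-!
# Hardy-Littlewood on average for growing tuples: further statements of parts (helper81)

`VV h` (module `J4H81.PT.CMa`) is the set of the classes `c` modulo `W` for which all the `c + h i` are units.
-/

set_option autoImplicit false

namespace Pool.Agent.J4H81.HL

open Finset
open Pool.Agent.J4H81.PT (VV)

/-- **Part D.** The number of the classes `c` modulo `W = ∏_{p ≤ w} p` with all `c + a i` prime to `W`, by the Chinese
remainder theorem: it is `∏_{p ≤ w} (p - nuV a p)`. -/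
def S_VV : Prop := ∀ (k w W : ℕ) [NeZero W] (a : Fin k → ℕ), W = primorial w →
  ((VV (fun i => ((a i : ℕ) : ZMod W))).card : ℝ) / W * ((W : ℝ) / (Nat.totient W : ℝ)) ^ k =
    ∏ p ∈ (Icc 1 w).filter Nat.Prime, XX a p

/-- **Part E.** Sums over subsets and sums over injective vectors (compare `Pool.Agent.J4H81.PT.card_subsets` in
`J4H81.PT.CMb`). -/
def S_SUB : Prop := ∀ (R : Finset ℕ) (k : ℕ) (g : Finset ℕ → ℝ),
  (∑ A ∈ R.powersetCard k, g A) * (k.factorial : ℝ) =
    ∑ a ∈ (Fintype.piFinset (fun _ : Fin k => R)).filter (fun a => Function.Injective a), g (univ.image a)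

end Pool.Agent.J4H81.HL
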