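import Pool.Agent.J4H81.PT.FCa
import Pool.Agent.J4H81.HL.CW

/-!
# Hardy-Littlewood on average: the circle method in all classes for windows (helper81)
-/

set_option autoImplicit false

namespace Pool.Agent.J4H81.PT.HW

open Finset MeasureTheory
open Pool.Agent.J4H81.PT
open Pool.Agent.H807R2.Dav (ee norm_ee ee_add ee_zero ee_int ee_eq dd dd_le)

open Classical in
/-- from the energy on the major arcs to the good classes -/
theorem classes_win {W T Q N₁ P w U : ℕ} [NeZero W] (hWs : Squarefree W)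
    (hWw : ∀ p : ℕ, p.Prime → p ≤ w → p ∣ W) (hT1 : 1 ≤ T) (hw : 2 ≤ w)
    (hQ : 1 ≤ Q) (hP : 1 ≤ P) (hP3 : P * P * P ≤ W * T) (hP2 : P * P ≤ N₁) {ω : ℕ → ℝ} (hω : Wt ω (W * T) N₁)
    {η m₀ Λ₂ Et M : ℝ} (hη : 0 < η) (hη1 : 2 * η ≤ 1) (hMT : M ≤ T)
    (hm₀ : 3 * ((Nat.log 2 (W * T) + 1 : ℕ) * Bd (W * T) P) + 2 * Real.sqrt (W * T : ℕ) * Real.log (W * T : ℕ) +
      (((W * Q : ℕ) : ℝ) ^ 3 * 3 + 2 * ((W * T : ℕ) / Real.sqrt P)) ≤ m₀)
    (hΛ : ∑ q ∈ Icc 1 Q, 1 / (Nat.totient q : ℝ) + 1 + 2 * Real.log (W * T : ℕ) ≤ Λ₂)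
    (hωsum : ∀ r < W, M - η * T / 4 ≤ ∑ s ∈ range T, ω (r + W * s)) (hωsum2 : ∀ r < W, ∑ s ∈ range T, ω (r + W * s) ≤ M + 1)
    (hQT : 100 * (Q : ℝ) ^ 4 ≤ η * T) (hwη : 8 / η + 1 ≤ w)
    (hEt : ∫ θ in (0 : ℝ)..1, {θ : ℝ | W * θ ∈ MA P ((P : ℝ) / T)}.indicator (fun θ => ‖hat (cx (hh W Q ω)) (W * T) θ‖ ^ 2) θ ≤ Et) :
    ∃ (B : Finset (ZMod W)) (Ex : ZMod W → Finset ℕ), (∀ b ∈ B, IsUnit b) ∧
      (B.card : ℝ) / Nat.totient W ≤ 10 ^ 4 * Λ₂ * Et / (η ^ 3 * (W * T : ℕ)) ∧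
      ∀ b : ZMod W, IsUnit b → b ∉ B → (M - η * T ≤ ∑ s ∈ range T, FF W ω b.val s) ∧
      (∑ s ∈ range T, FF W ω b.val s ≤ M + η * T) ∧ ((Ex b).card : ℝ) ≤ 256 * m₀ ^ 2 * Λ₂ / (η ^ 2 * T) ∧
      ∀ D, 1 ≤ D → D < U → D ∉ Ex b → ∑ s ∈ range T, FF W ω b.val s * FF W ω b.val (s + D) ≤ (M + η * T) * PP w D := by
  have hWpos : 0 < W := Nat.pos_of_ne_zero (NeZero.ne W)
  have hW0 : (0 : ℝ) < W := by exact_mod_cast hWpos
  have hT0 : (0 : ℝ) < T := by exact_mod_cast hT1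
  have hN0 : (0 : ℝ) < ((W * T : ℕ) : ℝ) := by exact_mod_cast Nat.mul_pos hWpos hT1
  have hφ0 : (0 : ℝ) < Nat.totient W := by exact_mod_cast Nat.totient_pos.2 hWpos
  have hφW : (Nat.totient W : ℝ) ≤ W := by exact_mod_cast Nat.totient_le W
  have hlogN : 0 ≤ Real.log (W * T : ℕ) := Real.log_natCast_nonneg _
  have hS0 : 0 ≤ ∑ q ∈ Icc 1 Q, 1 / (Nat.totient q : ℝ) := sum_nonneg fun q _ => by positivity
  have hΛ1 : 1 ≤ Λ₂ := by linarith
  set E : ℝ := η ^ 3 * T / (10 ^ 4 * Λ₂) with hE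
  have hE0 : 0 < E := by positivity
  set A : Set ℝ := MA P ((P : ℝ) / T) with hA
  set en : ZMod W → ℝ := fun b => ∫ α in (0 : ℝ)..1, A.indicator (fun α => ‖hat (cx (fun s => FF W ω b.val s - gg W Q ω b.val s)) T α‖ ^ 2) α with hen
  set B : Finset (ZMod W) := univ.filter (fun b => IsUnit b ∧ E < en b) with hB
  -- the minor arcs in one class
  have hmin : ∀ r < W, ∀ α, α ∉ A → ‖hat (fun s => cx (hh W Q ω) (r + W * s)) T α‖ ≤ m₀ := by
    intro r hr α hα
    have hm0 : 0 ≤ m₀ := by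
      refine le_trans ?_ hm₀
      have : 0 ≤ Bd (W * T) P := by unfold Bd; positivity
      positivity
    apply class_point hWpos (cx (hh W Q ω)) α m₀ hm0 _ hr
    intro j _
    have h1 := minor (Q := Q) hWs hP hP3 hP2 hω (Nat.mul_pos hWpos hQ) (θ := (α + j) / W) (by
      intro q hq1 hqP a
      by_contra hcon
      push Not at hcon
      apply hα
      rw [← MA_per P ((P : ℝ) / T) α j]
      refine ⟨q, hq1, hqP, W * a, ?_⟩
      have h2 : α + j - ((W * a : ℤ) : ℝ) / q = W * ((α + j) / W - a / q) := by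
        push_cast
        field_simp
      rw [h2, abs_mul, abs_of_pos hW0]
      calc (W : ℝ) * |(α + j) / W - a / q| ≤ W * (P / (W * T : ℕ)) := mul_le_mul_of_nonneg_left hcon hW0.le
        _ = P / T := by
            push_cast
            field_simp)
    refine le_trans (le_of_eq ?_) (h1.trans hm₀)
    rfl
  have hcop : ∀ b : ZMod W, IsUnit b → b.val.Coprime W := by
    intro b hb
    have : IsUnit ((b.val : ℕ) : ZMod W) := by rwa [ZMod.natCast_zmod_val]
    exact (ZMod.isUnit_iff_coprime b.val W).1 this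
  have hη1' : η ≤ 1 := by linarith
  -- good classes
  have key : ∀ b : ZMod W, ∃ Ex : Finset ℕ, IsUnit b → b ∉ B → (M - η * T ≤ ∑ s ∈ range T, FF W ω b.val s) ∧
      (∑ s ∈ range T, FF W ω b.val s ≤ M + η * T) ∧ (Ex.card : ℝ) ≤ 256 * m₀ ^ 2 * Λ₂ / (η ^ 2 * T) ∧
      ∀ D, 1 ≤ D → D < U → D ∉ Ex → ∑ s ∈ range T, FF W ω b.val s * FF W ω b.val (s + D) ≤ (M + η * T) * PP w D := by
    intro b
    by_cases hb : IsUnit b ∧ b ∉ B
    · have henb : en b ≤ E := by
        by_contra hcon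
        push Not at hcon
        exact hb.2 (by rw [hB, mem_filter]; exact ⟨mem_univ _, hb.1, hcon⟩)
      obtain ⟨g1, g2, Ex, g3, g4⟩ := class_win (U := U) hWs (hcop b hb.1) hT1 hQ hω hw hWw hη hη1' hMT hP
        (hmin b.val (ZMod.val_lt b)) henb hΛ hE (hωsum b.val (ZMod.val_lt b)) (hωsum2 b.val (ZMod.val_lt b)) hQT hwη
      exact ⟨Ex, fun _ _ => ⟨g1, g2, g3, g4⟩⟩
    · exact ⟨∅, fun h1 h2 => absurd ⟨h1, h2⟩ hb⟩
  choose Ex hEx using key
  -- the number of bad classes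
  have hBcard : (B.card : ℝ) * E ≤ ((Nat.totient W : ℝ) / W) ^ 2 * Et := by
    have h1 : (B.card : ℝ) * E ≤ ∑ b ∈ B, en b := by
      rw [← nsmul_eq_mul, ← sum_const]
      apply sum_le_sum
      intro b hb
      rw [hB, mem_filter] at hb
      exact hb.2.2.le
    have h2 : ∀ b ∈ B, en b = ((Nat.totient W : ℝ) / W) ^ 2 * ∫ α in (0 : ℝ)..1, A.indicator (fun α => ‖hat (fun s => cx (hh W Q ω) (b.val + W * s)) T α‖ ^ 2) α := by
      intro b hb
      rw [hB, mem_filter] at hb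
      simp only [hen]
      rw [← intervalIntegral.integral_const_mul]
      congr 1
      funext α
      have h3 : hat (cx (fun s => FF W ω b.val s - gg W Q ω b.val s)) T α = (((Nat.totient W : ℝ) / W : ℝ) : ℂ) * hat (fun s => cx (hh W Q ω) (b.val + W * s)) T α := by
        unfold hat cx
        rw [mul_sum]
        refine sum_congr rfl fun s _ => ?_
        beta_reduce
        rw [FF_sub hWs ω (hcop b hb.2.1)]
        push_cast
        ring
      by_cases hα : α ∈ A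
      · rw [Set.indicator_of_mem hα, Set.indicator_of_mem hα, h3, norm_mul, Complex.norm_real, Real.norm_of_nonneg (by positivity), mul_pow]
      · rw [Set.indicator_of_notMem hα, Set.indicator_of_notMem hα, mul_zero]
    rw [sum_congr rfl h2, ← mul_sum] at h1
    refine h1.trans (mul_le_mul_of_nonneg_left ?_ (by positivity))
    refine le_trans ?_ hEt
    have h4 := classes_int (T := T) hWpos (cx (hh W Q ω)) A (MA_meas P _) (MA_per P _)
    rw [← h4]
    have h5 : ∑ b ∈ B, (∫ α in (0 : ℝ)..1, A.indicator (fun α => ‖hat (fun s => cx (hh W Q ω) (b.val + W * s)) T α‖ ^ 2) α) =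
        ∑ r ∈ B.image (fun b => b.val), ∫ α in (0 : ℝ)..1, A.indicator (fun α => ‖hat (fun s => cx (hh W Q ω) (r + W * s)) T α‖ ^ 2) α := by
      rw [sum_image]
      intro a _ b _ hab
      exact ZMod.val_injective W hab
    rw [h5]
    apply sum_le_sum_of_subset_of_nonneg
    · intro r hr
      rw [mem_image] at hr
      obtain ⟨b, _, rfl⟩ := hr
      exact mem_range.2 (ZMod.val_lt b)
    · intro r _ _
      apply intervalIntegral.integral_nonneg zero_le_one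
      intro α _
      apply Set.indicator_nonneg
      intro _ _
      positivity
  have hEt0 : 0 ≤ Et := by
    have h1 : 0 ≤ ((Nat.totient W : ℝ) / W) ^ 2 * Et := le_trans (by positivity) hBcard
    exact nonneg_of_mul_nonneg_right h1 (by positivity)
  have hBφ : (B.card : ℝ) / Nat.totient W ≤ 10 ^ 4 * Λ₂ * Et / (η ^ 3 * (W * T : ℕ)) := by
    have h1 : (B.card : ℝ) ≤ ((Nat.totient W : ℝ) / W) ^ 2 * Et / E := by
      rw [le_div_iff₀ hE0]
      exact hBcard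
    rw [div_le_iff₀ hφ0]
    refine h1.trans ?_
    have h2 : ((Nat.totient W : ℝ) / W) ^ 2 * Et / E = (Nat.totient W : ℝ) / W * (10 ^ 4 * Λ₂ * Et / (η ^ 3 * (W * T : ℕ)) * Nat.totient W) := by
      rw [hE]
      push_cast
      field_simp
    rw [h2]
    have h3 : (Nat.totient W : ℝ) / W ≤ 1 := (div_le_one hW0).2 hφW
    have h4 : 0 ≤ 10 ^ 4 * Λ₂ * Et / (η ^ 3 * (W * T : ℕ)) * Nat.totient W := by positivity
    nlinarith
  refine ⟨B, Ex, ?_, hBφ, fun b hb hbB => hEx b hb hbB⟩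
  intro b hb
  rw [hB, mem_filter] at hb
  exact hb.2.1

end Pool.Agent.J4H81.PT.HW
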