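import Pool.Agent.J4H81.PT.LB

/-!
# Hardy-Littlewood on average: the mean deficit of the number of solutions over the lifts (helper81)
-/

set_option autoImplicit false

namespace Pool.Agent.J4H81.PT.HW

open Finset
open Pool.Agent.J4H81.PT

/-- the mean deficit from the first two moments -/
theorem moment_deficit {k T U : ℕ} (f : Fin k → ℕ → ℝ)
    {η₁ η₂ : ℝ} (hη1 : 0 ≤ η₁) (hη2 : 0 ≤ η₂)
    (h1 : ∀ u < U, (1 - η₁) * (T : ℝ) ^ k ≤ ∏ i, ∑ t ∈ range T, f i (u + t))
    (h2 : ∑ u ∈ range U, ∑ u' ∈ range U, ∏ i, ∑ t ∈ range T, f i (u + t) * f i (u' + t) ≤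
      (1 + η₂) * ((U : ℝ) ^ 2 * (T : ℝ) ^ k)) :
    ∑ t ∈ Fintype.piFinset (fun _ : Fin k => range T), max 0 ((U : ℝ) - ∑ u ∈ range U, ∏ i, f i (u + t i)) ≤
      Real.sqrt (2 * η₁ + η₂) * (U * (T : ℝ) ^ k) := by
  classical
  set Om := Fintype.piFinset (fun _ : Fin k => range T) with hOm
  set Z : (Fin k → ℕ) → ℝ := fun t => ∑ u ∈ range U, ∏ i, f i (u + t i) with hZ
  have hcard : (Om.card : ℝ) = (T : ℝ) ^ k := by
    rw [hOm, Fintype.card_piFinset]
    simp
  have hS1 : ∑ t ∈ Om, Z t = ∑ u ∈ range U, ∏ i, ∑ t ∈ range T, f i (u + t) := by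
    rw [hZ, sum_comm]
    refine sum_congr rfl fun u _ => ?_
    rw [hOm, ← Finset.prod_univ_sum (t := fun _ : Fin k => range T) (f := fun i t => f i (u + t))]
  have hS2 : ∑ t ∈ Om, Z t ^ 2 =
      ∑ u ∈ range U, ∑ u' ∈ range U, ∏ i, ∑ t ∈ range T, f i (u + t) * f i (u' + t) := by
    have e : ∀ t, Z t ^ 2 = ∑ u ∈ range U, ∑ u' ∈ range U, ∏ i, (f i (u + t i) * f i (u' + t i)) := by
      intro t
      rw [hZ, sq, sum_mul_sum]
      refine sum_congr rfl fun u _ => sum_congr rfl fun u' _ => ?_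
      rw [prod_mul_distrib]
    rw [sum_congr rfl (fun t _ => e t), sum_comm]
    refine sum_congr rfl fun u _ => ?_
    rw [sum_comm]
    refine sum_congr rfl fun u' _ => ?_
    rw [hOm, ← Finset.prod_univ_sum (t := fun _ : Fin k => range T)
      (f := fun i t => f i (u + t) * f i (u' + t))]
  have hS1' : (1 - η₁) * ((U : ℝ) * (T : ℝ) ^ k) ≤ ∑ t ∈ Om, Z t := by
    rw [hS1]
    calc (1 - η₁) * ((U : ℝ) * (T : ℝ) ^ k) = ∑ u ∈ range U, (1 - η₁) * (T : ℝ) ^ k := by
          rw [sum_const, card_range, nsmul_eq_mul]; ring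
      _ ≤ _ := sum_le_sum fun u hu => h1 u (mem_range.1 hu)
  have hS2' : ∑ t ∈ Om, Z t ^ 2 ≤ (1 + η₂) * ((U : ℝ) ^ 2 * (T : ℝ) ^ k) := by rw [hS2]; exact h2
  have hvar : ∑ t ∈ Om, ((U : ℝ) - Z t) ^ 2 ≤ (2 * η₁ + η₂) * ((U : ℝ) ^ 2 * (T : ℝ) ^ k) := by
    have e : ∑ t ∈ Om, ((U : ℝ) - Z t) ^ 2 = (U : ℝ) ^ 2 * Om.card - 2 * U * ∑ t ∈ Om, Z t + ∑ t ∈ Om, Z t ^ 2 := by
      rw [mul_sum, ← nsmul_eq_mul', ← sum_const, ← sum_sub_distrib, ← sum_add_distrib]
      exact sum_congr rfl fun t _ => by ring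
    rw [e, hcard]
    have h3 := mul_le_mul_of_nonneg_left hS1' (show (0 : ℝ) ≤ 2 * U by positivity)
    nlinarith only [h3, hS2']
  have h3 : (∑ t ∈ Om, max 0 ((U : ℝ) - Z t)) ^ 2 ≤ Om.card * ∑ t ∈ Om, ((U : ℝ) - Z t) ^ 2 := by
    refine (sq_sum_le_card_mul_sum_sq).trans (mul_le_mul_of_nonneg_left ?_ (Nat.cast_nonneg _))
    apply sum_le_sum
    intro t _
    rcases le_total 0 ((U : ℝ) - Z t) with h | h
    · rw [max_eq_right h]
    · rw [max_eq_left h, zero_pow two_ne_zero]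
      exact sq_nonneg _
  have h4 : 0 ≤ ∑ t ∈ Om, max 0 ((U : ℝ) - Z t) := sum_nonneg fun t _ => le_max_left _ _
  have h5 : (∑ t ∈ Om, max 0 ((U : ℝ) - Z t)) ^ 2 ≤ (Real.sqrt (2 * η₁ + η₂) * (U * (T : ℝ) ^ k)) ^ 2 := by
    rw [mul_pow, Real.sq_sqrt (by positivity)]
    refine h3.trans ?_
    rw [hcard]
    calc (T : ℝ) ^ k * ∑ t ∈ Om, ((U : ℝ) - Z t) ^ 2 ≤ (T : ℝ) ^ k * ((2 * η₁ + η₂) * ((U : ℝ) ^ 2 * (T : ℝ) ^ k)) := by gcongr
      _ = _ := by ring
  exact (abs_le_of_sq_le_sq' h5 (by positivity)).2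

theorem lift_deficit {k T U w : ℕ} (hT : 0 < T) (hU : 0 < U) (hkw : k ≤ w) (hw : 1 ≤ w) (f : Fin k → ℕ → ℝ)
    (hf : ∀ i s, 0 ≤ f i s) {η B : ℝ} (hη : 0 ≤ η) (hη1 : η ≤ 1) (hB : 0 ≤ B) (hsmall : k * η + 2 * k / w ≤ 1)
    (h1 : ∀ i, ∀ u < U, (1 - η) * T ≤ ∑ t ∈ range T, f i (u + t))
    (hsq : ∀ i, ∀ u < U, ∑ t ∈ range T, f i (u + t) ^ 2 ≤ B * T)
    (Ex : Finset ℕ)
    (h2 : ∀ i, ∀ D, 1 ≤ D → D < U → D ∉ Ex → ∑ s ∈ range (T + U), f i s * f i (s + D) ≤ (1 + η) * T * PP w D) :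
    ∑ t ∈ Fintype.piFinset (fun _ : Fin k => range T), max 0 ((U : ℝ) - ∑ u ∈ range U, ∏ i, f i (u + t i)) ≤
      Real.sqrt (4 * k * η + 4 * k / w + B ^ k * (1 + 2 * Ex.card) / U) * (U * (T : ℝ) ^ k) := by
  have hT' : (0 : ℝ) < T := by exact_mod_cast hT
  have hU' : (0 : ℝ) < U := by exact_mod_cast hU
  have hw' : (0 : ℝ) < w := by exact_mod_cast hw
  -- the pairs
  have hcs : ∀ i, ∀ u < U, ∀ u' < U, ∑ t ∈ range T, f i (u + t) * f i (u' + t) ≤ B * T := by
    intro i u hu u' hu'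
    have h3 : ∑ t ∈ range T, f i (u + t) * f i (u' + t) ≤
        ∑ t ∈ range T, (f i (u + t) ^ 2 + f i (u' + t) ^ 2) / 2 := by
      apply sum_le_sum
      intro t _
      nlinarith [sq_nonneg (f i (u + t) - f i (u' + t))]
    rw [← sum_div, sum_add_distrib] at h3
    have := hsq i u hu
    have := hsq i u' hu'
    linarith
  have hmain : ∀ i, ∀ u < U, ∀ u' < U, u ≠ u' → Nat.dist u u' ∉ Ex →
      ∑ t ∈ range T, f i (u + t) * f i (u' + t) ≤ (1 + η) * T * PP w (Nat.dist u u') := by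
    have key : ∀ i, ∀ u < U, ∀ u' < U, u < u' → Nat.dist u u' ∉ Ex →
        ∑ t ∈ range T, f i (u + t) * f i (u' + t) ≤ (1 + η) * T * PP w (Nat.dist u u') := by
      intro i u hu u' hu' hlt hex
      have hd : Nat.dist u u' = u' - u := by unfold Nat.dist; omega
      rw [hd] at hex ⊢
      refine le_trans ?_ (h2 i (u' - u) (by omega) (by omega) hex)
      have e : ∑ t ∈ range T, f i (u + t) * f i (u' + t) =
          ∑ s ∈ (range T).image (fun t => u + t), f i s * f i (s + (u' - u)) := by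
        rw [sum_image (by intro a _ b _ h; simpa using h)]
        refine sum_congr rfl fun t _ => ?_
        congr 2
        omega
      rw [e]
      apply sum_le_sum_of_subset_of_nonneg
      · intro s hs
        rw [mem_image] at hs
        obtain ⟨t, ht, rfl⟩ := hs
        rw [mem_range] at ht ⊢
        omega
      · intro s _ _
        exact mul_nonneg (hf i _) (hf i _)
    intro i u hu u' hu' hne hex
    rcases lt_or_gt_of_ne hne with hlt | hlt
    · exact key i u hu u' hu' hlt hex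
    · rw [Nat.dist_comm] at hex ⊢
      have := key i u' hu' u hu hlt hex
      refine le_trans (le_of_eq ?_) this
      exact sum_congr rfl fun t _ => mul_comm _ _
  have hprodnn : ∀ u u' : ℕ, ∀ i ∈ (univ : Finset (Fin k)), 0 ≤ ∑ t ∈ range T, f i (u + t) * f i (u' + t) :=
    fun u u' i _ => sum_nonneg fun t _ => mul_nonneg (hf i _) (hf i _)
  have hS2 : ∑ u ∈ range U, ∑ u' ∈ range U, ∏ i, ∑ t ∈ range T, f i (u + t) * f i (u' + t) ≤
      (1 + ((1 + η) ^ k * Real.exp (2 * k / w) - 1 + B ^ k * (1 + 2 * Ex.card) / U)) * ((U : ℝ) ^ 2 * (T : ℝ) ^ k) := by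
    have hpt : ∀ u ∈ range U, ∑ u' ∈ range U, ∏ i, ∑ t ∈ range T, f i (u + t) * f i (u' + t) ≤
        (B * T) ^ k * (1 + 2 * Ex.card) + ((1 + η) * T) ^ k *
          ∑ u' ∈ (range U).filter (fun u' => u ≠ u'), PP w (Nat.dist u u') ^ k := by
      intro u hu
      rw [mem_range] at hu
      have hpt2 : ∀ u' ∈ range U, ∏ i, ∑ t ∈ range T, f i (u + t) * f i (u' + t) ≤
          (if u = u' ∨ Nat.dist u u' ∈ Ex then (B * T) ^ k else 0) +
          (if u ≠ u' then ((1 + η) * T) ^ k * PP w (Nat.dist u u') ^ k else 0) := by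
        intro u' hu'
        rw [mem_range] at hu'
        have hP := PP_one_le w (Nat.dist u u')
        have hnn2 : 0 ≤ ((1 + η) * (T : ℝ)) ^ k * PP w (Nat.dist u u') ^ k := by positivity
        have hnn1 : 0 ≤ (B * (T : ℝ)) ^ k := by positivity
        by_cases hc : u = u' ∨ Nat.dist u u' ∈ Ex
        · rw [if_pos hc]
          have h4 : ∏ i, ∑ t ∈ range T, f i (u + t) * f i (u' + t) ≤ ∏ i : Fin k, (B * T) :=
            prod_le_prod (hprodnn u u') fun i _ => hcs i u hu u' hu'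
          rw [prod_const, card_univ, Fintype.card_fin] at h4
          split_ifs <;> linarith
        · rw [if_neg hc]
          push Not at hc
          rw [if_pos hc.1, zero_add]
          have h4 : ∏ i, ∑ t ∈ range T, f i (u + t) * f i (u' + t) ≤
              ∏ i : Fin k, ((1 + η) * T * PP w (Nat.dist u u')) :=
            prod_le_prod (hprodnn u u') fun i _ => hmain i u hu u' hu' hc.1 hc.2
          rw [prod_const, card_univ, Fintype.card_fin, mul_pow] at h4
          exact h4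
      refine (sum_le_sum hpt2).trans ?_
      rw [sum_add_distrib, ← sum_filter, ← sum_filter, sum_const, ← mul_sum, nsmul_eq_mul]
      have hcard : (((range U).filter (fun u' => u = u' ∨ Nat.dist u u' ∈ Ex)).card : ℝ) ≤ 1 + 2 * Ex.card := by
        have h5 : (range U).filter (fun u' => u = u' ∨ Nat.dist u u' ∈ Ex) ⊆
            {u} ∪ (Ex.image (fun D => u + D) ∪ Ex.image (fun D => u - D)) := by
          intro u' hu'
          rw [mem_filter] at hu'
          rcases hu'.2 with h6 | h6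
          · rw [mem_union, mem_singleton]; exact Or.inl h6.symm
          · apply mem_union_right
            rcases le_total u u' with h7 | h7
            · apply mem_union_left
              rw [mem_image]
              refine ⟨_, h6, ?_⟩
              unfold Nat.dist; omega
            · apply mem_union_right
              rw [mem_image]
              refine ⟨_, h6, ?_⟩
              unfold Nat.dist; omega
        have h6 := card_le_card h5
        have h7 := card_union_le {u} (Ex.image (fun D => u + D) ∪ Ex.image (fun D => u - D))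
        have h8 := card_union_le (Ex.image (fun D => u + D)) (Ex.image (fun D => u - D))
        have h9 := card_image_le (s := Ex) (f := fun D => u + D)
        have h10 := card_image_le (s := Ex) (f := fun D => u - D)
        rw [card_singleton] at h7
        have : ((range U).filter (fun u' => u = u' ∨ Nat.dist u u' ∈ Ex)).card ≤ 1 + 2 * Ex.card := by omega
        exact_mod_cast this
      have hnn1 : 0 ≤ (B * (T : ℝ)) ^ k := by positivity
      have := mul_le_mul_of_nonneg_right hcard hnn1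
      linarith
    calc _ ≤ ∑ u ∈ range U, ((B * T) ^ k * (1 + 2 * Ex.card) + ((1 + η) * T) ^ k *
          ∑ u' ∈ (range U).filter (fun u' => u ≠ u'), PP w (Nat.dist u u') ^ k) := sum_le_sum hpt
      _ = U * ((B * T) ^ k * (1 + 2 * Ex.card)) + ((1 + η) * T) ^ k *
          ∑ u ∈ range U, ∑ u' ∈ (range U).filter (fun u' => u ≠ u'), PP w (Nat.dist u u') ^ k := by
          rw [sum_add_distrib, sum_const, card_range, nsmul_eq_mul, mul_sum]
      _ ≤ U * ((B * T) ^ k * (1 + 2 * Ex.card)) + ((1 + η) * T) ^ k * ((U : ℝ) ^ 2 * Real.exp (2 * k / w)) := by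
          gcongr
          exact PP_pairs k w U hkw hw
      _ = _ := by rw [mul_pow, mul_pow]; field_simp; ring
  have hS1 : ∀ u < U, (1 - k * η) * (T : ℝ) ^ k ≤ ∏ i : Fin k, ∑ t ∈ range T, f i (u + t) := by
    intro u hu
    have h3 : (1 - k * η) ≤ (1 - η) ^ k := by
      have := one_add_mul_le_pow (show (-2 : ℝ) ≤ -η by linarith) k
      have e : (1 : ℝ) + -η = 1 - η := by ring
      rw [e] at this
      linarith
    calc (1 - k * η) * (T : ℝ) ^ k ≤ (1 - η) ^ k * (T : ℝ) ^ k := by gcongr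
      _ = ∏ i : Fin k, ((1 - η) * T) := by rw [prod_const, card_univ, Fintype.card_fin, mul_pow]
      _ ≤ _ := prod_le_prod (fun i _ => mul_nonneg (by linarith) hT'.le) fun i _ => h1 i u hu
  have hexp : (1 + η) ^ k * Real.exp (2 * k / w) - 1 ≤ 2 * (k * η + 2 * k / w) := by
    have h3 : (1 + η) ^ k ≤ Real.exp (k * η) := by
      rw [Real.exp_nat_mul]
      exact pow_le_pow_left₀ (by linarith) (by linarith [Real.add_one_le_exp η]) k
    have h4 : (1 + η) ^ k * Real.exp (2 * k / w) ≤ Real.exp (k * η + 2 * k / w) := by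
      rw [Real.exp_add]; gcongr
    have hx0 : 0 ≤ k * η + 2 * k / w := by positivity
    have h5 := Real.exp_bound' hx0 hsmall (n := 2) (by norm_num)
    simp [Finset.sum_range_succ, Nat.factorial] at h5
    nlinarith
  have hη2 : 0 ≤ (1 + η) ^ k * Real.exp (2 * k / w) - 1 + B ^ k * (1 + 2 * Ex.card) / U := by
    have h3 : 1 ≤ (1 + η) ^ k := one_le_pow₀ (by linarith)
    have h4 : 1 ≤ Real.exp (2 * k / w) := Real.one_le_exp (by positivity)
    have h5 : 1 ≤ (1 + η) ^ k * Real.exp (2 * k / w) := one_le_mul_of_one_le_of_one_le h3 h4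
    have h6 : 0 ≤ B ^ k * (1 + 2 * Ex.card) / U := by positivity
    linarith
  refine (moment_deficit f (by positivity) hη2 hS1 hS2).trans ?_
  have hTk : 0 ≤ (U : ℝ) * (T : ℝ) ^ k := by positivity
  apply mul_le_mul_of_nonneg_right _ hTk
  apply Real.sqrt_le_sqrt
  have e : 4 * (k : ℝ) / w = 2 * (2 * k / w) := by ring
  rw [e]
  linarith

end Pool.Agent.J4H81.PT.HW
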