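import Pool.Agent.J4H81.HL.LP
import Pool.Agent.J4H69.HL.Sing
import Pool.Agent.J4H69.HL.VV
import Pool.Agent.J4H69.HL.Sub
import Pool.Agent.J4H57.HL.Tail

/-!
# Hardy-Littlewood on average: counting lemmas for the final assembly (helper81)

Parts A, D, E are by helper69, parts B, C by helper57.
-/

set_option autoImplicit false

namespace Pool.Agent.J4H81.HL

open Finset
open Pool.Agent.J4H81.PT (VV)
open Pool.Agent.J4H81.PT.HW (cntY sum_lifts sum_card_VV)

theorem count_upper {k y : ℕ} {X : ℝ} (hX : ∀ n ≤ y, (((range (y + 1)).filter (fun a => (n + a).Prime)).card : ℝ) ≤ X) :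
    ∑ a ∈ Fintype.piFinset (fun _ : Fin k => range (y + 1)), (cntY y a : ℝ) ≤ y * X ^ k := by
  classical
  have h1 : ∀ a : Fin k → ℕ, (cntY y a : ℝ) = ∑ n ∈ Icc 1 y, ∏ i : Fin k, (if (n + a i).Prime then (1 : ℝ) else 0) := by
    intro a
    unfold cntY
    rw [card_filter]
    push_cast
    refine sum_congr rfl fun n _ => ?_
    by_cases h : ∀ i, (n + a i).Prime
    · rw [if_pos h, prod_congr rfl (fun i _ => if_pos (h i)), prod_const_one]
    · rw [if_neg h]
      push Not at h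
      obtain ⟨i, hi⟩ := h
      exact (prod_eq_zero (mem_univ i) (if_neg hi)).symm
  rw [sum_congr rfl (fun a _ => h1 a), sum_comm]
  have h2 : ∀ n ∈ Icc 1 y, ∑ a ∈ Fintype.piFinset (fun _ : Fin k => range (y + 1)), ∏ i : Fin k, (if (n + a i).Prime then (1 : ℝ) else 0) ≤ X ^ k := by
    intro n hn
    rw [mem_Icc] at hn
    rw [← Finset.prod_univ_sum (t := fun _ : Fin k => range (y + 1)) (f := fun _ a => if (n + a).Prime then (1 : ℝ) else 0),
      prod_const, card_univ, Fintype.card_fin, ← sum_filter, sum_const, nsmul_eq_mul, mul_one]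
    exact pow_le_pow_left₀ (Nat.cast_nonneg _) (hX n hn.2) k
  refine (sum_le_sum h2).trans ?_
  rw [sum_const, Nat.card_Icc, nsmul_eq_mul]
  simp

/-- Bernoulli -/
theorem pow_diff {x z : ℝ} (hz : 0 ≤ z) (hx : 0 < x) (hzx : z ≤ x) (k : ℕ) : x ^ k * (1 - k * ((x - z) / x)) ≤ z ^ k := by
  have h1 : -2 ≤ -((x - z) / x) := by
    have : (x - z) / x ≤ 1 := by rw [div_le_one hx]; linarith
    linarith
  have h2 := one_add_mul_le_pow h1 k
  have h3 : 1 + -((x - z) / x) = z / x := by field_simp; ring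
  rw [h3, div_pow] at h2
  have h4 : 0 < x ^ k := by positivity
  have h5 := mul_le_mul_of_nonneg_left h2 h4.le
  have h6 : x ^ k * (z ^ k / x ^ k) = z ^ k := by field_simp
  rw [h6] at h5
  refine le_trans (le_of_eq ?_) h5
  ring

theorem card_pi (k N : ℕ) : ((Fintype.piFinset (fun _ : Fin k => range N)).card : ℝ) = (N : ℝ) ^ k := by
  rw [Fintype.card_piFinset]
  simp

/-- the number of injective vectors -/
theorem card_inj {k N : ℕ} : (((Fintype.piFinset (fun _ : Fin k => range N)).filter (fun a => Function.Injective a)).card : ℝ) =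
    (N.choose k : ℝ) * k.factorial := by
  classical
  have h1 := Pool.Agent.J4H69.HL.t_SUB (range N) k (fun _ => (1 : ℝ))
  rw [sum_const, sum_const, card_powersetCard, card_range, nsmul_eq_mul, nsmul_eq_mul, mul_one, mul_one] at h1
  rw [h1]

theorem inj_ge {k N : ℕ} (hN : 0 < N) (hkN : k ≤ N) : (N : ℝ) ^ k * (1 - (k : ℝ) ^ 2 / N) ≤ (N.choose k : ℝ) * k.factorial := by
  have h1 : (N + 1 - k) ^ k ≤ N.descFactorial k := Nat.pow_sub_le_descFactorial N k
  have h2 : N.descFactorial k = k.factorial * N.choose k := Nat.descFactorial_eq_factorial_mul_choose N k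
  rw [h2] at h1
  have h3 : (((N - k : ℕ) : ℝ)) ^ k ≤ (N.choose k : ℝ) * k.factorial := by
    have h4 : (N - k) ^ k ≤ (N + 1 - k) ^ k := Nat.pow_le_pow_left (by omega) k
    have h5 := h4.trans h1
    have h6 : (((N - k) ^ k : ℕ) : ℝ) ≤ ((k.factorial * N.choose k : ℕ) : ℝ) := by exact_mod_cast h5
    push_cast [Nat.cast_sub hkN] at h6 ⊢
    linarith
  refine le_trans ?_ h3
  have hN0 : (0 : ℝ) < N := by exact_mod_cast hN
  have h4 := pow_diff (x := (N : ℝ)) (z := ((N - k : ℕ) : ℝ)) (Nat.cast_nonneg _) hN0 (by exact_mod_cast Nat.sub_le _ _) k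
  refine le_trans (le_of_eq ?_) h4
  rw [Nat.cast_sub hkN]
  have : (N : ℝ) - (N - k) = k := by ring
  rw [this]
  ring

/-- the number of the vectors which are not injective -/
theorem noninj_le {k N : ℕ} (hN : 0 < N) (hkN : k ≤ N) :
    (((Fintype.piFinset (fun _ : Fin k => range N)).filter (fun a => ¬ Function.Injective a)).card : ℝ) ≤ (k : ℝ) ^ 2 / N * (N : ℝ) ^ k := by
  classical
  have h1 := Finset.card_filter_add_card_filter_not (s := Fintype.piFinset (fun _ : Fin k => range N)) (fun a => Function.Injective a)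
  have h2 : (((Fintype.piFinset (fun _ : Fin k => range N)).filter (fun a => Function.Injective a)).card : ℝ) +
      (((Fintype.piFinset (fun _ : Fin k => range N)).filter (fun a => ¬ Function.Injective a)).card : ℝ) = (N : ℝ) ^ k := by
    rw [← card_pi]
    exact_mod_cast h1
  have h3 := inj_ge hN hkN
  have h4 : (((Fintype.piFinset (fun _ : Fin k => range N)).filter (fun a => Function.Injective a)).card : ℝ) =
    (N.choose k : ℝ) * k.factorial := by
    rw [← card_inj]
  have h5 : (N : ℝ) ^ k * (1 - (k : ℝ) ^ 2 / N) = (N : ℝ) ^ k - (k : ℝ) ^ 2 / N * (N : ℝ) ^ k := by ring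
  linarith

theorem nuV_le {k : ℕ} (a : Fin k → ℕ) {p : ℕ} (hp : 0 < p) : nuV a p ≤ p := by
  unfold nuV
  have : (univ : Finset (Fin k)).image (fun i => a i % p) ⊆ range p := by
    intro x hx
    rw [mem_image] at hx
    obtain ⟨i, _, rfl⟩ := hx
    exact mem_range.2 (Nat.mod_lt _ hp)
  simpa using card_le_card this

theorem XX_nonneg {k : ℕ} (a : Fin k → ℕ) {p : ℕ} (hp : p.Prime) : 0 ≤ XX a p := by
  unfold XX
  have hp0 : (0 : ℝ) < p := by exact_mod_cast hp.pos
  have hp2 : (2 : ℝ) ≤ p := by exact_mod_cast hp.two_le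
  have h1 : (nuV a p : ℝ) ≤ p := by exact_mod_cast nuV_le a hp.pos
  apply div_nonneg
  · rw [sub_nonneg, div_le_one hp0]
    exact h1
  · apply pow_nonneg
    rw [sub_nonneg, div_le_one hp0]
    linarith

theorem XX_le {k : ℕ} (a : Fin k → ℕ) {p : ℕ} (hp : p.Prime) : XX a p ≤ Real.exp (2 * k / p) := by
  unfold XX
  have hp0 : (0 : ℝ) < p := by exact_mod_cast hp.pos
  have hp2 : (2 : ℝ) ≤ p := by exact_mod_cast hp.two_le
  have h2 : (1 : ℝ) / p ≤ 1 / 2 := one_div_le_one_div_of_le (by norm_num) hp2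
  have h0 : (0 : ℝ) < 1 / p := by positivity
  have h1 : 0 < 1 - 1 / (p : ℝ) := by linarith
  rw [div_le_iff₀ (pow_pos h1 k)]
  have h3 : Real.exp (-(2 * (1 / (p : ℝ)))) ≤ 1 - 1 / p := by
    have h4 := Real.add_one_le_exp (2 * (1 / (p : ℝ)))
    have h5 : 1 ≤ (1 - 1 / (p : ℝ)) * Real.exp (2 * (1 / (p : ℝ))) := by
      have h6 := mul_le_mul_of_nonneg_left h4 h1.le
      nlinarith only [h6, h0, h2]
    have h6 : Real.exp (-(2 * (1 / (p : ℝ)))) * Real.exp (2 * (1 / (p : ℝ))) = 1 := by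
      rw [← Real.exp_add, neg_add_cancel, Real.exp_zero]
    have h7 := mul_le_mul_of_nonneg_left h5 (Real.exp_pos (-(2 * (1 / (p : ℝ))))).le
    calc Real.exp (-(2 * (1 / (p : ℝ)))) = Real.exp (-(2 * (1 / (p : ℝ)))) * 1 := by ring
      _ ≤ Real.exp (-(2 * (1 / (p : ℝ)))) * ((1 - 1 / (p : ℝ)) * Real.exp (2 * (1 / (p : ℝ)))) := h7
      _ = (1 - 1 / (p : ℝ)) * (Real.exp (-(2 * (1 / (p : ℝ)))) * Real.exp (2 * (1 / (p : ℝ)))) := by ring
      _ = 1 - 1 / p := by rw [h6, mul_one]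
  have h4 : (1 : ℝ) ≤ Real.exp (2 * k / p) * (1 - 1 / (p : ℝ)) ^ k := by
    have h5 : Real.exp (-(2 * (1 / (p : ℝ)))) ^ k ≤ (1 - 1 / (p : ℝ)) ^ k := pow_le_pow_left₀ (Real.exp_pos _).le h3 k
    have h6 : Real.exp (2 * k / p) * Real.exp (-(2 * (1 / (p : ℝ)))) ^ k = 1 := by
      rw [← Real.exp_nat_mul, ← Real.exp_add]
      have : 2 * (k : ℝ) / p + k * -(2 * (1 / (p : ℝ))) = 0 := by ring
      rw [this, Real.exp_zero]
    calc (1 : ℝ) = Real.exp (2 * k / p) * Real.exp (-(2 * (1 / (p : ℝ)))) ^ k := h6.symm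
      _ ≤ _ := mul_le_mul_of_nonneg_left h5 (Real.exp_pos _).le
  have h5 : 0 ≤ (nuV a p : ℝ) / p := by positivity
  linarith

theorem prod_XX_le {k : ℕ} (a : Fin k → ℕ) (z : ℕ) (hz : 1 ≤ z) :
    ∏ p ∈ (Icc 1 z).filter Nat.Prime, XX a p ≤ Real.exp (2 * k * (1 + Real.log z)) := by
  calc ∏ p ∈ (Icc 1 z).filter Nat.Prime, XX a p ≤ ∏ p ∈ (Icc 1 z).filter Nat.Prime, Real.exp (2 * k / p) := by
        apply prod_le_prod
        · intro p hp
          exact XX_nonneg a (mem_filter.1 hp).2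
        · intro p hp
          exact XX_le a (mem_filter.1 hp).2
    _ = Real.exp (∑ p ∈ (Icc 1 z).filter Nat.Prime, 2 * (k : ℝ) / p) := by rw [Real.exp_sum]
    _ ≤ Real.exp (∑ p ∈ Icc 1 z, 2 * (k : ℝ) / p) := by
        apply Real.exp_le_exp.2
        apply sum_le_sum_of_subset_of_nonneg (filter_subset _ _)
        intro p _ _
        positivity
    _ ≤ _ := by
        apply Real.exp_le_exp.2
        have h1 : ∑ p ∈ Icc 1 z, 2 * (k : ℝ) / p = 2 * k * ∑ p ∈ Icc 1 z, ((p : ℝ))⁻¹ := by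
          rw [mul_sum]
          exact sum_congr rfl fun p _ => by rw [div_eq_mul_inv]
        rw [h1]
        apply mul_le_mul_of_nonneg_left _ (by positivity)
        have h2 := harmonic_le_one_add_log z
        have h3 : ((harmonic z : ℚ) : ℝ) = ∑ p ∈ Icc 1 z, ((p : ℝ))⁻¹ := by
          rw [harmonic_eq_sum_Icc]
          push_cast
          rfl
        rw [h3] at h2
        exact h2

end Pool.Agent.J4H81.HL
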