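import Pool.Agent.J4H81.HL.FA

/-!
# Hardy-Littlewood on average: the first moment argument (helper81)
-/

set_option autoImplicit false

namespace Pool.Agent.J4H81.HL

open Finset
open Pool.Agent.J4H81.PT (VV)
open Pool.Agent.J4H81.PT.HW (cntY sum_lifts sum_card_VV)

/-- the first moment argument: a lower bound in the mean and the right total give the asymptotics in the mean -/
theorem l1_abs {α : Type*} [DecidableEq α] (Om Om' : Finset α) (I : α → Prop) [DecidablePred I] (hOm : Om ⊆ Om') (cnt S Sz Sw : α → ℝ)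
    {H H' V V' E Z κ lam : ℝ} (hH : 0 < H) (hH' : (1 - E) * H ≤ H') (hH'2 : H' ≤ H) (hE : 0 ≤ E) (hE8 : E ≤ 1 / 8)
    (hcnt : ∀ a ∈ Om', 0 ≤ cnt a) (hSw0 : ∀ a ∈ Om, 0 ≤ Sw a) (hSz0 : ∀ a ∈ Om', 0 ≤ Sz a) (hSzZ : ∀ a ∈ Om', Sz a ≤ Z)
    (hS : ∀ a ∈ Om', I a → |S a - Sz a| ≤ E * Sz a)
    (hV : (Om.card : ℝ) = V) (hV' : (Om'.card : ℝ) = V') (hVV' : V' * (1 - lam) ≤ V) (hlam : lam ≤ E) (hlam0 : 0 ≤ lam) (hZl : Z * lam ≤ E)
    (hSwsum : ∑ a ∈ Om, Sw a = V) (hSzw : ∑ a ∈ Om, |Sz a - Sw a| ≤ E * V)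
    (hlow : ∑ a ∈ Om, max 0 (Sw a * H' - cnt a) ≤ E * (V * H))
    (hnI : (((Om.filter (fun a => ¬ I a)).card : ℕ) : ℝ) ≤ κ * V) (hZk : Z * κ ≤ E)
    (hup : ∑ a ∈ Om', cnt a ≤ (1 + E) * (V' * H)) :
    ∑ a ∈ Om'.filter I, |cnt a - S a * H| ≤ 19 * E * (V' * H) := by
  have hV0 : 0 ≤ V := by rw [← hV]; exact Nat.cast_nonneg _
  have hV'0 : 0 ≤ V' := by rw [← hV']; exact Nat.cast_nonneg _
  have hVleV' : V ≤ V' := by
    rw [← hV, ← hV']
    exact_mod_cast card_le_card hOm
  have hE1 : 0 ≤ 1 - E := by linarith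
  -- the singular series
  have hS1 : ∀ a ∈ Om', I a → (1 - E) * Sz a ≤ S a := by
    intro a ha hI
    have := (abs_le.1 (hS a ha hI)).1
    linarith
  have hS2 : ∀ a ∈ Om', I a → S a ≤ (1 + E) * Sz a := by
    intro a ha hI
    have := (abs_le.1 (hS a ha hI)).2
    linarith
  have hS0 : ∀ a ∈ Om', I a → 0 ≤ S a := fun a ha hI => (mul_nonneg hE1 (hSz0 a ha)).trans (hS1 a ha hI)
  have hsub : Om.filter I ⊆ Om'.filter I := filter_subset_filter I hOm
  have hSzsum1 : V - E * V ≤ ∑ a ∈ Om, Sz a := by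
    have h1 : ∑ a ∈ Om, (Sw a - Sz a) ≤ ∑ a ∈ Om, |Sz a - Sw a| := by
      apply sum_le_sum
      intro a _
      rw [abs_sub_comm]
      exact le_abs_self _
    rw [sum_sub_distrib, hSwsum] at h1
    linarith
  have hSzsum2 : ∑ a ∈ Om, Sz a ≤ V + E * V := by
    have h1 : ∑ a ∈ Om, (Sz a - Sw a) ≤ ∑ a ∈ Om, |Sz a - Sw a| := by
      apply sum_le_sum
      intro a _
      exact le_abs_self _
    rw [sum_sub_distrib, hSwsum] at h1
    linarith
  have hZ0 : 0 ≤ Z ∨ Om' = ∅ := by
    rcases Om'.eq_empty_or_nonempty with h | ⟨a, ha⟩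
    · exact Or.inr h
    · exact Or.inl ((hSz0 a ha).trans (hSzZ a ha))
  rcases hZ0 with hZ0 | hempty
  swap
  · rw [hempty, filter_empty, sum_empty]
    positivity
  -- the total of the singular series
  have hStot : (1 - 4 * E) * V' ≤ ∑ a ∈ Om'.filter I, S a := by
    have h1 : ∑ a ∈ Om.filter I, S a ≤ ∑ a ∈ Om'.filter I, S a := by
      apply sum_le_sum_of_subset_of_nonneg hsub
      intro a ha _
      rw [mem_filter] at ha
      exact hS0 a ha.1 ha.2
    have h2 : (1 - E) * ∑ a ∈ Om.filter I, Sz a ≤ ∑ a ∈ Om.filter I, S a := by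
      rw [mul_sum]
      apply sum_le_sum
      intro a ha
      rw [mem_filter] at ha
      exact hS1 a (hOm ha.1) ha.2
    have h3 : ∑ a ∈ Om.filter (fun a => ¬ I a), Sz a ≤ E * V := by
      calc ∑ a ∈ Om.filter (fun a => ¬ I a), Sz a ≤ ∑ a ∈ Om.filter (fun a => ¬ I a), Z := by
            apply sum_le_sum
            intro a ha
            exact hSzZ a (hOm (mem_filter.1 ha).1)
        _ = ((Om.filter (fun a => ¬ I a)).card : ℝ) * Z := by rw [sum_const, nsmul_eq_mul]
        _ ≤ κ * V * Z := mul_le_mul_of_nonneg_right hnI hZ0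
        _ = Z * κ * V := by ring
        _ ≤ E * V := mul_le_mul_of_nonneg_right hZk hV0
    have h4 : ∑ a ∈ Om.filter I, Sz a + ∑ a ∈ Om.filter (fun a => ¬ I a), Sz a = ∑ a ∈ Om, Sz a :=
      sum_filter_add_sum_filter_not Om I Sz
    have h5 : (1 - 2 * E) * V ≤ ∑ a ∈ Om.filter I, Sz a := by linarith
    have h6 : (1 - E) * V' ≤ V := by
      refine le_trans ?_ hVV'
      rw [mul_comm]
      exact mul_le_mul_of_nonneg_left (by linarith) hV'0
    have h7 : (1 - 4 * E) * V' ≤ (1 - E) * ((1 - 2 * E) * V) := by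
      have h8 : (1 - E) * ((1 - 2 * E) * ((1 - E) * V')) ≤ (1 - E) * ((1 - 2 * E) * V) :=
        mul_le_mul_of_nonneg_left (mul_le_mul_of_nonneg_left h6 (by linarith)) hE1
      refine le_trans ?_ h8
      have h9 : (1 - E) * ((1 - 2 * E) * ((1 - E) * V')) = ((1 - E) * (1 - 2 * E) * (1 - E)) * V' := by ring
      rw [h9]
      apply mul_le_mul_of_nonneg_right _ hV'0
      nlinarith only [hE, hE8, mul_nonneg hE hE, mul_nonneg (mul_nonneg hE hE) hE]
    have h8 := mul_le_mul_of_nonneg_left h5 hE1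
    linarith
  -- the deficits
  have hdef : ∑ a ∈ Om'.filter I, max 0 (S a * H - cnt a) ≤ 7 * E * (V' * H) := by
    rw [← sum_sdiff hsub]
    have h1 : ∑ a ∈ Om'.filter I \ Om.filter I, max 0 (S a * H - cnt a) ≤ 2 * E * (V' * H) := by
      have h2 : ∀ a ∈ Om'.filter I \ Om.filter I, max 0 (S a * H - cnt a) ≤ 2 * Z * H := by
        intro a ha
        rw [mem_sdiff, mem_filter] at ha
        have h3 := hS2 a ha.1.1 ha.1.2
        have h4 := hSzZ a ha.1.1
        have h5 := hSz0 a ha.1.1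
        have h6 := hcnt a ha.1.1
        have h7 : S a ≤ 2 * Z := by nlinarith only [h3, h4, h5, hE8, hE, hZ0]
        apply max_le (by positivity)
        have := mul_le_mul_of_nonneg_right h7 hH.le
        linarith
      have h3 : (((Om'.filter I \ Om.filter I).card : ℕ) : ℝ) ≤ lam * V' := by
        have h4 : Om'.filter I \ Om.filter I ⊆ Om' \ Om := by
          intro a ha
          rw [mem_sdiff, mem_filter, mem_filter] at ha
          rw [mem_sdiff]
          exact ⟨ha.1.1, fun h => ha.2 ⟨h, ha.1.2⟩⟩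
        have h5 := card_le_card h4
        have h6 : (((Om' \ Om).card : ℕ) : ℝ) = V' - V := by
          rw [card_sdiff_of_subset hOm, Nat.cast_sub (card_le_card hOm), hV, hV']
        have h7 : (((Om'.filter I \ Om.filter I).card : ℕ) : ℝ) ≤ (((Om' \ Om).card : ℕ) : ℝ) := by exact_mod_cast h5
        rw [h6] at h7
        linarith
      calc ∑ a ∈ Om'.filter I \ Om.filter I, max 0 (S a * H - cnt a) ≤ ∑ a ∈ Om'.filter I \ Om.filter I, 2 * Z * H := sum_le_sum h2
        _ = ((Om'.filter I \ Om.filter I).card : ℝ) * (2 * Z * H) := by rw [sum_const, nsmul_eq_mul]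
        _ ≤ lam * V' * (2 * Z * H) := mul_le_mul_of_nonneg_right h3 (by positivity)
        _ = (Z * lam) * (2 * (V' * H)) := by ring
        _ ≤ E * (2 * (V' * H)) := mul_le_mul_of_nonneg_right hZl (by positivity)
        _ = 2 * E * (V' * H) := by ring
    have h2 : ∑ a ∈ Om.filter I, max 0 (S a * H - cnt a) ≤ 5 * E * (V' * H) := by
      have h3 : ∀ a ∈ Om.filter I, max 0 (S a * H - cnt a) ≤
          max 0 (Sw a * H' - cnt a) + (H * (E * Sz a) + (H * |Sz a - Sw a| + E * H * Sw a)) := by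
        intro a ha
        rw [mem_filter] at ha
        have h4 := (abs_le.1 (hS a (hOm ha.1) ha.2)).2
        have h5 := le_abs_self (Sz a - Sw a)
        have h6 := hSw0 a ha.1
        have h7 := hSz0 a (hOm ha.1)
        have h8 : S a * H - cnt a ≤ (Sw a * H' - cnt a) + (H * (E * Sz a) + (H * |Sz a - Sw a| + E * H * Sw a)) := by
          have h9 := mul_le_mul_of_nonneg_left h4 hH.le
          have h10 := mul_le_mul_of_nonneg_left h5 hH.le
          have h11 := mul_le_mul_of_nonneg_left hH' h6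
          nlinarith only [h9, h10, h11]
        have h9 := le_max_right 0 (Sw a * H' - cnt a)
        have h10 := le_max_left 0 (Sw a * H' - cnt a)
        have h11 : 0 ≤ H * (E * Sz a) + (H * |Sz a - Sw a| + E * H * Sw a) := by positivity
        apply max_le <;> linarith
      have h4 : ∑ a ∈ Om.filter I, max 0 (S a * H - cnt a) ≤
          ∑ a ∈ Om, (max 0 (Sw a * H' - cnt a) + (H * (E * Sz a) + (H * |Sz a - Sw a| + E * H * Sw a))) := by
        refine (sum_le_sum h3).trans ?_
        apply sum_le_sum_of_subset_of_nonneg (filter_subset _ _)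
        intro a ha _
        have h6 := hSw0 a ha
        have h7 := hSz0 a (hOm ha)
        positivity
      refine h4.trans ?_
      rw [sum_add_distrib, sum_add_distrib, sum_add_distrib, ← mul_sum, ← mul_sum, ← mul_sum, ← mul_sum, hSwsum]
      have h5 : H * (E * ∑ a ∈ Om, Sz a) ≤ H * (E * (2 * V)) := by
        apply mul_le_mul_of_nonneg_left _ hH.le
        apply mul_le_mul_of_nonneg_left _ hE
        nlinarith only [hSzsum2, hE8, hV0]
      have h6 := mul_le_mul_of_nonneg_left hSzw hH.le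
      have h7 : 5 * E * (V * H) ≤ 5 * E * (V' * H) := by gcongr
      nlinarith only [hlow, h5, h6, h7]
    have h9 : 2 * E * (V' * H) + 5 * E * (V' * H) = 7 * E * (V' * H) := by ring
    linarith
  -- the end
  have hcntI : ∑ a ∈ Om'.filter I, cnt a ≤ (1 + E) * (V' * H) := by
    refine le_trans ?_ hup
    apply sum_le_sum_of_subset_of_nonneg (filter_subset _ _)
    intro a ha _
    exact hcnt a ha
  have habs : ∀ x : ℝ, |x| = x + 2 * max 0 (-x) := by
    intro x
    rcases le_total 0 x with h | h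
    · rw [abs_of_nonneg h, max_eq_left (by linarith)]; ring
    · rw [abs_of_nonpos h, max_eq_right (by linarith)]; ring
  rw [sum_congr rfl (fun a _ => habs (cnt a - S a * H)), sum_add_distrib, ← mul_sum, sum_sub_distrib, ← sum_mul]
  have h1 : ∑ a ∈ Om'.filter I, max 0 (-(cnt a - S a * H)) = ∑ a ∈ Om'.filter I, max 0 (S a * H - cnt a) :=
    sum_congr rfl fun a _ => by rw [neg_sub]
  rw [h1]
  have h2 := mul_le_mul_of_nonneg_right hStot hH.le
  nlinarith only [hcntI, h2, hdef]

end Pool.Agent.J4H81.HL
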