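import Pool.Agent.J4H81.HL.FB

/-!
# Hardy-Littlewood on average: the assembly (helper81)

Parts A, D, E are by helper69, parts B, C by helper57.
-/

set_option autoImplicit false

namespace Pool.Agent.J4H81.HL

open Finset
open Pool.Agent.J4H81.PT (VV)
open Pool.Agent.J4H81.PT.HW (cntY sum_lifts sum_card_VV)

theorem count_image {k y : ℕ} (a : Fin k → ℕ) : count y (univ.image a) = cntY y a := by
  unfold count cntY
  congr 1
  apply filter_congr
  intro n _
  simp only [mem_image, mem_univ, true_and, forall_exists_index, forall_apply_eq_imp_iff]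

theorem nu_image {k : ℕ} (a : Fin k → ℕ) (p : ℕ) : nu (univ.image a) p = nuV a p := by
  unfold nu nuV
  rw [image_image]
  rfl

theorem loc_image {k : ℕ} (a : Fin k → ℕ) (ha : Function.Injective a) (p : ℕ) : loc (univ.image a) p = XX a p := by
  unfold loc XX
  rw [nu_image, card_image_of_injective _ ha, card_univ, Fintype.card_fin]

theorem singZ_image {k : ℕ} (a : Fin k → ℕ) (ha : Function.Injective a) (z : ℕ) :
    singZ z (univ.image a) = ∏ p ∈ (Icc 1 z).filter Nat.Prime, XX a p := by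
  unfold singZ
  exact prod_congr rfl fun p _ => loc_image a ha p

/-- the mean of the singular series cut at `w` is one -/
theorem sum_Sw {k W T : ℕ} [NeZero W] :
    ∑ a ∈ Fintype.piFinset (fun _ : Fin k => range (W * T)),
      ((VV (fun i => ((a i : ℕ) : ZMod W))).card : ℝ) / W * ((W : ℝ) / (Nat.totient W : ℝ)) ^ k = ((W * T : ℕ) : ℝ) ^ k := by
  have hW0 : 0 < W := Nat.pos_of_ne_zero (NeZero.ne W)
  have hWr : (0 : ℝ) < W := by exact_mod_cast hW0
  have hφ : (0 : ℝ) < (Nat.totient W : ℝ) := by exact_mod_cast Nat.totient_pos.2 hW0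
  rw [sum_lifts (fun a => ((VV (fun i => ((a i : ℕ) : ZMod W))).card : ℝ) / W * ((W : ℝ) / (Nat.totient W : ℝ)) ^ k)]
  have h1 : ∀ h : Fin k → ZMod W, ∑ t ∈ Fintype.piFinset (fun _ : Fin k => range T),
      ((VV (fun i => ((((h i).val + W * t i : ℕ) : ℕ) : ZMod W))).card : ℝ) / W * ((W : ℝ) / (Nat.totient W : ℝ)) ^ k =
      (T : ℝ) ^ k * (((W : ℝ) / (Nat.totient W : ℝ)) ^ k / W) * ((VV h).card : ℝ) := by
    intro h
    have h2 : ∀ t ∈ Fintype.piFinset (fun _ : Fin k => range T),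
        ((VV (fun i => ((((h i).val + W * t i : ℕ) : ℕ) : ZMod W))).card : ℝ) / W * ((W : ℝ) / (Nat.totient W : ℝ)) ^ k =
        ((VV h).card : ℝ) / W * ((W : ℝ) / (Nat.totient W : ℝ)) ^ k := by
      intro t _
      have h3 : (fun i => ((((h i).val + W * t i : ℕ) : ℕ) : ZMod W)) = h := by
        funext i
        simp
      rw [h3]
    rw [sum_congr rfl h2, sum_const, nsmul_eq_mul, card_pi]
    ring
  rw [sum_congr rfl (fun h _ => h1 h), ← mul_sum, sum_card_VV]
  push_cast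
  rw [mul_pow, div_pow]
  field_simp

/-- the mean of the middle part of the singular series -/
theorem sum_Szw {k w z W T : ℕ} [NeZero W] (hk : 1 ≤ k) (hw : 2 * k ≤ w) (hwz : w ≤ z) (hz : 3 ≤ z) (hT : 1 ≤ T) (hW : W = primorial w)
    (hlog : 100 * (k : ℝ) * (1 + Real.log z) ^ 2 ≤ Real.log T) :
    ∑ a ∈ Fintype.piFinset (fun _ : Fin k => range (W * T)),
      |((VV (fun i => ((a i : ℕ) : ZMod W))).card : ℝ) / W * ((W : ℝ) / (Nat.totient W : ℝ)) ^ k * ∏ p ∈ (Ioc w z).filter Nat.Prime, XX a p -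
        ((VV (fun i => ((a i : ℕ) : ZMod W))).card : ℝ) / W * ((W : ℝ) / (Nat.totient W : ℝ)) ^ k| ≤
    Real.sqrt (8 * (k : ℝ) ^ 2 / (w : ℝ) ^ 2 + 18 * Real.exp (-(Real.log T / (2 * Real.log z)))) * ((W * T : ℕ) : ℝ) ^ k := by
  have hW0 : 0 < W := Nat.pos_of_ne_zero (NeZero.ne W)
  have hWr : (0 : ℝ) < W := by exact_mod_cast hW0
  have hφ : (0 : ℝ) < (Nat.totient W : ℝ) := by exact_mod_cast Nat.totient_pos.2 hW0
  have hT0 : (0 : ℝ) < T := by exact_mod_cast hT
  set ε : ℝ := 8 * (k : ℝ) ^ 2 / (w : ℝ) ^ 2 + 18 * Real.exp (-(Real.log T / (2 * Real.log z))) with hε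
  have hε0 : 0 ≤ ε := by positivity
  rw [sum_lifts (fun a => |((VV (fun i => ((a i : ℕ) : ZMod W))).card : ℝ) / W * ((W : ℝ) / (Nat.totient W : ℝ)) ^ k * ∏ p ∈ (Ioc w z).filter Nat.Prime, XX a p -
        ((VV (fun i => ((a i : ℕ) : ZMod W))).card : ℝ) / W * ((W : ℝ) / (Nat.totient W : ℝ)) ^ k|)]
  have hpW : ∀ p : ℕ, p.Prime → w < p → ¬ p ∣ W := by
    intro p hp hwp hpW
    rw [hW, primorial] at hpW
    rw [Prime.dvd_finsetProd_iff hp.prime] at hpW
    obtain ⟨q, hq, hpq⟩ := hpW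
    rw [mem_filter, mem_range] at hq
    have h1 := (Nat.prime_dvd_prime_iff_eq hp hq.2).1 hpq
    omega
  have h1 : ∀ h : Fin k → ZMod W, ∑ t ∈ Fintype.piFinset (fun _ : Fin k => range T),
      |((VV (fun i => ((((h i).val + W * t i : ℕ) : ℕ) : ZMod W))).card : ℝ) / W * ((W : ℝ) / (Nat.totient W : ℝ)) ^ k *
          ∏ p ∈ (Ioc w z).filter Nat.Prime, XX (fun i => (h i).val + W * t i) p -
        ((VV (fun i => ((((h i).val + W * t i : ℕ) : ℕ) : ZMod W))).card : ℝ) / W * ((W : ℝ) / (Nat.totient W : ℝ)) ^ k| ≤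
      Real.sqrt ε * (T : ℝ) ^ k * (((W : ℝ) / (Nat.totient W : ℝ)) ^ k / W) * ((VV h).card : ℝ) := by
    intro h
    have h2 : ∀ t ∈ Fintype.piFinset (fun _ : Fin k => range T),
        |((VV (fun i => ((((h i).val + W * t i : ℕ) : ℕ) : ZMod W))).card : ℝ) / W * ((W : ℝ) / (Nat.totient W : ℝ)) ^ k *
          ∏ p ∈ (Ioc w z).filter Nat.Prime, XX (fun i => (h i).val + W * t i) p -
        ((VV (fun i => ((((h i).val + W * t i : ℕ) : ℕ) : ZMod W))).card : ℝ) / W * ((W : ℝ) / (Nat.totient W : ℝ)) ^ k| =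
        ((VV h).card : ℝ) / W * ((W : ℝ) / (Nat.totient W : ℝ)) ^ k * |∏ p ∈ (Ioc w z).filter Nat.Prime, XX (fun i => (h i).val + W * t i) p - 1| := by
      intro t _
      have h3 : (fun i => ((((h i).val + W * t i : ℕ) : ℕ) : ZMod W)) = h := by
        funext i
        simp
      rw [h3]
      have h4 : (0 : ℝ) ≤ ((VV h).card : ℝ) / W * ((W : ℝ) / (Nat.totient W : ℝ)) ^ k := by positivity
      have h5 : ∀ P : ℝ, ((VV h).card : ℝ) / W * ((W : ℝ) / (Nat.totient W : ℝ)) ^ k * P - ((VV h).card : ℝ) / W * ((W : ℝ) / (Nat.totient W : ℝ)) ^ k =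
        ((VV h).card : ℝ) / W * ((W : ℝ) / (Nat.totient W : ℝ)) ^ k * (P - 1) := by intro P; ring
      rw [h5, abs_mul, abs_of_nonneg h4]
    rw [sum_congr rfl h2, ← mul_sum]
    have h6 := Pool.Agent.J4H69.HL.t_SING k w z T W (fun i => (h i).val) hk hw hwz hz hT hpW hlog
    have h7 : ∑ t ∈ Fintype.piFinset (fun _ : Fin k => range T), |∏ p ∈ (Ioc w z).filter Nat.Prime, XX (fun i => (h i).val + W * t i) p - 1| ≤
        Real.sqrt ε * (T : ℝ) ^ k := by
      have h8 := sq_sum_le_card_mul_sum_sq (s := Fintype.piFinset (fun _ : Fin k => range T))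
        (f := fun t => |∏ p ∈ (Ioc w z).filter Nat.Prime, XX (fun i => (h i).val + W * t i) p - 1|)
      simp only [sq_abs] at h8
      rw [card_pi] at h8
      apply Real.le_sqrt_of_sq_le (h8.trans (mul_le_mul_of_nonneg_left h6 (by positivity))) |>.trans
      rw [show (T : ℝ) ^ k * (ε * (T : ℝ) ^ k) = ε * ((T : ℝ) ^ k) ^ 2 by ring, Real.sqrt_mul hε0, Real.sqrt_sq (by positivity)]
    calc ((VV h).card : ℝ) / W * ((W : ℝ) / (Nat.totient W : ℝ)) ^ k *
          ∑ t ∈ Fintype.piFinset (fun _ : Fin k => range T), |∏ p ∈ (Ioc w z).filter Nat.Prime, XX (fun i => (h i).val + W * t i) p - 1| ≤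
          ((VV h).card : ℝ) / W * ((W : ℝ) / (Nat.totient W : ℝ)) ^ k * (Real.sqrt ε * (T : ℝ) ^ k) :=
          mul_le_mul_of_nonneg_left h7 (by positivity)
      _ = _ := by ring
  refine (sum_le_sum fun h _ => h1 h).trans ?_
  rw [← mul_sum, sum_card_VV]
  push_cast
  rw [mul_pow, div_pow]
  apply le_of_eq
  field_simp

/-- the assembly -/
theorem core_inst {k w z y T W : ℕ} [NeZero W] {E M X : ℝ} (hk : 1 ≤ k) (hW : W = primorial w) (hT : T = (y + 1) / W)
    (hw : 2 * k ≤ w) (hwz : w ≤ z) (hz : 3 ≤ z) (hT1 : 1 ≤ T) (hlog : 100 * (k : ℝ) * (1 + Real.log z) ^ 2 ≤ Real.log T)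
    (hy : 3 ≤ y) (hE : 0 ≤ E) (hE8 : E ≤ 1 / 8)
    (hEa : 4 * (k : ℝ) ^ 2 * (1 + Real.log y) / z ≤ E)
    (hEb : Real.sqrt (8 * (k : ℝ) ^ 2 / (w : ℝ) ^ 2 + 18 * Real.exp (-(Real.log T / (2 * Real.log z)))) ≤ E)
    (hEc : (1 - E) * (y / Real.log y ^ k) ≤ M / Real.log (2 * (y + 1) : ℕ) ^ k) (hM0 : 0 ≤ M) (hM : M ≤ y)
    (hEd : ∑ a ∈ Fintype.piFinset (fun _ : Fin k => range (W * T)),
        max 0 (((VV (fun i => ((a i : ℕ) : ZMod W))).card : ℝ) / W * ((W : ℝ) / (Nat.totient W : ℝ)) ^ k * (M / Real.log (2 * (y + 1) : ℕ) ^ k) - cntY y a) ≤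
      E * (((W * T : ℕ) : ℝ) ^ k * (M / Real.log (2 * (y + 1) : ℕ) ^ k)))
    (hEe : Real.exp (2 * k * (1 + Real.log z)) * ((k : ℝ) ^ 2 / (W * T : ℕ)) ≤ E)
    (hEf : Real.exp (2 * k * (1 + Real.log z)) * (k * (W / (y + 1 : ℕ))) ≤ E)
    (hX : ∀ n ≤ y, (((range (y + 1)).filter (fun a => (n + a).Prime)).card : ℝ) ≤ X)
    (hEg : y * X ^ k ≤ (1 + E) * (((y + 1 : ℕ) : ℝ) ^ k * (y / Real.log y ^ k))) :
    ∑ A ∈ (range (y + 1)).powersetCard k, |(count y A : ℝ) - sing A * (y / Real.log y ^ k)| ≤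
      38 * E * (((y + 1).choose k : ℝ) * (y / Real.log y ^ k)) := by
  classical
  have hW0 : 0 < W := Nat.pos_of_ne_zero (NeZero.ne W)
  have hWr : (0 : ℝ) < W := by exact_mod_cast hW0
  have hWT : W * T ≤ y + 1 := by rw [hT]; exact Nat.mul_div_le _ _
  have hWT2 : y + 1 < W * T + W := by rw [hT]; exact Nat.lt_mul_div_succ (y + 1) hW0
  have hWT0 : 0 < W * T := Nat.mul_pos hW0 hT1
  have hWTr : (0 : ℝ) < (W * T : ℕ) := by exact_mod_cast hWT0
  have hWTyr : ((W * T : ℕ) : ℝ) ≤ ((y + 1 : ℕ) : ℝ) := by exact_mod_cast hWT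
  have hyr : (3 : ℝ) ≤ y := by exact_mod_cast hy
  have hy1r : (0 : ℝ) < ((y + 1 : ℕ) : ℝ) := by positivity
  have hly : 1 ≤ Real.log y := by
    rw [Real.le_log_iff_exp_le (by linarith)]
    have := Real.exp_one_lt_d9
    linarith
  have hly0 : 0 < Real.log y := by linarith
  have hH0 : (0 : ℝ) < y / Real.log y ^ k := by positivity
  have hly2 : Real.log y ≤ Real.log (2 * (y + 1) : ℕ) := by
    apply Real.log_le_log (by linarith)
    push_cast
    linarith
  have hzr : (3 : ℝ) ≤ z := by exact_mod_cast hz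
  have hlz : 0 ≤ Real.log z := Real.log_nonneg (by linarith)
  have hk1 : (1 : ℝ) ≤ k := by exact_mod_cast hk
  set Z : ℝ := Real.exp (2 * k * (1 + Real.log z)) with hZ
  have hZ1 : 1 ≤ Z := Real.one_le_exp (by positivity)
  -- k ^ 2 is small
  have hk2 : (k : ℝ) ^ 2 / (W * T : ℕ) ≤ 1 / 8 := by
    have h1 : (k : ℝ) ^ 2 / (W * T : ℕ) ≤ Z * ((k : ℝ) ^ 2 / (W * T : ℕ)) := le_mul_of_one_le_left (by positivity) hZ1
    linarith
  have hk2' : (k : ℝ) ^ 2 ≤ (W * T : ℕ) / 8 := by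
    rw [div_le_iff₀ hWTr] at hk2
    linarith
  have hkk2 : (k : ℝ) ≤ (k : ℝ) ^ 2 := by nlinarith only [hk1]
  have hkN : k ≤ W * T := by
    have : (k : ℝ) ≤ (W * T : ℕ) := by linarith
    exact_mod_cast this
  have hky : k ≤ y + 1 := hkN.trans hWT
  have hchoose : ((y + 1 : ℕ) : ℝ) ^ k ≤ 2 * (((y + 1).choose k : ℝ) * k.factorial) := by
    have h1 := inj_ge (Nat.succ_pos y) hky
    have h2 : (k : ℝ) ^ 2 / (y + 1 : ℕ) ≤ 1 / 8 := by
      rw [div_le_iff₀ hy1r]
      linarith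
    have h3 : ((y + 1 : ℕ) : ℝ) ^ k * (1 / 2) ≤ ((y + 1 : ℕ) : ℝ) ^ k * (1 - (k : ℝ) ^ 2 / (y + 1 : ℕ)) :=
      mul_le_mul_of_nonneg_left (by linarith) (by positivity)
    have h4 := h3.trans h1
    linarith
  -- the abstract inequality
  have hmain := l1_abs (Fintype.piFinset (fun _ : Fin k => range (W * T))) (Fintype.piFinset (fun _ : Fin k => range (y + 1)))
    (fun a => Function.Injective a) ?_ (fun a => (cntY y a : ℝ)) (fun a => sing (univ.image a))
    (fun a => ∏ p ∈ (Icc 1 z).filter Nat.Prime, XX a p)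
    (fun a => ((VV (fun i => ((a i : ℕ) : ZMod W))).card : ℝ) / W * ((W : ℝ) / (Nat.totient W : ℝ)) ^ k)
    (H := y / Real.log y ^ k) (H' := M / Real.log (2 * (y + 1) : ℕ) ^ k) (V := ((W * T : ℕ) : ℝ) ^ k) (V' := ((y + 1 : ℕ) : ℝ) ^ k) (E := E)
    (Z := Z) (κ := (k : ℝ) ^ 2 / (W * T : ℕ)) (lam := k * (W / (y + 1 : ℕ)))
    hH0 hEc ?_ hE hE8 ?_ ?_ ?_ ?_ ?_ (card_pi _ _) (card_pi _ _) ?_ ?_ ?_ hEf sum_Sw ?_ ?_ (noninj_le hWT0 hkN) hEe ?_
  · have h1 := Pool.Agent.J4H69.HL.t_SUB (range (y + 1)) k (fun A => |(count y A : ℝ) - sing A * (y / Real.log y ^ k)|)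
    have h2 : ∑ a ∈ (Fintype.piFinset (fun _ : Fin k => range (y + 1))).filter (fun a => Function.Injective a),
        |(count y (univ.image a) : ℝ) - sing (univ.image a) * (y / Real.log y ^ k)| =
        ∑ a ∈ (Fintype.piFinset (fun _ : Fin k => range (y + 1))).filter (fun a => Function.Injective a),
        |(cntY y a : ℝ) - sing (univ.image a) * (y / Real.log y ^ k)| :=
      sum_congr rfl fun a _ => by rw [count_image]
    rw [h2] at h1
    rw [← h1] at hmain
    have hf : (0 : ℝ) < k.factorial := by exact_mod_cast Nat.factorial_pos k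
    have h3 : 19 * E * (((y + 1 : ℕ) : ℝ) ^ k * (y / Real.log y ^ k)) ≤
        38 * E * (((y + 1).choose k : ℝ) * (y / Real.log y ^ k)) * k.factorial := by
      have h4 := mul_le_mul_of_nonneg_left hchoose (show 0 ≤ 19 * E * (y / Real.log y ^ k) by positivity)
      calc 19 * E * (((y + 1 : ℕ) : ℝ) ^ k * (y / Real.log y ^ k)) = 19 * E * (y / Real.log y ^ k) * ((y + 1 : ℕ) : ℝ) ^ k := by ring
        _ ≤ _ := h4
        _ = _ := by ring
    have h4 := hmain.trans h3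
    exact le_of_mul_le_mul_right h4 hf
  · intro a ha
    rw [Fintype.mem_piFinset] at ha ⊢
    intro i
    have := mem_range.1 (ha i)
    rw [mem_range]
    omega
  · -- H' ≤ H
    apply div_le_div₀ (by linarith) hM (by positivity)
    exact pow_le_pow_left₀ hly0.le hly2 k
  · intro a _
    exact Nat.cast_nonneg _
  · intro a _
    positivity
  · intro a _
    exact prod_nonneg fun p hp => XX_nonneg a (mem_filter.1 hp).2
  · intro a _
    exact prod_XX_le a z (by omega)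
  · intro a ha hinj
    rw [Fintype.mem_piFinset] at ha
    have h1 := Pool.Agent.J4H57.HL.t_TAIL y z (univ.image a) (by omega) hz ?_ ?_ ?_
    · rw [singZ_image a hinj z] at h1
      rw [card_image_of_injective _ hinj, card_univ, Fintype.card_fin] at h1
      refine h1.trans (mul_le_mul_of_nonneg_right hEa ?_)
      exact prod_nonneg fun p hp => XX_nonneg a (mem_filter.1 hp).2
    · intro x hx
      rw [mem_image] at hx
      obtain ⟨i, _, rfl⟩ := hx
      exact ha i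
    · rw [card_image_of_injective _ hinj, card_univ, Fintype.card_fin]
      exact hk
    · rw [card_image_of_injective _ hinj, card_univ, Fintype.card_fin]
      have h2 : 4 * (k : ℝ) ^ 2 * (1 + Real.log y) / z ≤ 1 / 8 := hEa.trans hE8
      rw [div_le_iff₀ (by linarith)] at h2
      have h3 : 0 ≤ 2 * (k : ℝ) ^ 2 * (1 + Real.log y) := by positivity
      linarith
  · -- V' (1 - lam) ≤ V
    have h1 := pow_diff (x := ((y + 1 : ℕ) : ℝ)) (z := ((W * T : ℕ) : ℝ)) (Nat.cast_nonneg _) hy1r hWTyr k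
    refine le_trans ?_ h1
    apply mul_le_mul_of_nonneg_left _ (by positivity)
    have h2 : ((y + 1 : ℕ) : ℝ) - ((W * T : ℕ) : ℝ) ≤ W := by
      have : ((y + 1 : ℕ) : ℝ) < ((W * T + W : ℕ) : ℝ) := by exact_mod_cast hWT2
      push_cast at this ⊢
      linarith
    have h3 : (((y + 1 : ℕ) : ℝ) - ((W * T : ℕ) : ℝ)) / ((y + 1 : ℕ) : ℝ) ≤ W / ((y + 1 : ℕ) : ℝ) := div_le_div_of_nonneg_right h2 hy1r.le
    have h4 := mul_le_mul_of_nonneg_left h3 (Nat.cast_nonneg k : (0 : ℝ) ≤ k)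
    linarith
  · have h1 : (k : ℝ) * (W / (y + 1 : ℕ)) ≤ Z * (k * (W / (y + 1 : ℕ))) := le_mul_of_one_le_left (by positivity) hZ1
    linarith
  · positivity
  · -- the middle part of the singular series
    have h1 := sum_Szw (k := k) (w := w) (z := z) (W := W) (T := T) hk hw hwz hz hT1 hW hlog
    have h2 : ∀ a ∈ Fintype.piFinset (fun _ : Fin k => range (W * T)),
        |∏ p ∈ (Icc 1 z).filter Nat.Prime, XX a p - ((VV (fun i => ((a i : ℕ) : ZMod W))).card : ℝ) / W * ((W : ℝ) / (Nat.totient W : ℝ)) ^ k| =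
        |((VV (fun i => ((a i : ℕ) : ZMod W))).card : ℝ) / W * ((W : ℝ) / (Nat.totient W : ℝ)) ^ k * ∏ p ∈ (Ioc w z).filter Nat.Prime, XX a p -
        ((VV (fun i => ((a i : ℕ) : ZMod W))).card : ℝ) / W * ((W : ℝ) / (Nat.totient W : ℝ)) ^ k| := by
      intro a _
      have h3 := Pool.Agent.J4H69.HL.t_VV k w W a hW
      have h4 : ∏ p ∈ (Icc 1 z).filter Nat.Prime, XX a p =
          (∏ p ∈ (Icc 1 w).filter Nat.Prime, XX a p) * ∏ p ∈ (Ioc w z).filter Nat.Prime, XX a p := by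
        rw [← prod_union]
        · apply prod_congr _ (fun _ _ => rfl)
          ext p
          simp only [mem_union, mem_filter, mem_Icc, mem_Ioc]
          constructor
          · rintro ⟨⟨h5, h6⟩, h7⟩
            rcases le_or_gt p w with h8 | h8
            · exact Or.inl ⟨⟨h5, h8⟩, h7⟩
            · exact Or.inr ⟨⟨h8, h6⟩, h7⟩
          · rintro (⟨⟨h5, h6⟩, h7⟩ | ⟨⟨h5, h6⟩, h7⟩)
            · exact ⟨⟨h5, h6.trans hwz⟩, h7⟩
            · exact ⟨⟨by omega, h6⟩, h7⟩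
        · rw [disjoint_left]
          intro p hp hp'
          rw [mem_filter, mem_Icc] at hp
          rw [mem_filter, mem_Ioc] at hp'
          omega
      rw [h4, h3]
    rw [sum_congr rfl h2]
    exact h1.trans (mul_le_mul_of_nonneg_right hEb (by positivity))
  · -- the lower bound
    refine hEd.trans ?_
    apply mul_le_mul_of_nonneg_left _ hE
    apply mul_le_mul_of_nonneg_left _ (by positivity)
    apply div_le_div₀ (by linarith) hM (by positivity)
    exact pow_le_pow_left₀ hly0.le hly2 k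
  · exact (count_upper hX).trans hEg

end Pool.Agent.J4H81.HL
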