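import Pool.Agent.J4H81.HL.LO

/-!
# Hardy-Littlewood on average: from the classes and blocks to the vectors (helper81)
-/

set_option autoImplicit false

namespace Pool.Agent.J4H81.PT.HW

open Finset
open Pool.Agent.J4H81.PT

/-- sums over vectors in terms of residues and lifts -/
theorem sum_lifts {k W T : ℕ} [NeZero W] (G : (Fin k → ℕ) → ℝ) :
    ∑ a ∈ Fintype.piFinset (fun _ : Fin k => range (W * T)), G a =
      ∑ h : Fin k → ZMod W, ∑ t ∈ Fintype.piFinset (fun _ : Fin k => range T), G (fun i => (h i).val + W * t i) := by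
  classical
  have hW0 : 0 < W := Nat.pos_of_ne_zero (NeZero.ne W)
  rw [← sum_product']
  symm
  refine sum_bij (fun x _ => fun i => (x.1 i).val + W * x.2 i) ?_ ?_ ?_ ?_
  · rintro ⟨h, t⟩ hx
    rw [mem_product, Fintype.mem_piFinset] at hx
    rw [Fintype.mem_piFinset]
    intro i
    have h1 := ZMod.val_lt (h i)
    have h2 := mem_range.1 (hx.2 i)
    have h3 : W * (t i + 1) ≤ W * T := Nat.mul_le_mul_left _ h2
    rw [mul_add, mul_one] at h3
    simp only
    rw [mem_range]
    omega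
  · rintro ⟨h, t⟩ hx ⟨h', t'⟩ hx' heq
    have key : ∀ i, h i = h' i ∧ t i = t' i := by
      intro i
      have h1 := congrFun heq i
      simp only at h1
      have h2 : (h i).val = (h' i).val := by
        have := congrArg (· % W) h1
        simpa [Nat.add_mul_mod_self_left, Nat.mod_eq_of_lt (ZMod.val_lt (h i)), Nat.mod_eq_of_lt (ZMod.val_lt (h' i))] using this
      have h3 : W * t i = W * t' i := by omega
      exact ⟨ZMod.val_injective W h2, Nat.eq_of_mul_eq_mul_left hW0 h3⟩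
    exact Prod.ext (funext fun i => (key i).1) (funext fun i => (key i).2)
  · intro a ha
    rw [Fintype.mem_piFinset] at ha
    refine ⟨(fun i => ((a i : ℕ) : ZMod W), fun i => a i / W), ?_, ?_⟩
    · rw [mem_product, Fintype.mem_piFinset]
      refine ⟨mem_univ _, fun i => ?_⟩
      rw [mem_range]
      exact Nat.div_lt_of_lt_mul (mem_range.1 (ha i))
    · funext i
      simp only
      rw [ZMod.val_natCast]
      exact Nat.mod_add_div _ _
  · rintro ⟨h, t⟩ _
    rfl

/-- the number of the `1 ≤ n ≤ y` for which all `n + a i` are prime -/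
def cntY {k : ℕ} (y : ℕ) (a : Fin k → ℕ) : ℕ := ((Icc 1 y).filter (fun n => ∀ i, (n + a i).Prime)).card

/-- the solutions in the blocks are different solutions -/
theorem cnt_le {k W T J U y : ℕ} [NeZero W] (hWT : W * T ≤ y + 1) (hJ : J * U + 1 ≤ T) (h : Fin k → ZMod W) (t : Fin k → ℕ) :
    ∑ j ∈ range J, ∑ c ∈ VV h, cnt (j * U) U h c t ≤ cntY y (fun i => (h i).val + W * t i) := by
  classical
  have hW0 : 0 < W := Nat.pos_of_ne_zero (NeZero.ne W)
  unfold cnt cntY
  have h1 : ∑ j ∈ range J, ∑ c ∈ VV h, ((range U).filter (fun u => ∀ i, (c.val + W * (j * U + u + 1) + ((h i).val + W * t i)).Prime)).card =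
      (((range J ×ˢ VV h) ×ˢ range U).filter (fun x : (ℕ × ZMod W) × ℕ => ∀ i, (x.1.2.val + W * (x.1.1 * U + x.2 + 1) + ((h i).val + W * t i)).Prime)).card := by
    rw [card_filter, sum_product, sum_product]
    refine sum_congr rfl fun j _ => sum_congr rfl fun c _ => ?_
    rw [card_filter]
  rw [h1]
  refine card_le_card_of_injOn (fun x => x.1.2.val + W * (x.1.1 * U + x.2 + 1)) ?_ ?_
  · rintro ⟨⟨j, c⟩, u⟩ hx
    rw [mem_coe, mem_filter, mem_product, mem_product, mem_range, mem_range] at hx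
    obtain ⟨⟨⟨hj, _⟩, hu⟩, hp⟩ := hx
    simp only at hj hu hp ⊢
    rw [mem_coe, mem_filter, mem_Icc]
    refine ⟨⟨?_, ?_⟩, fun i => hp i⟩
    · have : W * 1 ≤ W * (j * U + u + 1) := Nat.mul_le_mul_left _ (by omega)
      omega
    · have h2 := ZMod.val_lt c
      have h3 : (j + 1) * U ≤ J * U := Nat.mul_le_mul_right _ hj
      have h4 : (j + 1) * U = j * U + U := by ring
      have h5 : W * (j * U + u + 1 + 1) ≤ W * T := Nat.mul_le_mul_left _ (by omega)
      have h6 : W * (j * U + u + 1 + 1) = W * (j * U + u + 1) + W := by ring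
      omega
  · rintro ⟨⟨j, c⟩, u⟩ hx ⟨⟨j', c'⟩, u'⟩ hx' heq
    rw [mem_coe, mem_filter, mem_product, mem_product, mem_range, mem_range] at hx hx'
    obtain ⟨⟨⟨hj, _⟩, hu⟩, _⟩ := hx
    obtain ⟨⟨⟨hj', _⟩, hu'⟩, _⟩ := hx'
    simp only at hj hu hj' hu' heq
    have h2 : c.val = c'.val := by
      have := congrArg (· % W) heq
      simpa [Nat.add_mul_mod_self_left, Nat.mod_eq_of_lt (ZMod.val_lt c), Nat.mod_eq_of_lt (ZMod.val_lt c')] using this
    have h3 : W * (j * U + u + 1) = W * (j' * U + u' + 1) := by omega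
    have h4 := Nat.eq_of_mul_eq_mul_left hW0 h3
    have h5 : j * U + u = j' * U + u' := by omega
    have hU0 : 0 < U := by omega
    have h6 : u = u' := by
      have := congrArg (· % U) h5
      simpa [Nat.mul_add_mod', Nat.mod_eq_of_lt hu, Nat.mod_eq_of_lt hu'] using this
    have h7 : j = j' := by
      rw [h6] at h5
      exact Nat.eq_of_mul_eq_mul_right hU0 (by omega)
    rw [h7, ZMod.val_injective W h2, h6]

/-- the mean deficit over all vectors -/
theorem low {k W T J U y : ℕ} [NeZero W] (hWT : W * T ≤ y + 1) (hJ : J * U + 1 ≤ T) {B₀ E : ℝ} (hB₀ : 0 ≤ B₀)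
    (hblock : ∀ j < J, ∑ h : Fin k → ZMod W, ∑ c ∈ VV h, ∑ t ∈ Fintype.piFinset (fun _ : Fin k => range T),
      max 0 ((U : ℝ) - B₀ ^ k * cnt (j * U) U h c t) ≤ E) :
    ∑ a ∈ Fintype.piFinset (fun _ : Fin k => range (W * T)),
      max 0 (((VV (fun i => ((a i : ℕ) : ZMod W))).card : ℝ) * (J * U) - B₀ ^ k * cntY y a) ≤ J * E := by
  classical
  rw [sum_lifts]
  have hcast : ∀ (h : Fin k → ZMod W) (t : Fin k → ℕ), (fun i => (((h i).val + W * t i : ℕ) : ZMod W)) = h := by
    intro h t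
    funext i
    push_cast
    rw [ZMod.natCast_zmod_val, ZMod.natCast_self, zero_mul, add_zero]
  have h1 : ∀ (h : Fin k → ZMod W) (t : Fin k → ℕ),
      max 0 (((VV (fun i => ((((h i).val + W * t i) : ℕ) : ZMod W))).card : ℝ) * (J * U) - B₀ ^ k * cntY y (fun i => (h i).val + W * t i)) ≤
      ∑ j ∈ range J, ∑ c ∈ VV h, max 0 ((U : ℝ) - B₀ ^ k * cnt (j * U) U h c t) := by
    intro h t
    rw [hcast]
    apply max_le
    · exact sum_nonneg fun j _ => sum_nonneg fun c _ => le_max_left _ _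
    · have h2 : ((∑ j ∈ range J, ∑ c ∈ VV h, cnt (j * U) U h c t : ℕ) : ℝ) ≤ cntY y (fun i => (h i).val + W * t i) := by
        exact_mod_cast cnt_le hWT hJ h t
      have h3 : ((VV h).card : ℝ) * (J * U) - B₀ ^ k * ((∑ j ∈ range J, ∑ c ∈ VV h, cnt (j * U) U h c t : ℕ) : ℝ) =
          ∑ j ∈ range J, ∑ c ∈ VV h, ((U : ℝ) - B₀ ^ k * cnt (j * U) U h c t) := by
        push_cast
        simp only [sum_sub_distrib, sum_const, card_range, nsmul_eq_mul, mul_sum]
        ring
      calc _ ≤ ((VV h).card : ℝ) * (J * U) - B₀ ^ k * ((∑ j ∈ range J, ∑ c ∈ VV h, cnt (j * U) U h c t : ℕ) : ℝ) := by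
            have := mul_le_mul_of_nonneg_left h2 (show 0 ≤ B₀ ^ k by positivity)
            linarith
        _ = ∑ j ∈ range J, ∑ c ∈ VV h, ((U : ℝ) - B₀ ^ k * cnt (j * U) U h c t) := h3
        _ ≤ _ := sum_le_sum fun j _ => sum_le_sum fun c _ => le_max_right _ _
  calc _ ≤ ∑ h : Fin k → ZMod W, ∑ t ∈ Fintype.piFinset (fun _ : Fin k => range T),
        ∑ j ∈ range J, ∑ c ∈ VV h, max 0 ((U : ℝ) - B₀ ^ k * cnt (j * U) U h c t) :=
        sum_le_sum fun h _ => sum_le_sum fun t _ => h1 h t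
    _ = ∑ j ∈ range J, ∑ h : Fin k → ZMod W, ∑ c ∈ VV h, ∑ t ∈ Fintype.piFinset (fun _ : Fin k => range T),
        max 0 ((U : ℝ) - B₀ ^ k * cnt (j * U) U h c t) := by
        have e1 : ∀ h : Fin k → ZMod W, ∑ t ∈ Fintype.piFinset (fun _ : Fin k => range T),
            ∑ j ∈ range J, ∑ c ∈ VV h, max 0 ((U : ℝ) - B₀ ^ k * cnt (j * U) U h c t) =
            ∑ j ∈ range J, ∑ c ∈ VV h, ∑ t ∈ Fintype.piFinset (fun _ : Fin k => range T),
            max 0 ((U : ℝ) - B₀ ^ k * cnt (j * U) U h c t) := by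
          intro h
          rw [sum_comm]
          exact sum_congr rfl fun j _ => sum_comm
        rw [sum_congr rfl (fun h _ => e1 h), sum_comm]
    _ ≤ ∑ j ∈ range J, E := sum_le_sum fun j hj => hblock j (mem_range.1 hj)
    _ = J * E := by rw [sum_const, card_range, nsmul_eq_mul]

end Pool.Agent.J4H81.PT.HW
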