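import Pool.Agent.J4H81.HL.WN
import Pool.Agent.J4H81.HL.LP

/-!
# Hardy-Littlewood on average: the lower bound at a good scale (helper81)
-/

set_option autoImplicit false

namespace Pool.Agent.J4H81.PT.HW

open Finset Filter
open Pool.Agent.J4H81.PT
open Pool.Agent.J4H81.PT.ZF (NoZ)

/-- the mean deficit over all vectors at a good scale -/
theorem low_scale {c₀ : ℝ} (hc₀ : 0 < c₀) (hc₀1 : c₀ ≤ 1) : ∃ (c C l₀ : ℝ) (K : ℕ), 0 < c ∧ c ≤ 1 ∧ 1 ≤ C ∧ 10000 ≤ l₀ ∧
    ∀ l : ℝ, l₀ ≤ l → NoZ c₀ l → ∀ (y k T w W : ℕ) [NeZero W] (η : ℝ), w = ⌊l / 1000⌋₊ → W = primorial w → T = (y + 1) / W →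
    0 < η → η ≤ 1 / 2 → 24 / η + 2 ≤ l / 1000 → 4 * k * η ≤ 1 → (k : ℝ) * Real.log (2 * l ^ 2) ≤ l / 1000 →
    Real.exp (101 * l) ≤ y → Real.log (3 * (y + 1) : ℕ) ≤ l ^ 2 →
    ∃ M : ℝ, (1 - η) * y ≤ M ∧ M ≤ y ∧
      ∑ a ∈ Fintype.piFinset (fun _ : Fin k => range (W * T)),
        max 0 (((VV (fun i => ((a i : ℕ) : ZMod W))).card : ℝ) / W * ((W : ℝ) / (Nat.totient W : ℝ)) ^ k * (M / Real.log (2 * (y + 1) : ℕ) ^ k) - cntY y a) ≤
      (Real.sqrt (8 * k * η + 8000 * k / l + Real.exp (-(l / 100))) +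
        k * (C * l ^ K * (Real.exp (-(c * Real.log y / (2 * l))) + Real.exp (-(l / 100))))) * (((W * T : ℕ) : ℝ) ^ k * (M / Real.log (2 * (y + 1) : ℕ) ^ k)) := by
  classical
  obtain ⟨c, C₁, l₁, K, hc, hc1, hC₁, hl₁, hwin⟩ := win hc₀ hc₀1
  obtain ⟨l₂, hl₂⟩ := eventually_atTop.1 (((poly_exp (show (0 : ℝ) < 1 / 1000 by norm_num) 4 3)).and
    ((poly_exp (show (0 : ℝ) < 1 by norm_num) 4 1)))
  refine ⟨c, 2 * C₁, max l₁ l₂, K, hc, hc1, by linarith, hl₁.trans (le_max_left _ _), ?_⟩
  intro l hl hno y k T w W _ η hw hW hT hη hη2 hηl hkη hk hy hyl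
  have hll₁ : l₁ ≤ l := (le_max_left _ _).trans hl
  have hll₂ : l₂ ≤ l := (le_max_right _ _).trans hl
  have hl1e4 : 10000 ≤ l := hl₁.trans hll₁
  obtain ⟨hF1, hF2⟩ := hl₂ l hll₂
  simp only [one_mul] at hF2
  have hl0 : 0 < l := by linarith
  have hl1 : 1 ≤ l := by linarith
  have hk0 : (0 : ℝ) ≤ k := Nat.cast_nonneg _
  have hlog8 : 8 ≤ Real.log (2 * l ^ 2) := by
    rw [Real.le_log_iff_exp_le (by positivity)]
    have h1 : Real.exp 8 = Real.exp 1 ^ 8 := by rw [← Real.exp_nat_mul]; norm_num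
    have h2 : Real.exp 1 ^ 8 ≤ 3 ^ 8 := pow_le_pow_left₀ (Real.exp_pos _).le (by have := Real.exp_one_lt_d9; linarith) 8
    rw [h1]
    refine h2.trans ?_
    nlinarith only [hl1e4]
  have hk8 : (k : ℝ) ≤ l / 8000 := by
    have : (k : ℝ) * 8 ≤ k * Real.log (2 * l ^ 2) := mul_le_mul_of_nonneg_left hlog8 hk0
    linarith
  have hkl : (k : ℝ) ≤ l := by linarith
  have hηl8 : 24000 ≤ η * l := by
    have h1 : 24 / η ≤ l / 1000 := by linarith
    rw [div_le_iff₀ hη] at h1
    linarith
  -- the parameters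
  have hw1 : (w : ℝ) ≤ l / 1000 := by rw [hw]; exact Nat.floor_le (by positivity)
  have hw2 : l / 1000 < w + 1 := by rw [hw]; exact Nat.lt_floor_add_one _
  have hwpos : (0 : ℝ) < w := by linarith
  have hWpos : 0 < W := by rw [hW]; exact primorial_pos w
  have hW0 : (0 : ℝ) < W := by exact_mod_cast hWpos
  have hW1 : (1 : ℝ) ≤ W := by exact_mod_cast hWpos
  have hφpos : 0 < Nat.totient W := Nat.totient_pos.2 hWpos
  have hφ0 : (0 : ℝ) < Nat.totient W := by exact_mod_cast hφpos
  have hφW : (Nat.totient W : ℝ) ≤ W := by exact_mod_cast Nat.totient_le W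
  have hWl : (W : ℝ) ≤ Real.exp (l / 700) := by
    have h1 : (W : ℝ) ≤ (4 : ℝ) ^ w := by rw [hW]; exact_mod_cast primorial_le_four_pow w
    have h2 : (4 : ℝ) ^ w = Real.exp (w * (2 * Real.log 2)) := by
      rw [Real.exp_nat_mul, show 2 * Real.log 2 = Real.log (2 ^ 2) by rw [Real.log_pow]; norm_num, Real.exp_log (by norm_num)]
      norm_num
    rw [h2] at h1
    refine h1.trans (Real.exp_le_exp.2 ?_)
    have h3 := Real.log_two_lt_d9
    have h4 : (w : ℝ) * (2 * Real.log 2) ≤ (l / 1000) * (2 * 0.6931471808) := by gcongr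
    linarith
  have hy0 : (0 : ℝ) < y := lt_of_lt_of_le (Real.exp_pos _) hy
  have hmod : W * T + (y + 1) % W = y + 1 := by rw [hT]; exact Nat.div_add_mod (y + 1) W
  have hmodlt : (y + 1) % W < W := Nat.mod_lt _ hWpos
  have hWT : W * T ≤ y + 1 := by omega
  have hWTr : (W : ℝ) * T ≤ y + 1 := by exact_mod_cast hWT
  have hWT2 : (y : ℝ) + 1 ≤ W * T + W := by exact_mod_cast (by omega : y + 1 ≤ W * T + W)
  -- T is large
  have he1 : (2 : ℝ) ≤ Real.exp (l / 50) := by
    have := Real.add_one_le_exp (l / 50)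
    linarith
  have hTl : Real.exp (100 * l) ≤ T := by
    by_contra hcon
    push Not at hcon
    have h1 : (W : ℝ) * T ≤ Real.exp (l / 700) * Real.exp (100 * l) := mul_le_mul hWl hcon.le (Nat.cast_nonneg _) (Real.exp_pos _).le
    have h2 : Real.exp (l / 700) * Real.exp (100 * l) + Real.exp (l / 700) < Real.exp (101 * l) := by
      have h3 : Real.exp (101 * l) = Real.exp (l / 50) * Real.exp (101 * l - l / 50) := by rw [← Real.exp_add]; congr 1; ring
      have h4 : Real.exp (l / 700) * Real.exp (100 * l) ≤ Real.exp (101 * l - l / 50 - l / 50) := by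
        rw [← Real.exp_add]; exact Real.exp_le_exp.2 (by linarith)
      have h5 : Real.exp (l / 700) ≤ Real.exp (101 * l - l / 50 - l / 50) := Real.exp_le_exp.2 (by linarith)
      have h6 : Real.exp (101 * l - l / 50) = Real.exp (l / 50) * Real.exp (101 * l - l / 50 - l / 50) := by rw [← Real.exp_add]; congr 1; ring
      have h7 := Real.exp_pos (101 * l - l / 50 - l / 50)
      rw [h3, h6]
      nlinarith only [h4, h5, h7, he1, mul_pos h7 h7, mul_le_mul_of_nonneg_right he1 h7.le, mul_le_mul_of_nonneg_left (mul_le_mul_of_nonneg_right he1 h7.le) (show (0:ℝ) ≤ Real.exp (l / 50) by positivity)]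
    linarith
  have hT0 : (0 : ℝ) < T := lt_of_lt_of_le (Real.exp_pos _) hTl
  have hTpos : 0 < T := by exact_mod_cast hT0
  -- the logarithm
  set L : ℝ := Real.log (2 * (y + 1) : ℕ) with hL
  have hL2 : L ≤ l ^ 2 := (log_nat_mono (by omega : 2 * (y + 1) ≤ 3 * (y + 1))).trans hyl
  have hL1 : 101 * l ≤ L := by
    rw [hL, ← Real.log_exp (101 * l)]
    apply Real.log_le_log (Real.exp_pos _)
    refine hy.trans ?_
    exact_mod_cast (by omega : y ≤ 2 * (y + 1))
  have hL0 : 0 < L := by linarith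
  set B₀ : ℝ := (Nat.totient W : ℝ) / W * L with hB₀
  have hB₀0 : 0 < B₀ := by positivity
  have hφW1 : (Nat.totient W : ℝ) / W ≤ 1 := (div_le_one hW0).2 hφW
  have hB₀L : B₀ ≤ L := mul_le_of_le_one_left hL0.le hφW1
  -- U
  set U : ℕ := ⌊η * T / (2 * L)⌋₊ with hU
  have hl4T : l ^ 4 ≤ T := by
    have h1 : Real.exp l ≤ Real.exp (100 * l) := Real.exp_le_exp.2 (by linarith)
    linarith
  have hbig : 4 * l ^ 2 ≤ η * T := by
    have h2 : η * l ^ 4 ≤ η * T := mul_le_mul_of_nonneg_left hl4T hη.le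
    have h3 : η * l ^ 4 = (η * l) * (l * l ^ 2) := by ring
    have h4 : 1 * l ^ 2 ≤ l * l ^ 2 := mul_le_mul_of_nonneg_right hl1 (sq_nonneg l)
    have h5 : 24000 * (l * l ^ 2) ≤ (η * l) * (l * l ^ 2) := mul_le_mul_of_nonneg_right hηl8 (by positivity)
    linarith [sq_nonneg l]
  have hq : 2 ≤ η * T / (2 * L) := by
    rw [le_div_iff₀ (by positivity)]
    linarith
  have hU1 : (U : ℝ) ≤ η * T / (2 * L) := by
    rw [hU]; exact Nat.floor_le (by positivity)
  have hU2 : η * T / (2 * L) < U + 1 := by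
    rw [hU]; exact Nat.lt_floor_add_one _
  have hU3 : (1 : ℝ) < U := by linarith
  have hUpos' : (0 : ℝ) < U := by linarith
  have hUpos : 0 < U := by exact_mod_cast hUpos'
  have hU4 : T / l ^ 3 ≤ (U : ℝ) := by
    have h1 : η * T / (4 * L) ≤ U := by
      have : η * T / (4 * L) = η * T / (2 * L) / 2 := by field_simp; norm_num
      rw [this]
      linarith
    refine le_trans ?_ h1
    rw [div_le_div_iff₀ (by positivity) (by positivity)]
    have h2 : T * (4 * L) ≤ T * (4 * l ^ 2) := by gcongr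
    have h3 : η * T * l ^ 3 = T * ((η * l) * l ^ 2) := by ring
    rw [h3]
    refine h2.trans (mul_le_mul_of_nonneg_left ?_ hT0.le)
    nlinarith only [hηl8, sq_nonneg l]
  have hUL : (U : ℝ) * (2 * L) ≤ η * T := by rwa [le_div_iff₀ (by positivity)] at hU1
  have hUB : (U + 1) * B₀ ≤ η * T := by
    have h1 : ((U : ℝ) + 1) * B₀ ≤ (U + 1) * L := mul_le_mul_of_nonneg_left hB₀L (by positivity)
    nlinarith only [h1, hUL, hbig, hL2]
  have hUT : U + 1 ≤ T := by
    have h1 : ((U : ℝ) + 1) * 1 ≤ (U + 1) * L := mul_le_mul_of_nonneg_left (by linarith) (by positivity)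
    have h2 : η * T ≤ 1 * T := mul_le_mul_of_nonneg_right (by linarith) hT0.le
    have h3 : ((U + 1 : ℕ) : ℝ) ≤ T := by
      push_cast
      nlinarith only [h1, h2, hUL, hbig, hL2]
    exact_mod_cast h3
  set J : ℕ := (T - 1) / U with hJ
  have hJU : J * U + 1 ≤ T := by
    have := Nat.div_mul_le_self (T - 1) U
    rw [← hJ] at this
    omega
  have hJU2 : (T : ℝ) ≤ J * U + U := by
    have h1 : T - 1 < U * ((T - 1) / U + 1) := Nat.lt_mul_div_succ (T - 1) hUpos
    rw [← hJ] at h1
    have h2 : U * (J + 1) = J * U + U := by ring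
    exact_mod_cast (by omega : T ≤ J * U + U)
  set M : ℝ := W * (J * U) with hM
  have hJUr : (J : ℝ) * U + 1 ≤ T := by exact_mod_cast hJU
  refine ⟨M, ?_, ?_, ?_⟩
  · -- M is almost y
    have h1 : (W : ℝ) * T ≤ W * (J * U + U) := mul_le_mul_of_nonneg_left hJU2 hW0.le
    have h2 : (W : ℝ) * U ≤ η * y / 4 := by
      have h3 : (U : ℝ) * 8 ≤ η * T := by nlinarith only [hUL, hL1, hl1e4, hUpos']
      have h4 : (W : ℝ) * (U * 8) ≤ W * (η * T) := mul_le_mul_of_nonneg_left h3 hW0.le
      have h5 : η * (W * T) ≤ η * (y + 1) := mul_le_mul_of_nonneg_left hWTr hη.le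
      have h6 : (1 : ℝ) ≤ y := by
        have : (1 : ℝ) ≤ Real.exp (101 * l) := Real.one_le_exp (by positivity)
        linarith
      have h7 : η * 1 ≤ η * y := mul_le_mul_of_nonneg_left h6 hη.le
      linarith
    have h3 : (W : ℝ) ≤ η * y / 4 := by
      have h4 : (1 : ℝ) * W ≤ W * U := by nlinarith only [hW0, hU3]
      linarith
    rw [hM]
    linarith
  · rw [hM]
    have h1 : (W : ℝ) * (J * U) ≤ W * (T - 1) := mul_le_mul_of_nonneg_left (by linarith) hW0.le
    linarith
  -- the blocks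
  set ε : ℝ := Real.sqrt (8 * k * η + 8000 * k / l + Real.exp (-(l / 100))) with hε
  set β : ℝ := C₁ * l ^ K * (Real.exp (-(c * Real.log T / (2 * l))) + Real.exp (-(l / 100))) with hβ
  have hlog3 : Real.log (3 * (W * T) : ℕ) ≤ l ^ 2 := (log_nat_mono (by omega)).trans hyl
  have hblock : ∀ j < J, ∑ h : Fin k → ZMod W, ∑ c ∈ VV h, ∑ t ∈ Fintype.piFinset (fun _ : Fin k => range T),
      max 0 ((U : ℝ) - B₀ ^ k * cnt (j * U) U h c t) ≤ (ε + k * β) * (W * (Nat.totient W : ℝ) ^ k) * (U * (T : ℝ) ^ k) := by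
    intro j hj
    have hjT : j * U ≤ T := by
      have := Nat.mul_le_mul_right U hj.le
      omega
    obtain ⟨F, B, Ex, f1, f2, f3, f4, f5, f6, f7⟩ := hwin l hll₁ hno T (j * U) w W η hw hW hη hη2 hηl hTl (by omega) hlog3
    have f2' : ∀ b s, F b s ≤ B₀ := by
      intro b s
      refine (f2 b s).trans ?_
      rw [hB₀]
      apply mul_le_mul_of_nonneg_left _ (by positivity)
      apply log_nat_mono
      have h1 : W * (j * U + T) ≤ W * (2 * T) := Nat.mul_le_mul_left _ (by omega)
      have h2 : W * (2 * T) = 2 * (W * T) := by ring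
      omega
    set M₀ : ℕ := ⌊(T : ℝ) * Real.exp (-(l / 80))⌋₊ with hM₀
    have hM₀1 : (M₀ : ℝ) ≤ T * Real.exp (-(l / 80)) := Nat.floor_le (by positivity)
    have hgood : ∀ (h : Fin k → ZMod W) (c : ZMod W), c ∈ VV h → (∀ i, c + h i ∉ B) →
        ∑ t ∈ Fintype.piFinset (fun _ : Fin k => range T), max 0 ((U : ℝ) - B₀ ^ k * cnt (j * U) U h c t) ≤ ε * (U * (T : ℝ) ^ k) := by
      intro h c hcV hcB
      have hkw : k ≤ w := by
        have : (k : ℝ) ≤ w := by linarith
        exact_mod_cast this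
      have hw1' : 1 ≤ w := by
        have : (1 : ℝ) ≤ w := by linarith
        exact_mod_cast this
      have h2kw : 2 * (k : ℝ) / w ≤ 1 / 2 := by
        rw [div_le_iff₀ hwpos]
        linarith
      have hd := block_deficit (M₀ := M₀) hTpos hUpos hUT hkw hw1' F f1 f3 f4 f2' hB₀0 hη.le (by linarith) (by linarith) hUB B Ex
        (fun b hb hbB => (f7 b hb hbB).1) (fun b hb hbB => by
          have := (f7 b hb hbB).2.1
          nlinarith only [this, hη2, hT0])
        (fun b hb hbB D hD1 hDU hDE => (f7 b hb hbB).2.2.2 D hD1 (by omega) hDE)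
        (fun b hb hbB => Nat.le_floor (f7 b hb hbB).2.2.1) h c hcV hcB
      refine hd.trans (mul_le_mul_of_nonneg_right ?_ (by positivity))
      apply Real.sqrt_le_sqrt
      have hkw2 : 4 * (k : ℝ) / w ≤ 8000 * k / l := by
        rw [div_le_div_iff₀ hwpos hl0]
        have h1 : l ≤ 2000 * w := by linarith
        have h2 : 4 * (k : ℝ) * l ≤ 4 * k * (2000 * w) := mul_le_mul_of_nonneg_left h1 (by positivity)
        linarith
      have hthird : (2 * B₀) ^ k * (1 + 2 * k * M₀) / U ≤ Real.exp (-(l / 100)) := by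
        have h1 : (2 * B₀) ^ k ≤ Real.exp (l / 1000) := by
          calc (2 * B₀) ^ k ≤ (2 * l ^ 2) ^ k := pow_le_pow_left₀ (by positivity) (by linarith) k
            _ = Real.exp (k * Real.log (2 * l ^ 2)) := by
                rw [Real.exp_nat_mul, Real.exp_log (by positivity)]
            _ ≤ Real.exp (l / 1000) := Real.exp_le_exp.2 hk
        set e : ℝ := Real.exp (-(l / 80)) with he
        have he0 : 0 < e := Real.exp_pos _
        have hTe : 1 ≤ T * e := by
          calc (1 : ℝ) ≤ Real.exp (100 * l + -(l / 80)) := Real.one_le_exp (by linarith)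
            _ = Real.exp (100 * l) * e := Real.exp_add _ _
            _ ≤ T * e := mul_le_mul_of_nonneg_right hTl he0.le
        have h2 : 1 + 2 * (k : ℝ) * M₀ ≤ 3 * l * (T * e) := by
          have h3 : 2 * (k : ℝ) * M₀ ≤ 2 * (l / 8000) * (T * e) := by gcongr
          have h4 : 1 * (T * e) ≤ l * (T * e) := mul_le_mul_of_nonneg_right hl1 (by positivity)
          linarith
        have hz : 0 ≤ 1 + 2 * (k : ℝ) * M₀ := by positivity
        calc (2 * B₀) ^ k * (1 + 2 * k * M₀) / U ≤ Real.exp (l / 1000) * (3 * l * (T * e)) / (T / l ^ 3) := by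
              apply div_le_div₀ (by positivity) _ (by positivity) hU4
              exact mul_le_mul h1 h2 hz (Real.exp_pos _).le
          _ = 3 * l ^ 4 * (Real.exp (l / 1000) * e) := by
              field_simp
          _ ≤ Real.exp (1 / 1000 * l) * (Real.exp (l / 1000) * e) := mul_le_mul_of_nonneg_right hF1 (by positivity)
          _ = Real.exp (1 / 1000 * l + (l / 1000 + -(l / 80))) := by rw [he, Real.exp_add, Real.exp_add]
          _ ≤ Real.exp (-(l / 100)) := Real.exp_le_exp.2 (by linarith)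
      linarith
    refine (block_all (Real.sqrt_nonneg _) hB₀0.le B f5 hgood).trans ?_
    apply mul_le_mul_of_nonneg_right _ (by positivity)
    apply mul_le_mul_of_nonneg_right _ (by positivity)
    have h1 : (B.card : ℝ) / Nat.totient W ≤ β := by
      rw [div_le_iff₀ hφ0]
      exact f6
    have h2 : (k : ℝ) * B.card / Nat.totient W = k * (B.card / Nat.totient W) := by ring
    rw [h2]
    have := mul_le_mul_of_nonneg_left h1 hk0
    linarith
  have hlow := low (y := y) hWT hJU hB₀0.le hblock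
  -- normalization
  have hB₀k : 0 < B₀ ^ k := by positivity
  have hterm : ∀ a : Fin k → ℕ, max 0 (((VV (fun i => ((a i : ℕ) : ZMod W))).card : ℝ) / W * ((W : ℝ) / (Nat.totient W : ℝ)) ^ k * (M / L ^ k) - cntY y a) =
      1 / B₀ ^ k * max 0 (((VV (fun i => ((a i : ℕ) : ZMod W))).card : ℝ) * (J * U) - B₀ ^ k * cntY y a) := by
    intro a
    rw [mul_max_of_nonneg _ _ (by positivity), mul_zero]
    congr 1
    rw [hB₀, hM, mul_pow, div_pow, div_pow]
    field_simp
  rw [sum_congr rfl (fun a _ => hterm a), ← mul_sum]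
  have hbeta : β ≤ 2 * C₁ * l ^ K * (Real.exp (-(c * Real.log y / (2 * l))) + Real.exp (-(l / 100))) := by
    -- log T against log y
    have h1 : Real.exp (-(c * Real.log T / (2 * l))) ≤ 2 * Real.exp (-(c * Real.log y / (2 * l))) := by
      have h2 : Real.log y ≤ Real.log T + l / 600 := by
        have h3 : (y : ℝ) ≤ T * Real.exp (l / 600) := by
          have h4 : Real.exp (l / 700) * 2 ≤ Real.exp (l / 600) := by
            have h5 : Real.exp (l / 600) = Real.exp (l / 700) * Real.exp (l / 4200) := by rw [← Real.exp_add]; congr 1; ring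
            have h6 : 2 ≤ Real.exp (l / 4200) := by
              have := Real.add_one_le_exp (l / 4200)
              linarith
            rw [h5]
            exact mul_le_mul_of_nonneg_left h6 (Real.exp_pos _).le
          have h7 : (W : ℝ) * T + W ≤ W * (2 * T) := by
            have : (1 : ℝ) ≤ T := by exact_mod_cast hTpos
            nlinarith only [this, hW0]
          have h8 : (W : ℝ) * (2 * T) ≤ Real.exp (l / 700) * (2 * T) := mul_le_mul_of_nonneg_right hWl (by positivity)
          have h9 : Real.exp (l / 700) * 2 * T ≤ Real.exp (l / 600) * T := mul_le_mul_of_nonneg_right h4 hT0.le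
          linarith
        have h4 := Real.log_le_log hy0 h3
        rwa [Real.log_mul hT0.ne' (Real.exp_pos _).ne', Real.log_exp] at h4
      have h3 : (2 : ℝ) * Real.exp (-(c * Real.log y / (2 * l))) = Real.exp (Real.log 2 + -(c * Real.log y / (2 * l))) := by
        rw [Real.exp_add, Real.exp_log (by norm_num)]
      rw [h3]
      apply Real.exp_le_exp.2
      have h4 : c * Real.log y / (2 * l) ≤ c * (Real.log T + l / 600) / (2 * l) := by gcongr
      have h5 : c * (Real.log T + l / 600) / (2 * l) = c * Real.log T / (2 * l) + c / 1200 := by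
        field_simp
        ring
      have := Real.log_two_gt_d9
      linarith
    rw [hβ]
    have h2 : 0 < Real.exp (-(l / 100)) := Real.exp_pos _
    have h3 : Real.exp (-(c * Real.log T / (2 * l))) + Real.exp (-(l / 100)) ≤ 2 * (Real.exp (-(c * Real.log y / (2 * l))) + Real.exp (-(l / 100))) := by linarith
    calc C₁ * l ^ K * (Real.exp (-(c * Real.log T / (2 * l))) + Real.exp (-(l / 100))) ≤
          C₁ * l ^ K * (2 * (Real.exp (-(c * Real.log y / (2 * l))) + Real.exp (-(l / 100)))) := by gcongr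
      _ = _ := by ring
  have hfin : 1 / B₀ ^ k * (J * ((ε + k * β) * (W * (Nat.totient W : ℝ) ^ k) * (U * (T : ℝ) ^ k))) =
      (ε + k * β) * (((W * T : ℕ) : ℝ) ^ k * (M / L ^ k)) := by
    rw [hB₀, hM]
    push_cast
    rw [mul_pow, mul_pow, div_pow]
    field_simp
  calc _ ≤ 1 / B₀ ^ k * (J * ((ε + k * β) * (W * (Nat.totient W : ℝ) ^ k) * (U * (T : ℝ) ^ k))) :=
        mul_le_mul_of_nonneg_left hlow (by positivity)
    _ = (ε + k * β) * (((W * T : ℕ) : ℝ) ^ k * (M / L ^ k)) := hfin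
    _ ≤ _ := by
        apply mul_le_mul_of_nonneg_right _ (by positivity)
        have := mul_le_mul_of_nonneg_left hbeta hk0
        linarith

end Pool.Agent.J4H81.PT.HW
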