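import Pool.Agent.J4H81.HL.BL

/-!
# Hardy-Littlewood on average: the mean deficit over all vectors (helper81)
-/

set_option autoImplicit false

namespace Pool.Agent.J4H81.PT.HW

open Finset
open Pool.Agent.J4H81.PT

open Classical in
/-- the units -/
noncomputable def UN (W : ℕ) [NeZero W] : Finset (ZMod W) := univ.filter (fun b => IsUnit b)

theorem card_UN (W : ℕ) [NeZero W] : (UN W).card = Nat.totient W := by
  classical
  unfold UN
  rw [← ZMod.card_units_eq_totient W, ← card_univ, ← card_image_of_injective univ Units.val_injective]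
  congr 1
  ext b
  simp only [mem_filter, mem_univ, true_and, mem_image]
  exact Iff.rfl

open Classical in
/-- pairs of classes -/
theorem sum_pairs {k W : ℕ} [NeZero W] (g : (Fin k → ZMod W) → ZMod W → ℝ) :
    ∑ h : Fin k → ZMod W, ∑ c ∈ VV h, g h c =
      ∑ c : ZMod W, ∑ b ∈ Fintype.piFinset (fun _ : Fin k => UN W), g (fun i => b i - c) c := by
  have h1 : ∀ h : Fin k → ZMod W, ∑ c ∈ VV h, g h c = ∑ c : ZMod W, if (∀ i, IsUnit (c + h i)) then g h c else 0 := by
    intro h
    unfold VV
    rw [sum_filter]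
  rw [sum_congr rfl (fun h _ => h1 h), sum_comm]
  refine sum_congr rfl fun c _ => ?_
  rw [← sum_filter]
  symm
  refine sum_bij (fun b _ => fun i => b i - c) ?_ ?_ ?_ ?_
  · intro b hb
    rw [Fintype.mem_piFinset] at hb
    rw [mem_filter]
    refine ⟨mem_univ _, fun i => ?_⟩
    have := hb i
    unfold UN at this
    rw [mem_filter] at this
    simpa using this.2
  · intro b _ b' _ heq
    funext i
    have := congrFun heq i
    simpa using this
  · intro h hh
    rw [mem_filter] at hh
    refine ⟨fun i => c + h i, ?_, ?_⟩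
    · rw [Fintype.mem_piFinset]
      intro i
      unfold UN
      rw [mem_filter]
      exact ⟨mem_univ _, hh.2 i⟩
    · funext i
      simp
  · intro b _
    rfl

theorem sum_card_VV (k W : ℕ) [NeZero W] : ∑ h : Fin k → ZMod W, ((VV h).card : ℝ) = W * (Nat.totient W : ℝ) ^ k := by
  classical
  have h1 := sum_pairs (k := k) (W := W) (fun _ _ => (1 : ℝ))
  have h2 : ∀ h : Fin k → ZMod W, ∑ c ∈ VV h, (1 : ℝ) = ((VV h).card : ℝ) := fun h => by simp
  rw [sum_congr rfl (fun h _ => h2 h)] at h1
  rw [h1]
  rw [sum_congr rfl (fun c _ => sum_const (1 : ℝ))]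
  rw [sum_const, Fintype.card_piFinset, prod_const, card_univ, card_univ, Fintype.card_fin, card_UN, ZMod.card]
  simp

open Classical in
/-- pairs of classes with a bad class -/
theorem bad_pairs {k W : ℕ} [NeZero W] (B : Finset (ZMod W)) (hB : ∀ b ∈ B, IsUnit b) :
    (Nat.totient W : ℝ) * ∑ h : Fin k → ZMod W, (((VV h).filter (fun c => ∃ i, c + h i ∈ B)).card : ℝ) ≤
      k * B.card * (W * (Nat.totient W : ℝ) ^ k) := by
  have h1 := sum_pairs (k := k) (W := W) (fun h c => if (∃ i, c + h i ∈ B) then (1 : ℝ) else 0)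
  have h2 : ∀ h : Fin k → ZMod W, ∑ c ∈ VV h, (if (∃ i, c + h i ∈ B) then (1 : ℝ) else 0) =
      (((VV h).filter (fun c => ∃ i, c + h i ∈ B)).card : ℝ) := fun h => by
    rw [← sum_filter, sum_const, nsmul_eq_mul, mul_one]
  rw [sum_congr rfl (fun h _ => h2 h)] at h1
  rw [h1]
  have h3 : ∀ c : ZMod W, (Nat.totient W : ℝ) * ∑ b ∈ Fintype.piFinset (fun _ : Fin k => UN W),
      (if (∃ i, c + (b i - c) ∈ B) then (1 : ℝ) else 0) ≤ k * B.card * (Nat.totient W : ℝ) ^ k := by
    intro c
    have h4 : ∀ b ∈ Fintype.piFinset (fun _ : Fin k => UN W), (if (∃ i, c + (b i - c) ∈ B) then (1 : ℝ) else 0) ≤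
        ∑ i : Fin k, if b i ∈ B then (1 : ℝ) else 0 := by
      intro b _
      have hnn : ∀ i ∈ (univ : Finset (Fin k)), (0 : ℝ) ≤ if b i ∈ B then (1 : ℝ) else 0 := by
        intro i _
        split_ifs <;> norm_num
      split_ifs with hb
      · obtain ⟨i, hi⟩ := hb
        rw [add_sub_cancel] at hi
        refine le_trans ?_ (single_le_sum hnn (mem_univ i))
        rw [if_pos hi]
      · exact sum_nonneg hnn
    have h5 := sum_le_sum h4
    rw [sum_comm] at h5
    have h6 : ∀ i : Fin k, (Nat.totient W : ℝ) * ∑ b ∈ Fintype.piFinset (fun _ : Fin k => UN W), (if b i ∈ B then (1 : ℝ) else 0) ≤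
        B.card * (Nat.totient W : ℝ) ^ k := by
      intro i
      rw [← sum_filter, sum_const, nsmul_eq_mul, mul_one]
      have h7 : (Fintype.piFinset (fun _ : Fin k => UN W)).filter (fun b => b i ∈ B) =
          Fintype.piFinset (Function.update (fun _ : Fin k => UN W) i B) := by
        ext b
        rw [mem_filter, Fintype.mem_piFinset, Fintype.mem_piFinset]
        constructor
        · rintro ⟨g1, g2⟩ j
          by_cases hj : j = i
          · subst hj
            rw [Function.update_self]
            exact g2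
          · rw [Function.update_of_ne hj]
            exact g1 j
        · intro g
          refine ⟨fun j => ?_, ?_⟩
          · by_cases hj : j = i
            · subst hj
              have := g j
              rw [Function.update_self] at this
              unfold UN
              rw [mem_filter]
              exact ⟨mem_univ _, hB _ this⟩
            · have := g j
              rwa [Function.update_of_ne hj] at this
          · have := g i
            rwa [Function.update_self] at this
      rw [h7, Fintype.card_piFinset]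
      have h8 : ∏ j : Fin k, (Function.update (fun _ : Fin k => UN W) i B j).card =
          B.card * ∏ j ∈ univ \ {i}, (UN W).card := by
        have : (fun j => (Function.update (fun _ : Fin k => UN W) i B j).card) =
            Function.update (fun _ : Fin k => (UN W).card) i B.card := by
          funext j
          by_cases hj : j = i
          · subst hj; simp
          · simp [Function.update_of_ne hj]
        rw [this, prod_update_of_mem (mem_univ i)]
      rw [h8, prod_const, card_UN]
      have h9 : (univ \ {i} : Finset (Fin k)).card = k - 1 := by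
        rw [card_sdiff_of_subset (by simp)]
        simp
      have hk : k - 1 + 1 = k := by
        have := i.pos
        omega
      rw [h9]
      push_cast
      rw [← hk, pow_succ, Nat.add_sub_cancel]
      apply le_of_eq
      ring
    calc (Nat.totient W : ℝ) * ∑ b ∈ Fintype.piFinset (fun _ : Fin k => UN W), (if (∃ i, c + (b i - c) ∈ B) then (1 : ℝ) else 0) ≤
          (Nat.totient W : ℝ) * ∑ i : Fin k, ∑ b ∈ Fintype.piFinset (fun _ : Fin k => UN W), (if b i ∈ B then (1 : ℝ) else 0) :=
          mul_le_mul_of_nonneg_left h5 (Nat.cast_nonneg _)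
      _ = ∑ i : Fin k, (Nat.totient W : ℝ) * ∑ b ∈ Fintype.piFinset (fun _ : Fin k => UN W), (if b i ∈ B then (1 : ℝ) else 0) := by
          rw [mul_sum]
      _ ≤ ∑ i : Fin k, (B.card * (Nat.totient W : ℝ) ^ k) := sum_le_sum fun i _ => h6 i
      _ = _ := by rw [sum_const, card_univ, Fintype.card_fin, nsmul_eq_mul]; ring
  calc (Nat.totient W : ℝ) * ∑ c : ZMod W, ∑ b ∈ Fintype.piFinset (fun _ : Fin k => UN W), (if (∃ i, c + (b i - c) ∈ B) then (1 : ℝ) else 0)
      = ∑ c : ZMod W, (Nat.totient W : ℝ) * ∑ b ∈ Fintype.piFinset (fun _ : Fin k => UN W), (if (∃ i, c + (b i - c) ∈ B) then (1 : ℝ) else 0) := by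
        rw [mul_sum]
    _ ≤ ∑ c : ZMod W, (k * B.card * (Nat.totient W : ℝ) ^ k) := sum_le_sum fun c _ => h3 c
    _ = _ := by rw [sum_const, card_univ, ZMod.card, nsmul_eq_mul]; ring

open Classical in
/-- one block, all pairs of classes -/
theorem block_all {k W v T U : ℕ} [NeZero W] {B₀ ε : ℝ} (hε : 0 ≤ ε) (hB₀ : 0 ≤ B₀) (B : Finset (ZMod W)) (hB : ∀ b ∈ B, IsUnit b)
    (hgood : ∀ (h : Fin k → ZMod W) (c : ZMod W), c ∈ VV h → (∀ i, c + h i ∉ B) →
      ∑ t ∈ Fintype.piFinset (fun _ : Fin k => range T), max 0 ((U : ℝ) - B₀ ^ k * cnt v U h c t) ≤ ε * (U * (T : ℝ) ^ k)) :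
    ∑ h : Fin k → ZMod W, ∑ c ∈ VV h, ∑ t ∈ Fintype.piFinset (fun _ : Fin k => range T), max 0 ((U : ℝ) - B₀ ^ k * cnt v U h c t) ≤
      (ε + k * B.card / Nat.totient W) * (W * (Nat.totient W : ℝ) ^ k) * (U * (T : ℝ) ^ k) := by
  have hW0 : 0 < W := Nat.pos_of_ne_zero (NeZero.ne W)
  have hφ0 : (0 : ℝ) < Nat.totient W := by exact_mod_cast Nat.totient_pos.2 hW0
  have htriv : ∀ (h : Fin k → ZMod W) (c : ZMod W),
      ∑ t ∈ Fintype.piFinset (fun _ : Fin k => range T), max 0 ((U : ℝ) - B₀ ^ k * cnt v U h c t) ≤ U * (T : ℝ) ^ k := by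
    intro h c
    calc _ ≤ ∑ t ∈ Fintype.piFinset (fun _ : Fin k => range T), (U : ℝ) := by
          apply sum_le_sum
          intro t _
          apply max_le (Nat.cast_nonneg _)
          have : 0 ≤ B₀ ^ k * (cnt v U h c t : ℝ) := by positivity
          linarith
      _ = _ := by
          rw [sum_const, Fintype.card_piFinset]
          simp
          ring
  have h1 : ∀ h : Fin k → ZMod W, ∑ c ∈ VV h, ∑ t ∈ Fintype.piFinset (fun _ : Fin k => range T), max 0 ((U : ℝ) - B₀ ^ k * cnt v U h c t) ≤
      (VV h).card * (ε * (U * (T : ℝ) ^ k)) + ((VV h).filter (fun c => ∃ i, c + h i ∈ B)).card * (U * (T : ℝ) ^ k) := by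
    intro h
    have h2 : ∀ c ∈ VV h, ∑ t ∈ Fintype.piFinset (fun _ : Fin k => range T), max 0 ((U : ℝ) - B₀ ^ k * cnt v U h c t) ≤
        ε * (U * (T : ℝ) ^ k) + (if (∃ i, c + h i ∈ B) then U * (T : ℝ) ^ k else 0) := by
      intro c hc
      split_ifs with hb
      · have := htriv h c
        have h3 : 0 ≤ ε * (U * (T : ℝ) ^ k) := by positivity
        linarith
      · push Not at hb
        rw [add_zero]
        exact hgood h c hc hb
    refine (sum_le_sum h2).trans (le_of_eq ?_)
    rw [sum_add_distrib, sum_const, ← sum_filter, sum_const, nsmul_eq_mul, nsmul_eq_mul]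
  have h2 := sum_le_sum (s := (univ : Finset (Fin k → ZMod W))) (fun h _ => h1 h)
  refine h2.trans ?_
  rw [sum_add_distrib, ← sum_mul, ← sum_mul, sum_card_VV]
  have h3 := bad_pairs (k := k) B hB
  have h4 : ∑ h : Fin k → ZMod W, (((VV h).filter (fun c => ∃ i, c + h i ∈ B)).card : ℝ) ≤
      k * B.card / Nat.totient W * (W * (Nat.totient W : ℝ) ^ k) := by
    rw [div_mul_eq_mul_div, le_div_iff₀ hφ0, mul_comm]
    exact h3
  have h5 := mul_le_mul_of_nonneg_right h4 (show 0 ≤ (U : ℝ) * (T : ℝ) ^ k by positivity)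
  refine (add_le_add le_rfl h5).trans (le_of_eq ?_)
  ring

end Pool.Agent.J4H81.PT.HW
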