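import Pool.Agent.J4H81.HL.WN
import Pool.Agent.J4H57.HL.Bt

/-!
# Hardy-Littlewood for almost all admissible sets (uniform measure): statement of part I (helper81)
-/

set_option autoImplicit false

namespace Pool.Agent.J4H81.HL

open Finset
open Pool.Agent.J4H81.PT.ZF (NoZ)

/-- **Part I.** The theorem `Pool.Agent.J4H81.PT.HW.win` (module `J4H81.HL.WN`) with one more hypothesis, `log l ≤ η l`, and one
more conclusion, the last one: in good classes the window `[W v, W (v + T))` contains at most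
`(1 + C η) (W / φ(W)) T / log (W (v + T))` primes.

Proof: copy the proof of `win`; there `F b s = FF W ω b.val (v + s) = (φ(W) / W) nu(n) ω(n)`, `n = b + W (v + s)`, and
`ω(n) = 1` for `η T / 8 + 1 ≤ s ≤ (1 - η / 8) T` or so (`om_one`, compare `om_mass_win` in `HL/WM`), so the number of these `s` with
`n` prime is at most `(W / φ(W)) (1 + η) T / (log (W (v + T)) - log (30 / η))`, and `log (30 / η) ≤ η log (W (v + T)) / 10` since
`η ≥ 24000 / l`, `log l ≤ η l`, `log (W (v + T)) ≥ 100 l`. The two edges, of length at most `η T` or so, by the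
Brun-Titchmarsh inequality `t_BT`. -/
def S_WIN : Prop := ∀ c₀ : ℝ, 0 < c₀ → c₀ ≤ 1 → ∃ (c C l₀ : ℝ) (K : ℕ), 0 < c ∧ c ≤ 1 ∧ 1 ≤ C ∧ 10000 ≤ l₀ ∧
    ∀ l : ℝ, l₀ ≤ l → NoZ c₀ l → ∀ (T v w W : ℕ) [NeZero W] (η : ℝ), w = ⌊l / 1000⌋₊ → W = primorial w →
    0 < η → η ≤ 1 / 2 → 24 / η + 2 ≤ l / 1000 → Real.log l ≤ η * l →
    Real.exp (100 * l) ≤ T → v ≤ 2 * T → Real.log (3 * (W * T) : ℕ) ≤ l ^ 2 →
    ∃ (F : ZMod W → ℕ → ℝ) (B : Finset (ZMod W)) (Ex : ZMod W → Finset ℕ),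
      (∀ b s, 0 ≤ F b s) ∧ (∀ b s, F b s ≤ (Nat.totient W : ℝ) / W * Real.log (W * (v + T) : ℕ)) ∧
      (∀ b s, F b s ≠ 0 → (b.val + W * (v + s)).Prime) ∧ (∀ b s, T ≤ s → F b s = 0) ∧
      (∀ b ∈ B, IsUnit b) ∧
      ((B.card : ℝ) ≤ C * l ^ K * (Real.exp (-(c * Real.log T / (2 * l))) + Real.exp (-(l / 100))) * Nat.totient W) ∧
      (∀ b, IsUnit b → b ∉ B → (1 - η) * T ≤ ∑ s ∈ range T, F b s ∧ ∑ s ∈ range T, F b s ≤ (1 + η) * T ∧
        ((Ex b).card : ℝ) ≤ T * Real.exp (-(l / 80)) ∧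
        ∀ D, 1 ≤ D → D < T → D ∉ Ex b → ∑ s ∈ range T, F b s * F b (s + D) ≤ (1 + η) * T * Pool.Agent.J4H81.PT.PP w D) ∧
      ∀ b, IsUnit b → b ∉ B → (((range T).filter (fun s => (b.val + W * (v + s)).Prime)).card : ℝ) ≤
        (1 + C * η) * ((W : ℝ) / Nat.totient W) * (T / Real.log (W * (v + T) : ℕ))

end Pool.Agent.J4H81.HL
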