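import Pool.Agent.J4H81.HL.UB
import Pool.Agent.J4H81.HL.LS
import Pool.Agent.J4H81.HL.Stm4

/-!
# Hardy-Littlewood for almost all admissible sets: lower bound and first moment at a good scale (helper81)

Parts G, H, I are by helper57.
-/

set_option autoImplicit false

namespace Pool.Agent.J4H81.PT.HW

open Finset MeasureTheory Filter
open Pool.Agent.J4H81.PT
open Pool.Agent.J4H81.PT.ZF (NoZ)
open Pool.Agent.J4H81.HL (S_WIN)

/-- a bound for the exponential function -/
theorem exp_le_quad {t : ℝ} (h0 : 0 ≤ t) (h1 : t ≤ 1) : Real.exp t ≤ 1 + t + t ^ 2 := by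
  have h2 := Real.abs_exp_sub_one_sub_id_le (x := t) (by rw [abs_of_nonneg h0]; exact h1)
  have h3 := le_abs_self (Real.exp t - 1 - t)
  linarith

theorem adm_scale (hWIN : S_WIN) {c₀ : ℝ} (hc₀ : 0 < c₀) (hc₀1 : c₀ ≤ 1) : ∃ (c C l₀ : ℝ) (K : ℕ), 0 < c ∧ c ≤ 1 ∧ 1 ≤ C ∧ 10000 ≤ l₀ ∧
    ∀ l : ℝ, l₀ ≤ l → NoZ c₀ l → ∀ (y k T w W : ℕ) [NeZero W] (η B₀ σ : ℝ), w = ⌊l / 1000⌋₊ → W = primorial w → T = (y + 1) / W →
    0 < η → η ≤ 1 / 2 → 24 / η + 2 ≤ l / 1000 → Real.log l ≤ η * l → 4 * k * η ≤ 1 → (k : ℝ) * Real.log (2 * l ^ 2) ≤ l / 1000 →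
    Real.exp (101 * l) ≤ y → Real.log (3 * (y + 1) : ℕ) ≤ l ^ 2 → 1 ≤ k → B₀ = (Nat.totient W : ℝ) / W * Real.log (2 * (y + 1) : ℕ) →
    σ = C * (k * η + k * (l ^ K * (Real.exp (-(c * Real.log y / (2 * l))) + Real.exp (-(l / 100))))) → σ ≤ 1 →
    ∃ J U : ℕ, 0 < J ∧ 0 < U ∧ (1 - η) * y ≤ W * (J * U) ∧ (W : ℝ) * (J * U) ≤ y ∧
      ∑ h ∈ AdmZ k W, ∑ t ∈ Fintype.piFinset (fun _ : Fin k => range T), max 0 (1 - RR B₀ J U y h t) ≤
        (Real.sqrt (8 * k * η + 8000 * k / l + Real.exp (-(l / 100))) + σ) * (((AdmZ k W).card : ℝ) * (T : ℝ) ^ k) ∧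
      ∑ h ∈ AdmZ k W, ∑ t ∈ Fintype.piFinset (fun _ : Fin k => range T), RR B₀ J U y h t ≤
        (1 + σ) * (((AdmZ k W).card : ℝ) * (T : ℝ) ^ k) := by
  classical
  obtain ⟨c, C₁, l₁, K, hc, hc1, hC₁, hl₁, hwin⟩ := hWIN c₀ hc₀ hc₀1
  obtain ⟨C₂, hC₂, hBT⟩ := Pool.Agent.J4H57.HL.t_BT
  obtain ⟨l₂, hl₂⟩ := eventually_atTop.1 (((poly_exp (show (0 : ℝ) < 1 / 1000 by norm_num) 4 3)).and
    ((poly_exp (show (0 : ℝ) < 1 by norm_num) 4 1)))
  refine ⟨c, 16 * C₁ * C₂, max l₁ l₂, K + 2, hc, hc1, ?_, hl₁.trans (le_max_left _ _), ?_⟩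
  · nlinarith only [hC₁, hC₂]
  intro l hl hno y k T w W _ η B₀ σ hw hW hT hη hη2 hηl hlogη hkη hk hy hyl hk1 hB₀ hσ hσ1
  have hll₁ : l₁ ≤ l := (le_max_left _ _).trans hl
  have hll₂ : l₂ ≤ l := (le_max_right _ _).trans hl
  have hl1e4 : 10000 ≤ l := hl₁.trans hll₁
  obtain ⟨hF1, hF2⟩ := hl₂ l hll₂
  simp only [one_mul] at hF2
  have hl0 : 0 < l := by linarith
  have hl1 : 1 ≤ l := by linarith
  have hk0 : (0 : ℝ) ≤ k := Nat.cast_nonneg _
  have hlog8 : 8 ≤ Real.log (2 * l ^ 2) := by
    rw [Real.le_log_iff_exp_le (by positivity)]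
    have h1 : Real.exp 8 = Real.exp 1 ^ 8 := by rw [← Real.exp_nat_mul]; norm_num
    have h2 : Real.exp 1 ^ 8 ≤ 3 ^ 8 := pow_le_pow_left₀ (Real.exp_pos _).le (by have := Real.exp_one_lt_d9; linarith) 8
    rw [h1]
    refine h2.trans ?_
    nlinarith only [hl1e4]
  have hk8 : (k : ℝ) ≤ l / 8000 := by
    have : (k : ℝ) * 8 ≤ k * Real.log (2 * l ^ 2) := mul_le_mul_of_nonneg_left hlog8 hk0
    linarith
  have hkl : (k : ℝ) ≤ l := by linarith
  have hηl8 : 24000 ≤ η * l := by
    have h1 : 24 / η ≤ l / 1000 := by linarith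
    rw [div_le_iff₀ hη] at h1
    linarith
  -- the parameters
  have hw1 : (w : ℝ) ≤ l / 1000 := by rw [hw]; exact Nat.floor_le (by positivity)
  have hw2 : l / 1000 < w + 1 := by rw [hw]; exact Nat.lt_floor_add_one _
  have hwpos : (0 : ℝ) < w := by linarith
  have hWpos : 0 < W := by rw [hW]; exact primorial_pos w
  have hW0 : (0 : ℝ) < W := by exact_mod_cast hWpos
  have hW1 : (1 : ℝ) ≤ W := by exact_mod_cast hWpos
  have hφpos : 0 < Nat.totient W := Nat.totient_pos.2 hWpos
  have hφ0 : (0 : ℝ) < Nat.totient W := by exact_mod_cast hφpos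
  have hφW : (Nat.totient W : ℝ) ≤ W := by exact_mod_cast Nat.totient_le W
  have hWl : (W : ℝ) ≤ Real.exp (l / 700) := by
    have h1 : (W : ℝ) ≤ (4 : ℝ) ^ w := by rw [hW]; exact_mod_cast primorial_le_four_pow w
    have h2 : (4 : ℝ) ^ w = Real.exp (w * (2 * Real.log 2)) := by
      rw [Real.exp_nat_mul, show 2 * Real.log 2 = Real.log (2 ^ 2) by rw [Real.log_pow]; norm_num, Real.exp_log (by norm_num)]
      norm_num
    rw [h2] at h1
    refine h1.trans (Real.exp_le_exp.2 ?_)
    have h3 := Real.log_two_lt_d9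
    have h4 : (w : ℝ) * (2 * Real.log 2) ≤ (l / 1000) * (2 * 0.6931471808) := by gcongr
    linarith
  have hy0 : (0 : ℝ) < y := lt_of_lt_of_le (Real.exp_pos _) hy
  have hmod : W * T + (y + 1) % W = y + 1 := by rw [hT]; exact Nat.div_add_mod (y + 1) W
  have hmodlt : (y + 1) % W < W := Nat.mod_lt _ hWpos
  have hWT : W * T ≤ y + 1 := by omega
  have hWTr : (W : ℝ) * T ≤ y + 1 := by exact_mod_cast hWT
  have hWT2 : (y : ℝ) + 1 ≤ W * T + W := by exact_mod_cast (by omega : y + 1 ≤ W * T + W)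
  -- T is large
  have he1 : (2 : ℝ) ≤ Real.exp (l / 50) := by
    have := Real.add_one_le_exp (l / 50)
    linarith
  have hTl : Real.exp (100 * l) ≤ T := by
    by_contra hcon
    push Not at hcon
    have h1 : (W : ℝ) * T ≤ Real.exp (l / 700) * Real.exp (100 * l) := mul_le_mul hWl hcon.le (Nat.cast_nonneg _) (Real.exp_pos _).le
    have h2 : Real.exp (l / 700) * Real.exp (100 * l) + Real.exp (l / 700) < Real.exp (101 * l) := by
      have h3 : Real.exp (101 * l) = Real.exp (l / 50) * Real.exp (101 * l - l / 50) := by rw [← Real.exp_add]; congr 1; ring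
      have h4 : Real.exp (l / 700) * Real.exp (100 * l) ≤ Real.exp (101 * l - l / 50 - l / 50) := by
        rw [← Real.exp_add]; exact Real.exp_le_exp.2 (by linarith)
      have h5 : Real.exp (l / 700) ≤ Real.exp (101 * l - l / 50 - l / 50) := Real.exp_le_exp.2 (by linarith)
      have h6 : Real.exp (101 * l - l / 50) = Real.exp (l / 50) * Real.exp (101 * l - l / 50 - l / 50) := by rw [← Real.exp_add]; congr 1; ring
      have h7 := Real.exp_pos (101 * l - l / 50 - l / 50)
      rw [h3, h6]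
      nlinarith only [h4, h5, h7, he1, mul_pos h7 h7, mul_le_mul_of_nonneg_right he1 h7.le, mul_le_mul_of_nonneg_left (mul_le_mul_of_nonneg_right he1 h7.le) (show (0:ℝ) ≤ Real.exp (l / 50) by positivity)]
    linarith
  have hT0 : (0 : ℝ) < T := lt_of_lt_of_le (Real.exp_pos _) hTl
  have hTpos : 0 < T := by exact_mod_cast hT0
  -- the logarithm
  set L : ℝ := Real.log (2 * (y + 1) : ℕ) with hL
  have hL2 : L ≤ l ^ 2 := (log_nat_mono (by omega : 2 * (y + 1) ≤ 3 * (y + 1))).trans hyl
  have hL1 : 101 * l ≤ L := by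
    rw [hL, ← Real.log_exp (101 * l)]
    apply Real.log_le_log (Real.exp_pos _)
    refine hy.trans ?_
    exact_mod_cast (by omega : y ≤ 2 * (y + 1))
  have hL0 : 0 < L := by linarith
  have hB₀0 : 0 < B₀ := by rw [hB₀]; positivity
  have hφW1 : (Nat.totient W : ℝ) / W ≤ 1 := (div_le_one hW0).2 hφW
  have hB₀L : B₀ ≤ L := by rw [hB₀]; exact mul_le_of_le_one_left hL0.le hφW1
  -- U
  set U : ℕ := ⌊η * T / (2 * L)⌋₊ with hU
  have hl4T : l ^ 4 ≤ T := by
    have h1 : Real.exp l ≤ Real.exp (100 * l) := Real.exp_le_exp.2 (by linarith)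
    linarith
  have hbig : 4 * l ^ 2 ≤ η * T := by
    have h2 : η * l ^ 4 ≤ η * T := mul_le_mul_of_nonneg_left hl4T hη.le
    have h3 : η * l ^ 4 = (η * l) * (l * l ^ 2) := by ring
    have h4 : 1 * l ^ 2 ≤ l * l ^ 2 := mul_le_mul_of_nonneg_right hl1 (sq_nonneg l)
    have h5 : 24000 * (l * l ^ 2) ≤ (η * l) * (l * l ^ 2) := mul_le_mul_of_nonneg_right hηl8 (by positivity)
    linarith [sq_nonneg l]
  have hq : 2 ≤ η * T / (2 * L) := by
    rw [le_div_iff₀ (by positivity)]
    linarith
  have hU1 : (U : ℝ) ≤ η * T / (2 * L) := by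
    rw [hU]; exact Nat.floor_le (by positivity)
  have hU2 : η * T / (2 * L) < U + 1 := by
    rw [hU]; exact Nat.lt_floor_add_one _
  have hU3 : (1 : ℝ) < U := by linarith
  have hUpos' : (0 : ℝ) < U := by linarith
  have hUpos : 0 < U := by exact_mod_cast hUpos'
  have hU4 : T / l ^ 3 ≤ (U : ℝ) := by
    have h1 : η * T / (4 * L) ≤ U := by
      have : η * T / (4 * L) = η * T / (2 * L) / 2 := by field_simp; norm_num
      rw [this]
      linarith
    refine le_trans ?_ h1
    rw [div_le_div_iff₀ (by positivity) (by positivity)]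
    have h2 : T * (4 * L) ≤ T * (4 * l ^ 2) := by gcongr
    have h3 : η * T * l ^ 3 = T * ((η * l) * l ^ 2) := by ring
    rw [h3]
    refine h2.trans (mul_le_mul_of_nonneg_left ?_ hT0.le)
    nlinarith only [hηl8, sq_nonneg l]
  have hUL : (U : ℝ) * (2 * L) ≤ η * T := by rwa [le_div_iff₀ (by positivity)] at hU1
  have hUB : (U + 1) * B₀ ≤ η * T := by
    have h1 : ((U : ℝ) + 1) * B₀ ≤ (U + 1) * L := mul_le_mul_of_nonneg_left hB₀L (by positivity)
    nlinarith only [h1, hUL, hbig, hL2]
  have hUT : U + 1 ≤ T := by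
    have h1 : ((U : ℝ) + 1) * 1 ≤ (U + 1) * L := mul_le_mul_of_nonneg_left (by linarith) (by positivity)
    have h2 : η * T ≤ 1 * T := mul_le_mul_of_nonneg_right (by linarith) hT0.le
    have h3 : ((U + 1 : ℕ) : ℝ) ≤ T := by
      push_cast
      nlinarith only [h1, h2, hUL, hbig, hL2]
    exact_mod_cast h3
  set J : ℕ := (T - 1) / U with hJ
  have hJU : J * U + 1 ≤ T := by
    have := Nat.div_mul_le_self (T - 1) U
    rw [← hJ] at this
    omega
  have hJU2 : (T : ℝ) ≤ J * U + U := by
    have h1 : T - 1 < U * ((T - 1) / U + 1) := Nat.lt_mul_div_succ (T - 1) hUpos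
    rw [← hJ] at h1
    have h2 : U * (J + 1) = J * U + U := by ring
    exact_mod_cast (by omega : T ≤ J * U + U)
  have hJUr : (J : ℝ) * U + 1 ≤ T := by exact_mod_cast hJU
  have hJ2 : (2 : ℝ) / η ≤ J := by
    have h1 : (T : ℝ) ≤ (J + 1) * U := by linarith
    have h2 : (T : ℝ) * (2 * L) ≤ (J + 1) * (η * T) := by
      calc (T : ℝ) * (2 * L) ≤ ((J + 1) * U) * (2 * L) := mul_le_mul_of_nonneg_right h1 (by positivity)
        _ = (J + 1) * (U * (2 * L)) := by ring
        _ ≤ (J + 1) * (η * T) := mul_le_mul_of_nonneg_left hUL (by positivity)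
    have h3 : 2 * L ≤ (J + 1) * η := by
      have h4 : T * (2 * L) ≤ T * ((J + 1) * η) := by linarith
      exact le_of_mul_le_mul_left h4 hT0
    rw [div_le_iff₀ hη]
    linarith
  have hJ0r : (0 : ℝ) < J := lt_of_lt_of_le (by positivity) hJ2
  have hJ0 : 0 < J := by exact_mod_cast hJ0r
  have hlog3 : Real.log (3 * (W * T) : ℕ) ≤ l ^ 2 := (log_nat_mono (by omega)).trans hyl
  -- the windows
  have hwins : ∀ j : ℕ, j < J + 2 → _ := fun j hj =>
    hwin l hll₁ hno T (j * U) w W η hw hW hη hη2 hηl hlogη hTl (by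
      have h1 : j * U ≤ (J + 1) * U := Nat.mul_le_mul_right U (by omega)
      have h2 : (J + 1) * U = J * U + U := by ring
      omega) hlog3
  choose! F B Ex hFBE using hwins
  set ε : ℝ := Real.sqrt (8 * k * η + 8000 * k / l + Real.exp (-(l / 100))) with hε
  set β : ℝ := C₁ * l ^ K * (Real.exp (-(c * Real.log T / (2 * l))) + Real.exp (-(l / 100))) with hβ
  have hbeta : β ≤ 2 * C₁ * l ^ K * (Real.exp (-(c * Real.log y / (2 * l))) + Real.exp (-(l / 100))) := by
    -- log T against log y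
    have h1 : Real.exp (-(c * Real.log T / (2 * l))) ≤ 2 * Real.exp (-(c * Real.log y / (2 * l))) := by
      have h2 : Real.log y ≤ Real.log T + l / 600 := by
        have h3 : (y : ℝ) ≤ T * Real.exp (l / 600) := by
          have h4 : Real.exp (l / 700) * 2 ≤ Real.exp (l / 600) := by
            have h5 : Real.exp (l / 600) = Real.exp (l / 700) * Real.exp (l / 4200) := by rw [← Real.exp_add]; congr 1; ring
            have h6 : 2 ≤ Real.exp (l / 4200) := by
              have := Real.add_one_le_exp (l / 4200)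
              linarith
            rw [h5]
            exact mul_le_mul_of_nonneg_left h6 (Real.exp_pos _).le
          have h7 : (W : ℝ) * T + W ≤ W * (2 * T) := by
            have : (1 : ℝ) ≤ T := by exact_mod_cast hTpos
            nlinarith only [this, hW0]
          have h8 : (W : ℝ) * (2 * T) ≤ Real.exp (l / 700) * (2 * T) := mul_le_mul_of_nonneg_right hWl (by positivity)
          have h9 : Real.exp (l / 700) * 2 * T ≤ Real.exp (l / 600) * T := mul_le_mul_of_nonneg_right h4 hT0.le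
          linarith
        have h4 := Real.log_le_log hy0 h3
        rwa [Real.log_mul hT0.ne' (Real.exp_pos _).ne', Real.log_exp] at h4
      have h3 : (2 : ℝ) * Real.exp (-(c * Real.log y / (2 * l))) = Real.exp (Real.log 2 + -(c * Real.log y / (2 * l))) := by
        rw [Real.exp_add, Real.exp_log (by norm_num)]
      rw [h3]
      apply Real.exp_le_exp.2
      have h4 : c * Real.log y / (2 * l) ≤ c * (Real.log T + l / 600) / (2 * l) := by gcongr
      have h5 : c * (Real.log T + l / 600) / (2 * l) = c * Real.log T / (2 * l) + c / 1200 := by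
        field_simp
        ring
      have := Real.log_two_gt_d9
      linarith
    rw [hβ]
    have h2 : 0 < Real.exp (-(l / 100)) := Real.exp_pos _
    have h3 : Real.exp (-(c * Real.log T / (2 * l))) + Real.exp (-(l / 100)) ≤ 2 * (Real.exp (-(c * Real.log y / (2 * l))) + Real.exp (-(l / 100))) := by linarith
    calc C₁ * l ^ K * (Real.exp (-(c * Real.log T / (2 * l))) + Real.exp (-(l / 100))) ≤
          C₁ * l ^ K * (2 * (Real.exp (-(c * Real.log y / (2 * l))) + Real.exp (-(l / 100)))) := by gcongr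
      _ = _ := by ring
  set s : ℝ := Real.exp (-(c * Real.log y / (2 * l))) + Real.exp (-(l / 100)) with hs
  have hs0 : 0 < s := by positivity
  have hβ0 : 0 ≤ β := by positivity
  have hw2' : 2 ≤ w := by
    have : (2 : ℝ) ≤ w := by linarith
    exact_mod_cast this
  have h120 : 120 * (w : ℝ) ^ 2 ≤ l ^ 2 := by
    have h1 : (w : ℝ) ^ 2 ≤ (l / 1000) ^ 2 := pow_le_pow_left₀ (by positivity) hw1 2
    nlinarith only [h1, sq_nonneg l]
  set x : ℝ := k * (C₁ * l ^ (K + 2) * (2 * s)) with hx
  have hx0 : 0 ≤ x := by positivity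
  have hBx : ∀ j < J + 2, (k : ℝ) * (120 * (w : ℝ) ^ 2 * (B j).card / Nat.totient W) ≤ x := by
    intro j hj
    obtain ⟨f1, f2, f3, f4, f5, f6, f7, f8⟩ := hFBE j hj
    have h1 : ((B j).card : ℝ) / Nat.totient W ≤ β := by
      rw [div_le_iff₀ hφ0]
      exact f6
    have h2 : 120 * (w : ℝ) ^ 2 * (B j).card / Nat.totient W = 120 * (w : ℝ) ^ 2 * ((B j).card / Nat.totient W) := by ring
    rw [h2]
    have h3 : 120 * (w : ℝ) ^ 2 * ((B j).card / Nat.totient W) ≤ l ^ 2 * (2 * C₁ * l ^ K * s) :=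
      mul_le_mul h120 (h1.trans hbeta) (by positivity) (by positivity)
    have h4 : l ^ 2 * (2 * C₁ * l ^ K * s) = C₁ * l ^ (K + 2) * (2 * s) := by rw [pow_add]; ring
    rw [h4] at h3
    exact mul_le_mul_of_nonneg_left h3 hk0
  have hC₂0 : 0 < C₂ := by linarith
  have hC₁0 : 0 < C₁ := by linarith
  have hkηs : (k : ℝ) * η ≤ σ / (16 * C₁ * C₂) := by
    rw [le_div_iff₀ (by positivity), hσ]
    have h1 : 0 ≤ (k : ℝ) * (l ^ (K + 2) * s) := by positivity
    have h2 : 0 ≤ 16 * C₁ * C₂ * ((k : ℝ) * (l ^ (K + 2) * s)) := by positivity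
    linarith
  have hxs : 8 * C₂ * x ≤ σ := by
    rw [hσ, hx]
    have h1 : 0 ≤ 16 * C₁ * C₂ * ((k : ℝ) * η) := by positivity
    have h2 : 8 * C₂ * (k * (C₁ * l ^ (K + 2) * (2 * s))) = 16 * C₁ * C₂ * (k * (l ^ (K + 2) * s)) := by ring
    rw [h2, mul_add]
    linarith
  have hσ0 : 0 ≤ σ := le_trans (by positivity) hxs
  have hpow : ∀ (j : ℕ), j < J + 2 → ∀ A : ℝ, 0 ≤ A → (1 + A * (120 * (w : ℝ) ^ 2) * (B j).card / Nat.totient W) ^ k ≤ Real.exp (A * x) := by
    intro j hj A hA
    have h1 := Real.add_one_le_exp (A * (120 * (w : ℝ) ^ 2) * (B j).card / Nat.totient W)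
    have h2 : (1 + A * (120 * (w : ℝ) ^ 2) * (B j).card / Nat.totient W) ^ k ≤ Real.exp (A * (120 * (w : ℝ) ^ 2) * (B j).card / Nat.totient W) ^ k :=
      pow_le_pow_left₀ (by positivity) (by linarith) k
    refine h2.trans ?_
    rw [← Real.exp_nat_mul]
    apply Real.exp_le_exp.2
    have h3 := mul_le_mul_of_nonneg_left (hBx j hj) hA
    refine le_trans (le_of_eq ?_) h3
    ring
  have hexp2 : ∀ t : ℝ, 0 ≤ t → t ≤ 1 → Real.exp t ≤ 1 + 2 * t := by
    intro t h0 h1
    have h2 := Real.abs_exp_sub_one_le (x := t) (by rw [abs_of_nonneg h0]; exact h1)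
    rw [abs_of_nonneg h0] at h2
    have := le_abs_self (Real.exp t - 1)
    linarith
  refine ⟨J, U, hJ0, hUpos, ?_, ?_, ?_, ?_⟩
  · -- M is almost y
    have h1 : (W : ℝ) * T ≤ W * (J * U + U) := mul_le_mul_of_nonneg_left hJU2 hW0.le
    have h2 : (W : ℝ) * U ≤ η * y / 4 := by
      have h3 : (U : ℝ) * 8 ≤ η * T := by nlinarith only [hUL, hL1, hl1e4, hUpos']
      have h4 : (W : ℝ) * (U * 8) ≤ W * (η * T) := mul_le_mul_of_nonneg_left h3 hW0.le
      have h5 : η * (W * T) ≤ η * (y + 1) := mul_le_mul_of_nonneg_left hWTr hη.le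
      have h6 : (1 : ℝ) ≤ y := by
        have : (1 : ℝ) ≤ Real.exp (101 * l) := Real.one_le_exp (by positivity)
        linarith
      have h7 : η * 1 ≤ η * y := mul_le_mul_of_nonneg_left h6 hη.le
      linarith
    have h3 : (W : ℝ) ≤ η * y / 4 := by
      have h4 : (1 : ℝ) * W ≤ W * U := by nlinarith only [hW0, hU3]
      linarith
    linarith
  · have h1 : (W : ℝ) * (J * U) ≤ W * (T - 1) := mul_le_mul_of_nonneg_left (by linarith) hW0.le
    linarith
  · -- the lower bound
    have hlowa := low_adm (k := k) (w := w) (W := W) (T := T) (J := J) (U := U) (y := y) (B₀ := B₀) (ε := ε) (β := 2 * x)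
      hW hw2' hWT hJU hJ0 hUpos hB₀0 (Real.sqrt_nonneg _) B
      (fun j hj b hb => (hFBE j (by omega)).2.2.2.2.1 b hb) ?_ ?_
    · refine hlowa.trans (mul_le_mul_of_nonneg_right ?_ (by positivity))
      have h1 : 2 * x ≤ σ := by nlinarith only [hxs, hx0, hC₂]
      linarith
    · intro j hj
      have h1 := hpow j (by omega) 1 (by norm_num)
      rw [one_mul, one_mul] at h1
      have h2 : x ≤ 1 := by nlinarith only [hxs, hx0, hC₂, hσ1]
      have h3 := hexp2 x hx0 h2
      linarith
    intro j hj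
    obtain ⟨f1, f2, f3, f4, f5, f6, f7, f8⟩ := hFBE j (by omega)
    have hjT : j * U ≤ T := by
      have := Nat.mul_le_mul_right U hj.le
      omega
    have f2' : ∀ b s, F j b s ≤ B₀ := by
      intro b s
      refine (f2 b s).trans ?_
      rw [hB₀]
      apply mul_le_mul_of_nonneg_left _ (by positivity)
      apply log_nat_mono
      have h1 : W * (j * U + T) ≤ W * (2 * T) := Nat.mul_le_mul_left _ (by omega)
      have h2 : W * (2 * T) = 2 * (W * T) := by ring
      omega
    set M₀ : ℕ := ⌊(T : ℝ) * Real.exp (-(l / 80))⌋₊ with hM₀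
    have hM₀1 : (M₀ : ℝ) ≤ T * Real.exp (-(l / 80)) := Nat.floor_le (by positivity)
    have hgood : ∀ (h : Fin k → ZMod W) (c : ZMod W), c ∈ VV h → (∀ i, c + h i ∉ B j) →
        ∑ t ∈ Fintype.piFinset (fun _ : Fin k => range T), max 0 ((U : ℝ) - B₀ ^ k * cnt (j * U) U h c t) ≤ ε * (U * (T : ℝ) ^ k) := by
      intro h c hcV hcB
      have hkw : k ≤ w := by
        have : (k : ℝ) ≤ w := by linarith
        exact_mod_cast this
      have hw1' : 1 ≤ w := by
        have : (1 : ℝ) ≤ w := by linarith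
        exact_mod_cast this
      have h2kw : 2 * (k : ℝ) / w ≤ 1 / 2 := by
        rw [div_le_iff₀ hwpos]
        linarith
      have hd := block_deficit (M₀ := M₀) hTpos hUpos hUT hkw hw1' (F j) f1 f3 f4 f2' hB₀0 hη.le (by linarith) (by linarith) hUB (B j) (Ex j)
        (fun b hb hbB => (f7 b hb hbB).1) (fun b hb hbB => by
          have := (f7 b hb hbB).2.1
          nlinarith only [this, hη2, hT0])
        (fun b hb hbB D hD1 hDU hDE => (f7 b hb hbB).2.2.2 D hD1 (by omega) hDE)
        (fun b hb hbB => Nat.le_floor (f7 b hb hbB).2.2.1) h c hcV hcB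
      refine hd.trans (mul_le_mul_of_nonneg_right ?_ (by positivity))
      apply Real.sqrt_le_sqrt
      have hkw2 : 4 * (k : ℝ) / w ≤ 8000 * k / l := by
        rw [div_le_div_iff₀ hwpos hl0]
        have h1 : l ≤ 2000 * w := by linarith
        have h2 : 4 * (k : ℝ) * l ≤ 4 * k * (2000 * w) := mul_le_mul_of_nonneg_left h1 (by positivity)
        linarith
      have hthird : (2 * B₀) ^ k * (1 + 2 * k * M₀) / U ≤ Real.exp (-(l / 100)) := by
        have h1 : (2 * B₀) ^ k ≤ Real.exp (l / 1000) := by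
          calc (2 * B₀) ^ k ≤ (2 * l ^ 2) ^ k := pow_le_pow_left₀ (by positivity) (by linarith) k
            _ = Real.exp (k * Real.log (2 * l ^ 2)) := by
                rw [Real.exp_nat_mul, Real.exp_log (by positivity)]
            _ ≤ Real.exp (l / 1000) := Real.exp_le_exp.2 hk
        set e : ℝ := Real.exp (-(l / 80)) with he
        have he0 : 0 < e := Real.exp_pos _
        have hTe : 1 ≤ T * e := by
          calc (1 : ℝ) ≤ Real.exp (100 * l + -(l / 80)) := Real.one_le_exp (by linarith)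
            _ = Real.exp (100 * l) * e := Real.exp_add _ _
            _ ≤ T * e := mul_le_mul_of_nonneg_right hTl he0.le
        have h2 : 1 + 2 * (k : ℝ) * M₀ ≤ 3 * l * (T * e) := by
          have h3 : 2 * (k : ℝ) * M₀ ≤ 2 * (l / 8000) * (T * e) := by gcongr
          have h4 : 1 * (T * e) ≤ l * (T * e) := mul_le_mul_of_nonneg_right hl1 (by positivity)
          linarith
        have hz : 0 ≤ 1 + 2 * (k : ℝ) * M₀ := by positivity
        calc (2 * B₀) ^ k * (1 + 2 * k * M₀) / U ≤ Real.exp (l / 1000) * (3 * l * (T * e)) / (T / l ^ 3) := by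
              apply div_le_div₀ (by positivity) _ (by positivity) hU4
              exact mul_le_mul h1 h2 hz (Real.exp_pos _).le
          _ = 3 * l ^ 4 * (Real.exp (l / 1000) * e) := by
              field_simp
          _ ≤ Real.exp (1 / 1000 * l) * (Real.exp (l / 1000) * e) := mul_le_mul_of_nonneg_right hF1 (by positivity)
          _ = Real.exp (1 / 1000 * l + (l / 1000 + -(l / 80))) := by rw [he, Real.exp_add, Real.exp_add]
          _ ≤ Real.exp (-(l / 100)) := Real.exp_le_exp.2 (by linarith)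
      linarith
    exact hgood
  · -- the first moment
    have hTr1 : (1 : ℝ) ≤ T := by exact_mod_cast hTpos
    have hWTpos : (0 : ℝ) < W * T := by positivity
    have hlogT1 : 100 * l ≤ Real.log T := by
      rw [← Real.log_exp (100 * l)]
      exact Real.log_le_log (Real.exp_pos _) hTl
    have hlogT0 : 0 < Real.log T := by linarith
    have hlogWT1 : Real.log T ≤ Real.log (W * T) := Real.log_le_log hT0 (le_mul_of_one_le_left hT0.le hW1)
    have hlogWT0 : 0 < Real.log (W * T) := by linarith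
    have hlogW : Real.log W ≤ l / 700 := by
      rw [← Real.log_exp (l / 700)]
      exact Real.log_le_log hW0 hWl
    have hlogWT2 : Real.log (W * T) ≤ 2 * Real.log T := by
      rw [Real.log_mul hW0.ne' hT0.ne']
      linarith
    have hLWT : L ≤ Real.log (W * T) + 2 := by
      have h1 : ((2 * (y + 1) : ℕ) : ℝ) ≤ (W * T) * Real.exp 2 := by
        push_cast
        have h2 : (4 : ℝ) ≤ Real.exp 2 := by
          have := Real.exp_one_gt_d9
          rw [show (2 : ℝ) = 1 + 1 by norm_num, Real.exp_add]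
          nlinarith only [this]
        have h3 : (W : ℝ) * T + W ≤ W * (2 * T) := by nlinarith only [hTr1, hW0]
        nlinarith only [h2, h3, hWT2, hWTpos]
      have h2 := Real.log_le_log (by positivity) h1
      rwa [Real.log_mul hWTpos.ne' (Real.exp_pos _).ne', Real.log_exp] at h2
    set G : ℝ := (1 + C₁ * η) * ((W : ℝ) / Nat.totient W) * (T / Real.log (W * T)) with hG
    have hG0 : 0 < G := by positivity
    have hup := up_adm (k := k) (w := w) (W := W) (T := T) (J := J) (U := U) (y := y) (G := G) (C₀ := 2 * C₂) (B₀ := B₀)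
      (β := Real.exp (2 * C₂ * x)) hW hw2' hT (by exact_mod_cast hJU2) hJ0 hUpos hG0.le (by positivity) hB₀0 B
      (fun j hj b hb => (hFBE j hj).2.2.2.2.1 b hb) (fun j hj => hpow j hj (2 * C₂) (by positivity)) ?_ ?_
    · refine hup.trans ?_
      -- the three factors
      have g1 : B₀ ^ k * w / (J * U) ≤ η := by
        have h1 : B₀ ^ k ≤ Real.exp (l / 1000) := by
          calc B₀ ^ k ≤ (2 * l ^ 2) ^ k := pow_le_pow_left₀ hB₀0.le (by nlinarith only [hB₀L, hL2, sq_nonneg l]) k
            _ = Real.exp (k * Real.log (2 * l ^ 2)) := by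
                rw [Real.exp_nat_mul, Real.exp_log (by positivity)]
            _ ≤ Real.exp (l / 1000) := Real.exp_le_exp.2 hk
        have h2 : Real.exp (100 * l) / 2 ≤ J * U := by
          have h3 : (U : ℝ) * 2 ≤ T := by nlinarith only [hUL, hL1, hl1e4, hUpos', hη2, hT0]
          linarith
        rw [div_le_iff₀ (by positivity)]
        have h3 : B₀ ^ k * w ≤ Real.exp (l / 1000) * l := mul_le_mul h1 (by linarith) (by positivity) (Real.exp_pos _).le
        have h4 : l ^ 4 ≤ Real.exp l := hF2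
        have h5 : Real.exp (l / 1000) * (l * l * 2) ≤ Real.exp (100 * l) := by
          have h6 : l * l * 2 ≤ l ^ 4 := by nlinarith only [hl1e4, mul_le_mul hl1e4 hl1e4 (by norm_num) hl0.le, sq_nonneg l]
          calc Real.exp (l / 1000) * (l * l * 2) ≤ Real.exp (l / 1000) * Real.exp l := by gcongr; linarith
            _ = Real.exp (l / 1000 + l) := (Real.exp_add _ _).symm
            _ ≤ _ := Real.exp_le_exp.2 (by linarith)
        have h7 : 1 ≤ η * l := by linarith
        have h8 : Real.exp (l / 1000) * l ≤ η * (Real.exp (100 * l) / 2) := by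
          have h9 : Real.exp (l / 1000) * l * 1 ≤ Real.exp (l / 1000) * l * (η * l) := mul_le_mul_of_nonneg_left h7 (by positivity)
          have h10 := mul_le_mul_of_nonneg_left h5 hη.le
          nlinarith only [h9, h10]
        have h9 := mul_le_mul_of_nonneg_left h2 hη.le
        linarith
      have g2 : ((J : ℝ) + 2) / J ≤ Real.exp η := by
        have h1 := Real.add_one_le_exp η
        refine le_trans ?_ h1
        rw [div_le_iff₀ hJ0r]
        rw [div_le_iff₀ hη] at hJ2
        linarith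
      have g3 : (B₀ * (G + U)) ^ k ≤ (T : ℝ) ^ k * Real.exp (k * ((2 * C₁ + 2) * η)) := by
        have h1 : B₀ * G = (1 + C₁ * η) * (L / Real.log (W * T)) * T := by
          rw [hB₀, hG]
          field_simp
        have h2 : L / Real.log (W * T) ≤ 1 + η / 100 := by
          rw [div_le_iff₀ hlogWT0]
          have h3 : 2 ≤ η / 100 * Real.log (W * T) := by
            have h4 : 100 * l ≤ Real.log (W * T) := by linarith
            have h5 := mul_le_mul_of_nonneg_left h4 (show 0 ≤ η / 100 by positivity)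
            linarith
          linarith
        have h3 : B₀ * U ≤ η * T := by nlinarith only [hUB, hB₀0]
        have h4 : B₀ * (G + U) ≤ T * (1 + (2 * C₁ + 2) * η) := by
          rw [mul_add, h1]
          have h5 : (1 + C₁ * η) * (L / Real.log (W * T)) ≤ (1 + C₁ * η) * (1 + η / 100) := mul_le_mul_of_nonneg_left h2 (by positivity)
          have h6 : (1 + C₁ * η) * (1 + η / 100) ≤ 1 + (2 * C₁ + 1) * η := by
            nlinarith only [hη, hη2, hC₁, mul_pos hC₁0 hη, mul_le_mul_of_nonneg_left hη2 (mul_pos hC₁0 hη).le]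
          have h7 := mul_le_mul_of_nonneg_right (h5.trans h6) hT0.le
          nlinarith only [h7, h3]
        calc (B₀ * (G + U)) ^ k ≤ (T * (1 + (2 * C₁ + 2) * η)) ^ k := pow_le_pow_left₀ (by positivity) h4 k
          _ = (T : ℝ) ^ k * (1 + (2 * C₁ + 2) * η) ^ k := by rw [mul_pow]
          _ ≤ (T : ℝ) ^ k * Real.exp (k * ((2 * C₁ + 2) * η)) := by
              apply mul_le_mul_of_nonneg_left _ (by positivity)
              rw [Real.exp_nat_mul]
              apply pow_le_pow_left₀ (by positivity)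
              have := Real.add_one_le_exp ((2 * C₁ + 2) * η)
              linarith
      have hk1r : (1 : ℝ) ≤ k := by exact_mod_cast hk1
      have hηkη : η ≤ k * η := by nlinarith only [hk1r, hη]
      have g4 : η + (k * ((2 * C₁ + 2) * η)) + 2 * C₂ * x ≤ 5 / 16 * σ + 1 / 4 * σ := by
        have h1 : (k : ℝ) * ((2 * C₁ + 2) * η) = (2 * C₁ + 2) * (k * η) := by ring
        have h2 : η + (2 * C₁ + 2) * (k * η) ≤ (5 * C₁) * (k * η) := by nlinarith only [hηkη, hC₁, mul_nonneg hk0 hη.le]
        have h3 : (5 * C₁) * (k * η) ≤ 5 / 16 * σ := by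
          have h4 := mul_le_mul_of_nonneg_left hkηs (show 0 ≤ 5 * C₁ by positivity)
          have h5 : 5 * C₁ * (σ / (16 * C₁ * C₂)) ≤ 5 / 16 * σ := by
            have h6 : 5 * C₁ * (σ / (16 * C₁ * C₂)) = 5 / 16 * (σ / C₂) := by field_simp
            rw [h6]
            have h7 : σ / C₂ ≤ σ := div_le_self hσ0 hC₂
            linarith
          linarith
        rw [h1]
        linarith
      have g5 : η ≤ σ / 16 := by
        have h5 : σ / (16 * C₁ * C₂) ≤ σ / 16 := by
          apply div_le_div_of_nonneg_left hσ0 (by norm_num)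
          nlinarith only [hC₁, hC₂]
        linarith
      have g6 : ((J : ℝ) + 2) / J * (B₀ * (G + U)) ^ k * Real.exp (2 * C₂ * x) ≤ (T : ℝ) ^ k * (1 + 15 / 16 * σ) := by
        have hBG : 0 ≤ (B₀ * (G + U)) ^ k := by positivity
        calc ((J : ℝ) + 2) / J * (B₀ * (G + U)) ^ k * Real.exp (2 * C₂ * x) ≤
              Real.exp η * ((T : ℝ) ^ k * Real.exp (k * ((2 * C₁ + 2) * η))) * Real.exp (2 * C₂ * x) := by gcongr
          _ = (T : ℝ) ^ k * Real.exp (η + (k * ((2 * C₁ + 2) * η)) + 2 * C₂ * x) := by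
              rw [Real.exp_add, Real.exp_add]; ring
          _ ≤ (T : ℝ) ^ k * (1 + 15 / 16 * σ) := by
              apply mul_le_mul_of_nonneg_left _ (by positivity)
              have h1 : 0 ≤ η + (k * ((2 * C₁ + 2) * η)) + 2 * C₂ * x := by positivity
              have h2 : η + (k * ((2 * C₁ + 2) * η)) + 2 * C₂ * x ≤ 1 := by linarith
              have h3 := exp_le_quad h1 h2
              nlinarith only [h3, g4, hσ0, hσ1, h1]
      have g7 : B₀ ^ k * w / (J * U) * (T : ℝ) ^ k ≤ σ / 16 * (T : ℝ) ^ k := mul_le_mul_of_nonneg_right (g1.trans g5) (by positivity)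
      calc (B₀ ^ k * w / (J * U) * (T : ℝ) ^ k + (J + 2) / J * (B₀ * (G + U)) ^ k * Real.exp (2 * C₂ * x)) * (AdmZ k W).card ≤
            (σ / 16 * (T : ℝ) ^ k + (T : ℝ) ^ k * (1 + 15 / 16 * σ)) * (AdmZ k W).card := by gcongr
        _ = _ := by ring
    · intro j hj b hb hbB
      obtain ⟨f1, f2, f3, f4, f5, f6, f7, f8⟩ := hFBE j hj
      refine (f8 b hb hbB).trans ?_
      rw [hG]
      apply mul_le_mul_of_nonneg_left _ (by positivity)
      apply div_le_div_of_nonneg_left hT0.le hlogWT0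
      apply Real.log_le_log hWTpos
      push_cast
      have : (0 : ℝ) ≤ W * (j * U) := by positivity
      linarith
    · intro b hb v
      have hcop : (b.val + W * v).Coprime W := by
        have h1 : IsUnit ((b.val : ℕ) : ZMod W) := by rwa [ZMod.natCast_zmod_val]
        have h2 := (ZMod.isUnit_iff_coprime b.val W).1 h1
        rwa [Nat.coprime_add_mul_left_left]
      have hT2 : 2 ≤ T := by omega
      have h1 := hBT W (b.val + W * v) T hWpos hcop hT2
      have h2 : (range T).filter (fun s => (b.val + W * (v + s)).Prime) = (range T).filter (fun t => (b.val + W * v + W * t).Prime) := by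
        apply filter_congr
        intro t _
        rw [mul_add, ← add_assoc]
      rw [h2]
      refine h1.trans ?_
      rw [hG]
      have h3 : T / Real.log T ≤ 2 * (T / Real.log (W * T)) := by
        rw [← mul_div_assoc, div_le_div_iff₀ hlogT0 hlogWT0]
        nlinarith only [hlogWT2, hT0]
      have h4 : (0 : ℝ) ≤ (W : ℝ) / Nat.totient W := by positivity
      have h5 : 0 ≤ T / Real.log (W * T) := by positivity
      calc C₂ * ((W : ℝ) / Nat.totient W) * (T / Real.log T) ≤ C₂ * ((W : ℝ) / Nat.totient W) * (2 * (T / Real.log (W * T))) :=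
            mul_le_mul_of_nonneg_left h3 (by positivity)
        _ ≤ 2 * C₂ * ((1 + C₁ * η) * ((W : ℝ) / Nat.totient W) * (T / Real.log (W * T))) := by
            have h6 : 0 ≤ C₂ * ((W : ℝ) / Nat.totient W) * (T / Real.log (W * T)) * (C₁ * η) := by positivity
            nlinarith only [h6]

end Pool.Agent.J4H81.PT.HW
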