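import Pool.Agent.J4H81.HL.UD
import Pool.Agent.J4H81.HL.UE
import Pool.Agent.J4H81.PT.FCe

/-!
# Hardy-Littlewood for almost all admissible sets: the theorem at a good scale, sharper parameters (helper81)
-/

set_option autoImplicit false

namespace Pool.Agent.J4H81.HL

open Finset
open Pool.Agent.J4H81.PT (VV AdmZ AA admissibleSets)
open Pool.Agent.J4H81.PT.ZF (NoZ good_scales)
open Pool.Agent.J4H81.PT.HW (cntY RR adm_scale)

open Classical in
/-- the parameters: `e ^ 2 = k u / l` -/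
theorem uscale2 (hWIN : S_WIN) {c₀ : ℝ} (hc₀ : 0 < c₀) (hc₀1 : c₀ ≤ 1) : ∃ (c C l₀ : ℝ) (K : ℕ), 0 < c ∧ c ≤ 1 ∧ 1 ≤ C ∧ 100000 ≤ l₀ ∧
    ∀ l u e κ : ℝ, l₀ ≤ l → NoZ c₀ l → 100000 ≤ u → u ^ 4 ≤ l → Real.log l ≤ u → 9 ≤ Real.log l → C ≤ u →
    C * l ^ K ≤ Real.exp (c * u) → C * l ^ K ≤ Real.exp (l / 100) → 20 * e ≤ κ → κ ≤ 1 / 4 → 0 < κ →
    ∀ (y k : ℕ), 3 ≤ y → l * u ≤ Real.log y → Real.log y + 2 ≤ l ^ 2 → 1 ≤ k → 10000 * (k : ℝ) * Real.log l ^ 2 ≤ l →
      0 ≤ e → e ^ 2 = k * u / l → C * e ≤ 1 → e ≤ 1 / 1000 →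
      (((admissibleSets y k).filter (Far y k (4 * κ))).card : ℝ) ≤ 28 * e / κ * ((admissibleSets y k).card : ℝ) := by
  obtain ⟨c, C₁, l₀, K, hc, hc1, hC₁, hl₀, hlow⟩ := adm_scale hWIN hc₀ hc₀1
  refine ⟨c / 2, 2 * C₁, max l₀ 100000, K + 2, by linarith, by linarith, by linarith, le_max_right _ _, ?_⟩
  intro l u e κ hl' hno hu hu4 hlogl hlog9 hCu hE1 hE2 hκ1 hκ hκ0 y k hy3 hlogy1 hlogy2 hk1 hkk4 he0 he2 hCe he1000
  have hl : l₀ ≤ l := (le_max_left _ _).trans hl'
  have hl1e5 : 100000 ≤ l := (le_max_right _ _).trans hl'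
  have hl1e4 : 10000 ≤ l := hl₀.trans hl
  have hl0 : 0 < l := by linarith
  have hl1 : 1 ≤ l := by linarith
  have hu0 : 0 < u := by linarith
  have hu1 : 1 ≤ u := by linarith
  have hk0 : (0 : ℝ) ≤ k := Nat.cast_nonneg _
  have hk1r : (1 : ℝ) ≤ k := by exact_mod_cast hk1
  have hyr : (3 : ℝ) ≤ y := by exact_mod_cast hy3
  have hy0 : (0 : ℝ) < y := by linarith
  have hu2 : u ^ 2 ≤ l := le_trans (pow_le_pow_right₀ hu1 (by norm_num)) hu4
  have hul1 : u ≤ l := le_trans (by nlinarith only [hu1]) hu2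
  have hlog81 : 81 ≤ Real.log l ^ 2 := by nlinarith only [hlog9]
  have hk81 : 810000 * (k : ℝ) ≤ l := by nlinarith only [hkk4, hlog81, hk0]
  have hkl : (k : ℝ) ≤ l := by linarith
  have hlogk : 90000 * (k : ℝ) * Real.log l ≤ l := by nlinarith only [hkk4, hlog9, hk0, mul_nonneg hk0 (by linarith : (0:ℝ) ≤ Real.log l)]
  have hlog4 : 81 * Real.log l ^ 2 ≤ l := by
    have h1 : Real.log l ^ 4 ≤ u ^ 4 := pow_le_pow_left₀ (by linarith) hlogl 4
    have h2 : 81 * Real.log l ^ 2 ≤ Real.log l ^ 4 := by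
      have h3 : Real.log l ^ 4 = Real.log l ^ 2 * Real.log l ^ 2 := by ring
      rw [h3]
      exact mul_le_mul_of_nonneg_right hlog81 (sq_nonneg _)
    linarith
  have he21 : e ^ 2 ≤ e := by nlinarith only [he0, he1000]
  have hle2 : 1 / l ≤ e ^ 2 := by
    rw [he2]
    apply div_le_div_of_nonneg_right _ hl0.le
    nlinarith only [hk1r, hu1]
  have hle : 1 / l ≤ e := hle2.trans he21
  have hkle : (k : ℝ) / l ≤ e ^ 2 / 100000 := by
    rw [he2, div_div, div_le_div_iff₀ hl0 (by positivity)]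
    nlinarith only [hu, hl0, mul_nonneg hk0 hl0.le, mul_le_mul_of_nonneg_left hu (mul_nonneg hk0 hl0.le)]
  have hlu : 100 * l ≤ l * u := by nlinarith only [hl0, hu]
  have hlogy101 : 101 * l ≤ Real.log y := by nlinarith only [hlogy1, hl0, hu]
  have hlogy0 : 0 < Real.log y := by linarith
  have hexpy : Real.exp (101 * l) ≤ y := by
    rw [← Real.le_log_iff_exp_le hy0]
    exact hlogy101
  set η : ℝ := u / l with hη
  have hη0 : 0 < η := by positivity
  set w : ℕ := ⌊l / 1000⌋₊ with hw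
  have hw1 : (w : ℝ) ≤ l / 1000 := Nat.floor_le (by positivity)
  have hw2 : l / 1000 < w + 1 := Nat.lt_floor_add_one _
  have hw3 : l / 2000 ≤ w := by linarith
  set W : ℕ := primorial w with hW
  have hWpos : 0 < W := primorial_pos w
  haveI : NeZero W := ⟨hWpos.ne'⟩
  have hW0 : (0 : ℝ) < W := by exact_mod_cast hWpos
  have hWl : (W : ℝ) ≤ Real.exp (l / 700) := by
    have h1 : (W : ℝ) ≤ (4 : ℝ) ^ w := by exact_mod_cast primorial_le_four_pow w
    have h2 : (4 : ℝ) ^ w = Real.exp (w * (2 * Real.log 2)) := by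
      rw [Real.exp_nat_mul, show 2 * Real.log 2 = Real.log (2 ^ 2) by rw [Real.log_pow]; norm_num, Real.exp_log (by norm_num)]
      norm_num
    rw [h2] at h1
    refine h1.trans (Real.exp_le_exp.2 ?_)
    have h3 := Real.log_two_lt_d9
    have h4 : (w : ℝ) * (2 * Real.log 2) ≤ (l / 1000) * (2 * 0.6931471808) := by gcongr
    linarith
  set T : ℕ := (y + 1) / W with hT
  have hmod : W * T + (y + 1) % W = y + 1 := Nat.div_add_mod (y + 1) W
  have hmodlt : (y + 1) % W < W := Nat.mod_lt _ hWpos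
  have hWT : W * T ≤ y + 1 := by omega
  have hWTr : (W : ℝ) * T ≤ y + 1 := by exact_mod_cast hWT
  have hWT2 : (y : ℝ) + 1 ≤ W * T + W := by exact_mod_cast (by omega : y + 1 ≤ W * T + W)
  have he1 : (2 : ℝ) ≤ Real.exp (l / 50) := by
    have := Real.add_one_le_exp (l / 50)
    linarith
  -- T is large
  have hyhalf : (y : ℝ) / 2 ≤ W * T := by
    have h1 : Real.exp (l / 700) ≤ Real.exp (101 * l) / 2 := by
      have h2 : Real.exp (101 * l) = Real.exp (l / 50) * Real.exp (101 * l - l / 50) := by rw [← Real.exp_add]; congr 1; ring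
      have h3 : Real.exp (l / 700) ≤ Real.exp (101 * l - l / 50) := Real.exp_le_exp.2 (by linarith)
      rw [h2]
      have h4 := Real.exp_pos (101 * l - l / 50)
      nlinarith only [h3, h4, he1]
    linarith
  have hTl : Real.exp (100 * l) ≤ T := by
    by_contra hcon
    push Not at hcon
    have h1 : (W : ℝ) * T ≤ Real.exp (l / 700) * Real.exp (100 * l) := mul_le_mul hWl hcon.le (Nat.cast_nonneg _) (Real.exp_pos _).le
    have h2 : Real.exp (l / 700) * Real.exp (100 * l) < Real.exp (101 * l) / 2 := by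
      have h3 : Real.exp (101 * l) = Real.exp (l / 50) * Real.exp (101 * l - l / 50) := by rw [← Real.exp_add]; congr 1; ring
      have h4 : Real.exp (l / 700) * Real.exp (100 * l) < Real.exp (101 * l - l / 50) := by
        rw [← Real.exp_add]; exact Real.exp_lt_exp.2 (by linarith)
      have h7 := Real.exp_pos (101 * l - l / 50)
      rw [h3]
      nlinarith only [h4, h7, he1, mul_le_mul_of_nonneg_right he1 h7.le]
    linarith
  have hT0 : (0 : ℝ) < T := lt_of_lt_of_le (Real.exp_pos _) hTl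
  have hTpos : 1 ≤ T := by exact_mod_cast hT0
  have hlogT : 100 * l ≤ Real.log T := by
    rw [← Real.log_exp (100 * l)]
    exact Real.log_le_log (Real.exp_pos _) hTl
  -- z
  set z : ℕ := ⌈l ^ 6⌉₊ with hz
  have hz1 : l ^ 6 ≤ z := Nat.le_ceil _
  have hl6 : (1 : ℝ) ≤ l ^ 6 := one_le_pow₀ hl1
  have hz2 : (z : ℝ) ≤ 2 * l ^ 6 := by
    have h1 : (z : ℝ) < l ^ 6 + 1 := Nat.ceil_lt_add_one (by positivity)
    linarith
  have hz0 : (0 : ℝ) < z := by linarith
  have hlz0 : (0 : ℝ) ≤ Real.log z := Real.log_nonneg (by linarith)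
  have hlogl0 : 0 ≤ Real.log l := Real.log_nonneg hl1
  have hlogz : 1 + Real.log z ≤ 8 * Real.log l := by
    have h1 : Real.log z ≤ Real.log (2 * l ^ 6) := Real.log_le_log hz0 hz2
    rw [Real.log_mul (by norm_num) (by positivity), Real.log_pow] at h1
    have h2 := Real.log_two_lt_d9
    push_cast at h1
    linarith
  have hlogz3 : 1 ≤ Real.log z := by
    rw [Real.le_log_iff_exp_le hz0]
    have h1 := Real.exp_one_lt_d9
    have h2 : l ≤ l ^ 6 := le_self_pow₀ hl1 (by norm_num)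
    linarith
  have hz3 : 3 ≤ z := by
    have h2 : l ≤ l ^ 6 := le_self_pow₀ hl1 (by norm_num)
    have : (3 : ℝ) ≤ z := by linarith
    exact_mod_cast this
  have hwz : w ≤ z := by
    have h2 : l ≤ l ^ 6 := le_self_pow₀ hl1 (by norm_num)
    have : (w : ℝ) ≤ z := by linarith
    exact_mod_cast this
  have hkw : 2 * k ≤ w := by
    have h2 : (2 * k : ℝ) ≤ w := by linarith
    exact_mod_cast h2
  have hloghyp : 100 * (k : ℝ) * (1 + Real.log z) ^ 2 ≤ Real.log T := by
    have h1 : (1 + Real.log z) ^ 2 ≤ (8 * Real.log l) ^ 2 := pow_le_pow_left₀ (by linarith) hlogz 2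
    have h2 : 100 * (k : ℝ) * (1 + Real.log z) ^ 2 ≤ 100 * (k : ℝ) * (8 * Real.log l) ^ 2 := by gcongr
    have h3 : 100 * (k : ℝ) * (8 * Real.log l) ^ 2 = 6400 * k * Real.log l ^ 2 := by ring
    have h4 : 0 ≤ (k : ℝ) * Real.log l ^ 2 := by positivity
    linarith
  set E : ℝ := 5 * e with hE
  have hE0 : 0 ≤ E := by positivity
  have hE8 : E ≤ 1 / 8 := by linarith
  have hlE : 1 / l ≤ E := by linarith
  -- logarithm
  have hLy : Real.log (2 * (y + 1) : ℕ) ≤ Real.log y + 2 := by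
    have h1 : ((2 * (y + 1) : ℕ) : ℝ) ≤ y * Real.exp 2 := by
      push_cast
      have h2 : (4 : ℝ) ≤ Real.exp 2 := by
        have := Real.exp_one_gt_d9
        rw [show (2 : ℝ) = 1 + 1 by norm_num, Real.exp_add]
        nlinarith only [this]
      nlinarith only [h2, hyr]
    have h2 := Real.log_le_log (by positivity) h1
    rwa [Real.log_mul hy0.ne' (Real.exp_pos _).ne', Real.log_exp] at h2
  have hLy3 : Real.log (3 * (y + 1) : ℕ) ≤ Real.log y + 2 := by
    have h1 : ((3 * (y + 1) : ℕ) : ℝ) ≤ y * Real.exp 2 := by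
      push_cast
      have h2 : (4 : ℝ) ≤ Real.exp 2 := by
        have := Real.exp_one_gt_d9
        rw [show (2 : ℝ) = 1 + 1 by norm_num, Real.exp_add]
        nlinarith only [this]
      nlinarith only [h2, hyr]
    have h2 := Real.log_le_log (by positivity) h1
    rwa [Real.log_mul hy0.ne' (Real.exp_pos _).ne', Real.log_exp] at h2
  have hLy0 : Real.log y ≤ Real.log (2 * (y + 1) : ℕ) := by
    apply Real.log_le_log hy0
    push_cast
    linarith
  -- the lower bound
  have hη2 : η ≤ 1 / 2 := by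
    rw [hη, div_le_iff₀ hl0]
    nlinarith only [hu2, hu]
  have hcond2 : 24 / η + 2 ≤ l / 1000 := by
    have h1 : 24 / η = 24 * l * (1 / u) := by rw [hη]; field_simp
    rw [h1]
    have h2 : 1 / u ≤ 1 / 100000 := one_div_le_one_div_of_le (by norm_num) hu
    have h3 : 24 * l * (1 / u) ≤ 24 * l * (1 / 100000) := mul_le_mul_of_nonneg_left h2 (by positivity)
    linarith
  have hcond3 : 4 * (k : ℝ) * η ≤ 1 := by
    have h1 : (k : ℝ) * η = e ^ 2 := by rw [he2, hη]; ring
    have h2 : 4 * (k : ℝ) * η = 4 * (k * η) := by ring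
    rw [h2, h1]
    linarith
  have hcond4 : (k : ℝ) * Real.log (2 * l ^ 2) ≤ l / 1000 := by
    have h1 : Real.log (2 * l ^ 2) ≤ 3 * Real.log l := by
      rw [Real.log_mul (by norm_num) (by positivity), Real.log_pow]
      have : Real.log 2 ≤ Real.log l := Real.log_le_log (by norm_num) (by linarith)
      push_cast
      linarith
    have h2 := mul_le_mul_of_nonneg_left h1 hk0
    linarith
  have hkη : (k : ℝ) * η = e ^ 2 := by rw [he2, hη]; ring
  have hexpl : Real.exp (-(l / 100)) ≤ e ^ 2 := by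
    refine le_trans ?_ hle2
    have h1 := Real.quadratic_le_exp_of_nonneg (show 0 ≤ l / 100 by positivity)
    rw [Real.exp_neg, ← one_div]
    apply one_div_le_one_div_of_le hl0
    nlinarith only [h1, hl1e5]
  have hEκ : E ≤ κ / 4 := by linarith
  have hlogη : Real.log l ≤ η * l := by
    have h1 : η * l = u := by rw [hη]; field_simp
    rw [h1]
    exact hlogl
  -- the small parameter
  set σ : ℝ := C₁ * (k * η + k * (l ^ K * (Real.exp (-(c * Real.log y / (2 * l))) + Real.exp (-(l / 100))))) with hσ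
  have hσu : σ ≤ e := by
    have h1 : C₁ * (k * η) ≤ e / 2 := by
      rw [hkη]
      nlinarith only [hCe, he0, mul_nonneg he0 he0]
    have hpw : ∀ t : ℝ, 0 < t → (2 * C₁) * l ^ (K + 2) ≤ t → C₁ * (k * (l ^ K * t⁻¹)) ≤ 1 / (4 * l) := by
      intro t ht h
      have h3 : C₁ * (k * (l ^ K * t⁻¹)) = (C₁ * (k * l ^ K)) / t := by rw [div_eq_mul_inv]; ring
      rw [h3, div_le_div_iff₀ ht (by positivity)]
      have hlK : 0 ≤ l ^ K := by positivity
      have h5 : (k : ℝ) * 4 ≤ l := by linarith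
      have h4 : C₁ * (k * l ^ K) * (4 * l) = C₁ * (k * 4) * (l ^ K * l) := by ring
      have h6 : C₁ * (k * 4) * (l ^ K * l) ≤ C₁ * l * (l ^ K * l) := by gcongr
      have h7 : C₁ * l * (l ^ K * l) = C₁ * l ^ (K + 2) := by rw [pow_add]; ring
      have h8 : C₁ * l ^ (K + 2) ≤ 2 * C₁ * l ^ (K + 2) := by
        have : 0 ≤ C₁ * l ^ (K + 2) := by positivity
        linarith
      linarith
    have h2 : C₁ * (k * (l ^ K * Real.exp (-(c * Real.log y / (2 * l))))) ≤ 1 / (4 * l) := by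
      have h4 : Real.exp (-(c * Real.log y / (2 * l))) ≤ (Real.exp (c / 2 * u))⁻¹ := by
        rw [← Real.exp_neg]
        apply Real.exp_le_exp.2
        rw [neg_le_neg_iff, le_div_iff₀ (by positivity)]
        have h5 : c / 2 * u * (2 * l) = c * (l * u) := by ring
        rw [h5]
        exact mul_le_mul_of_nonneg_left hlogy1 hc.le
      have h5 : C₁ * (k * (l ^ K * Real.exp (-(c * Real.log y / (2 * l))))) ≤ C₁ * (k * (l ^ K * (Real.exp (c / 2 * u))⁻¹)) := by gcongr
      exact h5.trans (hpw _ (Real.exp_pos _) hE1)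
    have h3 : C₁ * (k * (l ^ K * Real.exp (-(l / 100)))) ≤ 1 / (4 * l) := by
      rw [Real.exp_neg]
      exact hpw _ (Real.exp_pos _) hE2
    have h4 : 1 / (4 * l) + 1 / (4 * l) ≤ e / 2 := by
      have h6 : 1 / (4 * l) + 1 / (4 * l) = 1 / 2 * (1 / l) := by field_simp; norm_num
      rw [h6]
      linarith
    have h5 : σ = C₁ * (k * η) + (C₁ * (k * (l ^ K * Real.exp (-(c * Real.log y / (2 * l))))) + C₁ * (k * (l ^ K * Real.exp (-(l / 100))))) := by
      rw [hσ]; ring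
    rw [h5]
    linarith
  have hσ0 : 0 ≤ σ := by positivity
  obtain ⟨J, U, hJ0, hU0, hM1, hM2, hLo, hUp⟩ := hlow l hl hno y k T w W η ((Nat.totient W : ℝ) / W * Real.log (2 * (y + 1) : ℕ)) σ rfl rfl rfl
    hη0 hη2 hcond2 hlogη hcond3 hcond4 hexpy (hLy3.trans hlogy2) hk1 rfl rfl (by linarith)
  -- the square root
  have hroot : Real.sqrt (8 * (k : ℝ) * η + 8000 * k / l + Real.exp (-(l / 100))) ≤ 4 * e := by
    have h1 : 8 * (k : ℝ) * η + 8000 * k / l + Real.exp (-(l / 100)) ≤ (4 * e) ^ 2 := by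
      have h3 : 8000 * (k : ℝ) / l = 8000 * (k / l) := by ring
      have h4 : 8 * (k : ℝ) * η = 8 * (k * η) := by ring
      have h5 : 0 ≤ e ^ 2 := by positivity
      rw [h3, h4, hkη]
      linarith
    calc Real.sqrt (8 * (k : ℝ) * η + 8000 * k / l + Real.exp (-(l / 100))) ≤ Real.sqrt ((4 * e) ^ 2) := Real.sqrt_le_sqrt h1
      _ = 4 * e := Real.sqrt_sq (by positivity)
  have hM0 : (0 : ℝ) ≤ W * (J * U) := by positivity
  have hinst := uni_inst (k := k) (w := w) (z := z) (y := y) (T := T) (W := W) (J := J) (U := U) (E := E) (E' := 2 * e) (κ := κ)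
    (εL := Real.sqrt (8 * k * η + 8000 * k / l + Real.exp (-(l / 100))) + σ) (εU := σ)
    hk1 hW hT hkw hwz hz3 hTpos hloghyp hy3 hJ0 hU0 rfl hE0 hEκ hκ hκ0 ?_ ?_ ?_ ?_ hLo hUp hσ0 (by positivity)
  · -- the end
    have hkT : (k : ℝ) ^ 2 / T ≤ 1 / l := by
      rw [div_le_div_iff₀ hT0 hl0]
      have h1 : (k : ℝ) ^ 2 ≤ l ^ 2 := pow_le_pow_left₀ hk0 hkl 2
      have h2 : l ^ 2 * l ≤ Real.exp (100 * l) := by
        have h3 := Real.add_one_le_exp l
        have h4 : l ^ 3 ≤ Real.exp l ^ 3 := pow_le_pow_left₀ hl0.le (by linarith) 3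
        have h5 : Real.exp l ^ 3 = Real.exp (3 * l) := by rw [← Real.exp_nat_mul]; norm_num
        have h6 : Real.exp (3 * l) ≤ Real.exp (100 * l) := Real.exp_le_exp.2 (by linarith)
        calc l ^ 2 * l = l ^ 3 := by ring
          _ ≤ _ := by linarith
      have h3 : (k : ℝ) ^ 2 * l ≤ l ^ 2 * l := mul_le_mul_of_nonneg_right h1 hl0.le
      linarith
    have hkT1 : (k : ℝ) / T ≤ 1 / l := by
      refine le_trans (div_le_div_of_nonneg_right ?_ hT0.le) hkT
      nlinarith only [hk1r]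
    have hA0 : (0 : ℝ) ≤ ((admissibleSets y k).card : ℝ) := Nat.cast_nonneg _
    have hF0 : (0 : ℝ) ≤ (((admissibleSets y k).filter (Far y k (4 * κ))).card : ℝ) := Nat.cast_nonneg _
    have h1 : (σ + 2 * (Real.sqrt (8 * k * η + 8000 * k / l + Real.exp (-(l / 100))) + σ) + 2 * e) / κ ≤ 13 * e / κ :=
      div_le_div_of_nonneg_right (by linarith) hκ0.le
    have h2 : (k : ℝ) / T ≤ e / κ := by
      refine hkT1.trans (hle.trans ?_)
      rw [le_div_iff₀ hκ0]
      nlinarith only [he0, hκ]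
    have h3 : (1 / 2 : ℝ) * (((admissibleSets y k).filter (Far y k (4 * κ))).card : ℝ) ≤
        (1 - (k : ℝ) ^ 2 / T) * (((admissibleSets y k).filter (Far y k (4 * κ))).card : ℝ) :=
      mul_le_mul_of_nonneg_right (by linarith) hF0
    have h4 : ((σ + 2 * (Real.sqrt (8 * k * η + 8000 * k / l + Real.exp (-(l / 100))) + σ) + 2 * e) / κ + k / T) * ((admissibleSets y k).card : ℝ) ≤
        (13 * e / κ + e / κ) * ((admissibleSets y k).card : ℝ) := mul_le_mul_of_nonneg_right (add_le_add h1 h2) hA0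
    have h5 := (h3.trans hinst).trans h4
    have h6 : 28 * e / κ = 2 * (13 * e / κ + e / κ) := by ring
    rw [h6, mul_assoc]
    linarith
  · -- (a)
    refine le_trans ?_ hlE
    rw [div_le_div_iff₀ hz0 hl0]
    have h2 : 1 + Real.log y ≤ l ^ 2 := by linarith
    have h3 : 4 * (k : ℝ) ^ 2 * (1 + Real.log y) ≤ 4 * l ^ 2 * l ^ 2 := by gcongr
    have h4 : 4 * (k : ℝ) ^ 2 * (1 + Real.log y) * l ≤ 4 * l ^ 2 * l ^ 2 * l := mul_le_mul_of_nonneg_right h3 hl0.le
    have h5 : 4 * l ^ 2 * l ^ 2 * l ≤ l ^ 6 := by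
      have h6 : l ^ 6 = l * (l ^ 2 * l ^ 2 * l) := by ring
      have h7 : 0 ≤ l ^ 2 * l ^ 2 * l := by positivity
      rw [h6]
      nlinarith only [h7, hl1e5, mul_le_mul_of_nonneg_right hl1e5 h7]
    linarith
  · -- (b)
    have h1 : 8 * (k : ℝ) ^ 2 / (w : ℝ) ^ 2 ≤ e ^ 2 := by
      have hw0 : (0 : ℝ) < w := by linarith
      have h2 : (k : ℝ) / w ≤ e ^ 2 / 50 := by
        have h3 : (k : ℝ) / w ≤ 2000 * (k / l) := by
          rw [mul_div_assoc', div_le_div_iff₀ hw0 hl0]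
          nlinarith only [hw3, hk0, mul_le_mul_of_nonneg_left hw3 hk0]
        linarith
      have h3 : 8 * (k : ℝ) ^ 2 / (w : ℝ) ^ 2 = 8 * ((k : ℝ) / w) ^ 2 := by rw [div_pow]; ring
      rw [h3]
      have h4 : ((k : ℝ) / w) ^ 2 ≤ (e ^ 2 / 50) ^ 2 := pow_le_pow_left₀ (by positivity) h2 2
      have h5 : (e ^ 2 / 50) ^ 2 = e ^ 2 * (e ^ 2 / 2500) := by ring
      have h6 : e ^ 2 * (e ^ 2 / 2500) ≤ e ^ 2 * (1 / 8) := mul_le_mul_of_nonneg_left (by linarith) (sq_nonneg e)
      linarith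
    have h2 : 18 * Real.exp (-(Real.log T / (2 * Real.log z))) ≤ e ^ 2 := by
      refine le_trans ?_ hle2
      have h3 : 2 * Real.log l ≤ Real.log T / (2 * Real.log z) := by
        rw [le_div_iff₀ (by linarith)]
        have h4 : 2 * Real.log l * (2 * Real.log z) ≤ 2 * Real.log l * (2 * (8 * Real.log l)) := by gcongr; linarith
        nlinarith only [h4, hlogT, hlog4]
      have h4 : Real.exp (-(Real.log T / (2 * Real.log z))) ≤ Real.exp (-(2 * Real.log l)) := Real.exp_le_exp.2 (by linarith)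
      have h5 : Real.exp (2 * Real.log l) = l ^ 2 := by
        rw [show 2 * Real.log l = Real.log (l ^ 2) by rw [Real.log_pow]; norm_num, Real.exp_log (by positivity)]
      have h7 : Real.exp (-(2 * Real.log l)) = (l ^ 2)⁻¹ := by rw [Real.exp_neg, h5]
      rw [h7] at h4
      have h6 : 18 * (l ^ 2)⁻¹ ≤ 1 / l := by
        rw [← div_eq_mul_inv, div_le_div_iff₀ (by positivity) hl0]
        nlinarith only [hl1e5]
      linarith
    have h3 : 8 * (k : ℝ) ^ 2 / (w : ℝ) ^ 2 + 18 * Real.exp (-(Real.log T / (2 * Real.log z))) ≤ (2 * e) ^ 2 := by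
      have h5 : 0 ≤ e ^ 2 := by positivity
      nlinarith only [h1, h2, h5]
    calc Real.sqrt (8 * (k : ℝ) ^ 2 / (w : ℝ) ^ 2 + 18 * Real.exp (-(Real.log T / (2 * Real.log z)))) ≤ Real.sqrt ((2 * e) ^ 2) := Real.sqrt_le_sqrt h3
      _ = 2 * e := Real.sqrt_sq (by positivity)
  · -- (c)
    have hL0 : 0 < Real.log (2 * (y + 1) : ℕ) := by linarith
    have h1 := pow_diff hlogy0.le hL0 hLy0 k
    have h2 : (k : ℝ) * ((Real.log (2 * (y + 1) : ℕ) - Real.log y) / Real.log (2 * (y + 1) : ℕ)) ≤ e ^ 2 := by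
      have h3 : (Real.log (2 * (y + 1) : ℕ) - Real.log y) / Real.log (2 * (y + 1) : ℕ) ≤ 2 / (101 * l) :=
        div_le_div₀ (by norm_num) (by linarith) (by positivity) (by linarith)
      have h4 : (k : ℝ) * ((Real.log (2 * (y + 1) : ℕ) - Real.log y) / Real.log (2 * (y + 1) : ℕ)) ≤ k * (2 / (101 * l)) :=
        mul_le_mul_of_nonneg_left h3 hk0
      have h5 : (k : ℝ) * (2 / (101 * l)) = 2 / 101 * (k / l) := by field_simp
      have h6 : 0 ≤ (k : ℝ) / l := by positivity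
      linarith
    have h3 : (1 - E) * Real.log (2 * (y + 1) : ℕ) ^ k * y ≤ Real.log y ^ k * (W * (J * U)) := by
      have h4 : Real.log (2 * (y + 1) : ℕ) ^ k * (1 - e ^ 2) ≤ Real.log y ^ k := by
        refine le_trans ?_ h1
        apply mul_le_mul_of_nonneg_left _ (by positivity)
        linarith
      have h5 : 0 ≤ 1 - e ^ 2 := by linarith
      have h8 : η ≤ e ^ 2 := by rw [← hkη]; nlinarith only [hk1r, hη0]
      have h9 : (Real.log (2 * (y + 1) : ℕ) ^ k * (1 - e ^ 2)) * ((1 - η) * y) ≤ Real.log y ^ k * (W * (J * U)) :=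
        mul_le_mul h4 hM1 (mul_nonneg (by linarith) hy0.le) (by positivity)
      refine le_trans ?_ h9
      have h10 : 1 - E ≤ (1 - e ^ 2) * (1 - η) := by
        have h12 : 0 ≤ e ^ 2 := by positivity
        nlinarith only [he21, he0, h8, hE, h12, hη0, mul_nonneg h12 hη0.le]
      calc (1 - E) * Real.log (2 * (y + 1) : ℕ) ^ k * y = (1 - E) * (Real.log (2 * (y + 1) : ℕ) ^ k * y) := by ring
        _ ≤ ((1 - e ^ 2) * (1 - η)) * (Real.log (2 * (y + 1) : ℕ) ^ k * y) := mul_le_mul_of_nonneg_right h10 (by positivity)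
        _ = _ := by ring
    rw [mul_div_assoc', div_le_div_iff₀ (by positivity) (by positivity)]
    calc (1 - E) * y * Real.log (2 * (y + 1) : ℕ) ^ k = (1 - E) * Real.log (2 * (y + 1) : ℕ) ^ k * y := by ring
      _ ≤ _ := h3
      _ = _ := by ring
  · -- H' ≤ H
    apply div_le_div₀ (by linarith) hM2 (by positivity)
    exact pow_le_pow_left₀ hlogy0.le hLy0 k

end Pool.Agent.J4H81.HL
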