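import Pool.Agent.J4H81.PT.FCb

/-!
# Hardy-Littlewood on average: the choice of the parameters (helper81)
-/

set_option autoImplicit false

namespace Pool.Agent.J4H81.HL

open Finset Filter
open Pool.Agent.J4H81.PT (poly_exp)

/-- the choice of the parameters -/
theorem params {c C : ℝ} (K : ℕ) (hc : 0 < c) (hC : 1 ≤ C) : ∃ A : ℝ, 1 ≤ A ∧ ∃ L : ℝ, ∀ l : ℝ, L ≤ l →
    100000 ≤ l ∧ 100000 ≤ A * Real.log l ∧ (A * Real.log l) ^ 4 ≤ l ∧ 10000 * A * C ≤ Real.log l ∧ C ≤ A * Real.log l ∧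
    C * l ^ K ≤ Real.exp (c * (A * Real.log l)) ∧ C * l ^ K ≤ Real.exp (l / 100) := by
  set A : ℝ := (K + 1) / c + 1 with hA
  have hA1 : 1 ≤ A := by
    have : 0 ≤ ((K : ℝ) + 1) / c := by positivity
    linarith
  have hA0 : 0 < A := by linarith
  refine ⟨A, hA1, ?_⟩
  have h4 : (0 : ℝ) < 1 / 4 := by norm_num
  have hlog := (isLittleO_log_rpow_atTop h4).bound (show (0 : ℝ) < 1 / A by positivity)
  have hev := (Real.tendsto_log_atTop.eventually (eventually_ge_atTop (100000 * A * C))).and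
    (hlog.and ((poly_exp (show (0 : ℝ) < 1 / 100 by norm_num) K C).and (eventually_ge_atTop (max 100000 C))))
  obtain ⟨L, hL⟩ := eventually_atTop.1 hev
  refine ⟨L, fun l hl => ?_⟩
  obtain ⟨g1, g2, g3, g4⟩ := hL l hl
  have hl5 : 100000 ≤ l := (le_max_left _ _).trans g4
  have hlC : C ≤ l := (le_max_right _ _).trans g4
  have hl0 : 0 < l := by linarith
  have hl1 : 1 ≤ l := by linarith
  have hAC : 1 ≤ A * C := one_le_mul_of_one_le_of_one_le hA1 hC
  have hlogl0 : 0 < Real.log l := by nlinarith only [g1, hAC]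
  have hlogA : Real.log l ≤ A * Real.log l := le_mul_of_one_le_left hlogl0.le hA1
  refine ⟨hl5, ?_, ?_, ?_, ?_, ?_, ?_⟩
  · nlinarith only [g1, hAC, hlogA]
  · rw [Real.norm_of_nonneg hlogl0.le, Real.norm_of_nonneg (by positivity)] at g2
    have h1 : A * Real.log l ≤ l ^ (1 / 4 : ℝ) := by
      have h2 := mul_le_mul_of_nonneg_left g2 hA0.le
      refine h2.trans (le_of_eq ?_)
      field_simp
    calc (A * Real.log l) ^ 4 ≤ (l ^ (1 / 4 : ℝ)) ^ 4 := pow_le_pow_left₀ (by positivity) h1 4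
      _ = l := by
          rw [← Real.rpow_natCast, ← Real.rpow_mul hl0.le]
          norm_num
  · nlinarith only [g1, hAC]
  · nlinarith only [g1, hAC, hlogA, hA1, hC, mul_le_mul_of_nonneg_right hA1 (show 0 ≤ C by linarith)]
  · have h1 : c * (A * Real.log l) = ((K : ℝ) + 1) * Real.log l + c * Real.log l := by
      rw [hA]
      field_simp
    have h2 : ((K : ℝ) + 1) * Real.log l ≤ c * (A * Real.log l) := by
      rw [h1]
      have : 0 ≤ c * Real.log l := by positivity
      linarith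
    calc C * l ^ K ≤ l * l ^ K := mul_le_mul_of_nonneg_right hlC (by positivity)
      _ = l ^ (K + 1) := by ring
      _ = Real.exp (((K : ℝ) + 1) * Real.log l) := by
          have : ((K : ℝ) + 1) = ((K + 1 : ℕ) : ℝ) := by push_cast; ring
          rw [this, Real.exp_nat_mul, Real.exp_log hl0]
      _ ≤ _ := Real.exp_le_exp.2 h2
  · convert g3 using 2
    ring

/-- the number of elements and the error at a good scale -/
theorem small_e {A C l u : ℝ} {k : ℕ} (hA : 1 ≤ A) (hC : 1 ≤ C) (hl : 100000 ≤ l) (hu : u = A * Real.log l) (hu5 : 100000 ≤ u)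
    (hlogl : 10000 * A * C ≤ Real.log l) (hk : (k : ℝ) ≤ (l * u) / Real.log (l * u) ^ 4) :
    10000 * (k : ℝ) * Real.log l ^ 2 ≤ l ∧ C * Real.sqrt (k * u / l) ≤ 1 ∧ Real.sqrt (k * u / l) ≤ 1 / 1000 ∧
      Real.sqrt (k * u / l) ≤ A * (Real.log (l * u) * Real.sqrt (k / (l * u))) := by
  have hl0 : 0 < l := by linarith
  have hu0 : 0 < u := by linarith
  have hA0 : 0 < A := by linarith
  have hC0 : 0 < C := by linarith
  have hk0 : (0 : ℝ) ≤ k := Nat.cast_nonneg _
  have hlog0 : 0 < Real.log l := lt_of_lt_of_le (by positivity) hlogl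
  have hlogle : Real.log l ≤ Real.log (l * u) := Real.log_le_log hl0 (by nlinarith only [hl0, hu5])
  have hlog0' : 0 < Real.log (l * u) := by linarith
  have hk4 : (k : ℝ) * Real.log l ^ 4 ≤ l * u := by
    rw [le_div_iff₀ (by positivity)] at hk
    refine le_trans ?_ hk
    gcongr
  have hk3 : (k : ℝ) * Real.log l ^ 3 ≤ l * A := by
    have h1 : ((k : ℝ) * Real.log l ^ 3) * Real.log l ≤ (l * A) * Real.log l := by
      calc ((k : ℝ) * Real.log l ^ 3) * Real.log l = k * Real.log l ^ 4 := by ring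
        _ ≤ l * u := hk4
        _ = (l * A) * Real.log l := by rw [hu]; ring
    exact le_of_mul_le_mul_right h1 hlog0
  have hAC : A ≤ A * C := le_mul_of_one_le_right hA0.le hC
  have hC' : C ≤ A * C := le_mul_of_one_le_left hC0.le hA
  refine ⟨?_, ?_, ?_, ?_⟩
  · have h1 : (10000 * (k : ℝ) * Real.log l ^ 2) * Real.log l ≤ l * Real.log l := by
      calc (10000 * (k : ℝ) * Real.log l ^ 2) * Real.log l = 10000 * (k * Real.log l ^ 3) := by ring
        _ ≤ 10000 * (l * A) := by linarith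
        _ = l * (10000 * A) := by ring
        _ ≤ l * Real.log l := mul_le_mul_of_nonneg_left (by linarith) hl0.le
    exact le_of_mul_le_mul_right h1 hlog0
  · have h1 : (k : ℝ) * u / l ≤ (A / Real.log l) ^ 2 := by
      rw [div_pow, div_le_div_iff₀ hl0 (by positivity), hu]
      calc (k : ℝ) * (A * Real.log l) * Real.log l ^ 2 = A * (k * Real.log l ^ 3) := by ring
        _ ≤ A * (l * A) := mul_le_mul_of_nonneg_left hk3 hA0.le
        _ = A ^ 2 * l := by ring
    have h2 : Real.sqrt (k * u / l) ≤ A / Real.log l := by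
      calc Real.sqrt (k * u / l) ≤ Real.sqrt ((A / Real.log l) ^ 2) := Real.sqrt_le_sqrt h1
        _ = _ := Real.sqrt_sq (by positivity)
    have h3 : C * (A / Real.log l) ≤ 1 := by
      rw [mul_div_assoc', div_le_one hlog0]
      nlinarith only [hlogl, hAC, hA0]
    exact (mul_le_mul_of_nonneg_left h2 hC0.le).trans h3
  · have h1 : (k : ℝ) * u / l ≤ (A / Real.log l) ^ 2 := by
      rw [div_pow, div_le_div_iff₀ hl0 (by positivity), hu]
      calc (k : ℝ) * (A * Real.log l) * Real.log l ^ 2 = A * (k * Real.log l ^ 3) := by ring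
        _ ≤ A * (l * A) := mul_le_mul_of_nonneg_left hk3 hA0.le
        _ = A ^ 2 * l := by ring
    have h2 : Real.sqrt (k * u / l) ≤ A / Real.log l := by
      calc Real.sqrt (k * u / l) ≤ Real.sqrt ((A / Real.log l) ^ 2) := Real.sqrt_le_sqrt h1
        _ = _ := Real.sqrt_sq (by positivity)
    refine h2.trans ?_
    rw [div_le_div_iff₀ hlog0 (by norm_num)]
    linarith
  · have h1 : (k : ℝ) * u / l = u ^ 2 * (k / (l * u)) := by field_simp
    rw [h1, Real.sqrt_mul (by positivity), Real.sqrt_sq hu0.le, ← mul_assoc]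
    apply mul_le_mul_of_nonneg_right _ (Real.sqrt_nonneg _)
    rw [hu]
    exact mul_le_mul_of_nonneg_left (by rw [← hu]; exact hlogle) hA0.le

/-- the upper end of the range -/
theorem upper_range {l u L : ℝ} (hl : 100000 ≤ l) (hu : 1 ≤ u) (hu4 : u ^ 4 ≤ l) (hL : L ≤ (l * u) ^ (3 / 2 : ℝ)) : L + 2 ≤ l ^ 2 := by
  have hl0 : 0 < l := by linarith
  have hl1 : 1 ≤ l := by linarith
  have hu0 : 0 < u := by linarith
  have h1 : u ≤ l ^ (1 / 4 : ℝ) := by
    calc u = (u ^ 4) ^ (1 / 4 : ℝ) := by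
          rw [← Real.rpow_natCast, ← Real.rpow_mul hu0.le]
          norm_num
      _ ≤ l ^ (1 / 4 : ℝ) := Real.rpow_le_rpow (by positivity) hu4 (by norm_num)
  have h2 : (l * u) ^ (3 / 2 : ℝ) ≤ l ^ (15 / 8 : ℝ) := by
    calc (l * u) ^ (3 / 2 : ℝ) ≤ (l * l ^ (1 / 4 : ℝ)) ^ (3 / 2 : ℝ) := Real.rpow_le_rpow (by positivity) (by gcongr) (by norm_num)
      _ = (l ^ (5 / 4 : ℝ)) ^ (3 / 2 : ℝ) := by
          congr 1
          nth_rewrite 1 [← Real.rpow_one l]
          rw [← Real.rpow_add hl0]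
          norm_num
      _ = l ^ (15 / 8 : ℝ) := by
          rw [← Real.rpow_mul hl0.le]
          norm_num
  have h3 : l ^ 2 = l ^ (15 / 8 : ℝ) * l ^ (1 / 8 : ℝ) := by
    rw [← Real.rpow_add hl0, ← Real.rpow_natCast]
    norm_num
  have h4 : (2 : ℝ) ≤ l ^ (1 / 8 : ℝ) := by
    calc (2 : ℝ) = (256 : ℝ) ^ (1 / 8 : ℝ) := by
          rw [show (256 : ℝ) = 2 ^ (8 : ℝ) by norm_num, ← Real.rpow_mul (by norm_num)]
          norm_num
      _ ≤ l ^ (1 / 8 : ℝ) := Real.rpow_le_rpow (by norm_num) (by linarith) (by norm_num)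
  have h5 : (2 : ℝ) ≤ l ^ (15 / 8 : ℝ) := by
    refine h4.trans (Real.rpow_le_rpow_of_exponent_le hl1 (by norm_num))
  nlinarith only [h2, h3, h4, h5, hL]

end Pool.Agent.J4H81.HL
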