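import Pool.Agent.J4H81.HL.UD

/-!
# The singular series of an admissible set is positive (helper81)
-/

set_option autoImplicit false

namespace Pool.Agent.J4H81.HL

open Finset Filter
open Pool.Agent.J4H81.PT (Admissible admissibleSets)

theorem loc_pos {A : Finset ℕ} {p : ℕ} (hp : p.Prime) (h : nu A p < p) : 0 < loc A p := by
  unfold loc
  have hp0 : (0 : ℝ) < p := by exact_mod_cast hp.pos
  have hp2 : (2 : ℝ) ≤ p := by exact_mod_cast hp.two_le
  have h1 : (nu A p : ℝ) < p := by exact_mod_cast h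
  apply div_pos
  · rw [sub_pos, div_lt_one hp0]
    exact h1
  · apply pow_pos
    rw [sub_pos, div_lt_one hp0]
    linarith

theorem nu_lt {A : Finset ℕ} (hA : Admissible A) {p : ℕ} (hp : p.Prime) : nu A p < p := by
  obtain ⟨c, hc⟩ := hA p hp
  unfold nu
  have h1 : A.image (· % p) ⊆ (range p).erase (c % p) := by
    intro x hx
    rw [mem_image] at hx
    obtain ⟨a, ha, rfl⟩ := hx
    rw [mem_erase, mem_range]
    exact ⟨fun h => hc a ha h, Nat.mod_lt _ hp.pos⟩
  have h2 := card_le_card h1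
  rw [card_erase_of_mem (mem_range.2 (Nat.mod_lt _ hp.pos)), card_range] at h2
  have := hp.pos
  omega

theorem sing_nonneg (A : Finset ℕ) : 0 ≤ sing A := by
  have h1 := (Pool.Agent.J4H57.HL.multipliable_loc A).hasProd
  refine ge_of_tendsto' h1 fun s => ?_
  exact Finset.prod_nonneg fun p _ => Pool.Agent.J4H57.HL.loc_nonneg A p.2.two_le

/-- the singular series of an admissible set is positive -/
theorem sing_pos {A : Finset ℕ} (hA : Admissible A) : 0 < sing A := by
  rcases A.eq_empty_or_nonempty with rfl | hne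
  · have h1 : ∀ p : Nat.Primes, loc ∅ p = 1 := by
      intro p
      unfold loc nu
      simp
    unfold sing
    rw [tprod_congr h1, tprod_one]
    norm_num
  · obtain ⟨y, hy2, hy⟩ : ∃ y : ℕ, 2 ≤ y ∧ A ⊆ range (y + 1) := ⟨max 2 (A.sup id), le_max_left _ _, fun a ha =>
      mem_range.2 (Nat.lt_succ_of_le ((Finset.le_sup (f := id) ha).trans (le_max_right _ _)))⟩
    have hyr : (2 : ℝ) ≤ y := by exact_mod_cast hy2
    have hly : 0 ≤ Real.log y := Real.log_nonneg (by linarith)
    have hcard : 1 ≤ A.card := card_pos.2 hne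
    have hcr : (1 : ℝ) ≤ A.card := by exact_mod_cast hcard
    set z : ℕ := ⌈8 * (A.card : ℝ) ^ 2 * (1 + Real.log y)⌉₊ with hz
    have hz1 : 8 * (A.card : ℝ) ^ 2 * (1 + Real.log y) ≤ z := Nat.le_ceil _
    have hsq : 1 ≤ (A.card : ℝ) ^ 2 * (1 + Real.log y) := one_le_mul_of_one_le_of_one_le (one_le_pow₀ hcr) (by linarith)
    have hz8 : (8 : ℝ) ≤ z := by linarith
    have hz3 : 3 ≤ z := by
      have : (3 : ℝ) ≤ z := by linarith
      exact_mod_cast this
    have h1 := Pool.Agent.J4H57.HL.t_TAIL y z A hy2 hz3 hy hcard (by linarith)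
    have h2 : 0 < singZ z A := prod_pos fun p hp => loc_pos (mem_filter.1 hp).2 (nu_lt hA (mem_filter.1 hp).2)
    have h3 : 4 * (A.card : ℝ) ^ 2 * (1 + Real.log y) / z ≤ 1 / 2 := by
      rw [div_le_iff₀ (by linarith)]
      linarith
    have h4 := h1.trans (mul_le_mul_of_nonneg_right h3 h2.le)
    have h5 := (abs_le.1 h4).1
    linarith

theorem far_mono {y k : ℕ} {ρ ρ' : ℝ} (h : ρ ≤ ρ') {A : Finset ℕ} (hy : 0 ≤ Real.log y) (hF : Far y k ρ' A) : Far y k ρ A := by
  unfold Far at hF ⊢
  intro hcon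
  apply hF
  refine hcon.trans (mul_le_mul_of_nonneg_right h ?_)
  have := sing_nonneg A
  positivity

end Pool.Agent.J4H81.HL
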