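import Pool.Agent.J4H81.HL.SB
import Pool.Agent.J4H81.HL.SP
import Pool.Agent.J4H81.HL.SQ

/-!
# Hardy-Littlewood for almost all admissible sets, up to `log X / (log log X) ^ 4` elements (helper81)
-/

set_option autoImplicit false

namespace Pool.Agent.J4H81.HL

open Finset Filter
open Pool.Agent.J4H81.PT (Admissible admissibleSets)
open Pool.Agent.J4H81.PT.ZF (NoZ good_scales)

open Classical in
/-- **Main theorem, almost all admissible sets.** -/
theorem umain2 (hWIN : S_WIN) : ∃ C : ℝ, 0 < C ∧ ∀ X₀ : ℝ, ∃ X : ℝ, X₀ ≤ X ∧ 3 ≤ X ∧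
    ∀ y : ℕ, X ≤ y → Real.log y ≤ Real.log X ^ (3 / 2 : ℝ) → ∀ k : ℕ, 1 ≤ k → (k : ℝ) ≤ Real.log X / Real.log (Real.log X) ^ 4 →
      (((admissibleSets y k).filter (Far y k (C * Real.sqrt (Real.log (Real.log X) * Real.sqrt (k / Real.log X))))).card : ℝ) ≤
        C * Real.sqrt (Real.log (Real.log X) * Real.sqrt (k / Real.log X)) * ((admissibleSets y k).card : ℝ) := by
  obtain ⟨c₀, hc₀, hc₀1, hgood⟩ := good_scales
  obtain ⟨c, C, l₀, K, hc, hc1, hC, hl₀', hstep⟩ := uscale2 hWIN hc₀ hc₀1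
  obtain ⟨A, hA, L, hL⟩ := params K hc hC
  refine ⟨4 * Real.sqrt (7 * A), by positivity, fun X₀ => ?_⟩
  obtain ⟨l, hl, hno⟩ := hgood (max (max L l₀) |X₀|)
  have hlL : L ≤ l := (le_max_left _ _).trans ((le_max_left _ _).trans hl)
  have hl₀ : l₀ ≤ l := (le_max_right _ _).trans ((le_max_left _ _).trans hl)
  have hlx₀ : |X₀| ≤ l := (le_max_right _ _).trans hl
  obtain ⟨hl5, hu5, hu4, hlogA, huC, hE1, hE2⟩ := hL l hlL
  obtain ⟨u, hu⟩ : ∃ u : ℝ, u = A * Real.log l := ⟨_, rfl⟩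
  rw [← hu] at hu5 hu4 huC hE1
  have hl0 : 0 < l := by linarith
  have hu0 : 0 < u := by linarith
  have hu1 : 1 ≤ u := by linarith
  have hA0 : 0 < A := by linarith
  have hAC : 1 ≤ A * C := one_le_mul_of_one_le_of_one_le hA hC
  have hlog9 : 9 ≤ Real.log l := by nlinarith only [hlogA, hAC]
  have hlogu : Real.log l ≤ u := by
    rw [hu]
    exact le_mul_of_one_le_left (by linarith) hA
  set X : ℝ := Real.exp (l * u) with hX
  have hlogX : Real.log X = l * u := Real.log_exp _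
  have hlX : l ≤ X := by
    have h1 : l ≤ l * u := le_mul_of_one_le_right hl0.le hu1
    have h2 := Real.add_one_le_exp (l * u)
    linarith
  refine ⟨X, ?_, by linarith, ?_⟩
  · have h3 := le_abs_self X₀
    linarith
  intro y hXy hyup k hk1 hk
  have hX0 : 0 < X := Real.exp_pos _
  have hy0 : (0 : ℝ) < y := lt_of_lt_of_le hX0 hXy
  have hy3 : 3 ≤ y := by
    have : (3 : ℝ) ≤ y := by linarith
    exact_mod_cast this
  have hlogy1 : l * u ≤ Real.log y := by
    rw [← hlogX]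
    exact Real.log_le_log hX0 hXy
  have hlogy0 : 0 < Real.log y := lt_of_lt_of_le (by positivity) hlogy1
  rw [hlogX] at hyup hk ⊢
  have hlogy2 := upper_range hl5 hu1 hu4 hyup
  obtain ⟨f1, f2, f3, f4⟩ := small_e hA hC hl5 hu hu5 hlogA hk
  set e : ℝ := Real.sqrt (k * u / l) with he
  have hk1r : (1 : ℝ) ≤ k := by exact_mod_cast hk1
  have he0 : 0 < e := Real.sqrt_pos.2 (by positivity)
  set κ : ℝ := Real.sqrt (7 * e) with hκ
  have hκ0 : 0 < κ := Real.sqrt_pos.2 (by positivity)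
  have hκκ : κ * κ = 7 * e := Real.mul_self_sqrt (by positivity)
  have hκ1 : 20 * e ≤ κ := by
    apply Real.le_sqrt_of_sq_le
    nlinarith only [he0, f3]
  have hκ2 : κ ≤ 1 / 4 := by
    rw [hκ, Real.sqrt_le_left (by norm_num)]
    linarith
  have hmain := hstep l u e κ hl₀ hno hu5 hu4 hlogu hlog9 huC hE1 hE2 hκ1 hκ2 hκ0 y k hy3 hlogy1 hlogy2 hk1 f1 he0.le
    (Real.sq_sqrt (by positivity)) f2 f3
  have h1 : 28 * e / κ = 4 * κ := by
    rw [div_eq_iff hκ0.ne']
    linarith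
  rw [h1] at hmain
  have h2 : 4 * κ ≤ 4 * Real.sqrt (7 * A) * Real.sqrt (Real.log (l * u) * Real.sqrt (k / (l * u))) := by
    rw [mul_assoc, ← Real.sqrt_mul (by positivity)]
    apply mul_le_mul_of_nonneg_left _ (by norm_num)
    apply Real.sqrt_le_sqrt
    linarith
  have h6 : (((admissibleSets y k).filter (Far y k (4 * Real.sqrt (7 * A) * Real.sqrt (Real.log (l * u) * Real.sqrt (k / (l * u)))))).card : ℝ) ≤
      (((admissibleSets y k).filter (Far y k (4 * κ))).card : ℝ) := by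
    have h7 : (admissibleSets y k).filter (Far y k (4 * Real.sqrt (7 * A) * Real.sqrt (Real.log (l * u) * Real.sqrt (k / (l * u))))) ⊆
        (admissibleSets y k).filter (Far y k (4 * κ)) := by
      intro B hB
      rw [mem_filter] at hB ⊢
      exact ⟨hB.1, far_mono h2 hlogy0.le hB.2⟩
    exact_mod_cast card_le_card h7
  exact (h6.trans hmain).trans (mul_le_mul_of_nonneg_right h2 (Nat.cast_nonneg _))

end Pool.Agent.J4H81.HL
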