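import Pool.Agent.J4H81.HL.LP
import Pool.Agent.J4H57.HL.Mu

/-!
# Hardy-Littlewood for almost all admissible sets: the lower bound (helper81)

Part G (`S_MU`) is by helper57.
-/

set_option autoImplicit false

namespace Pool.Agent.J4H81.PT.HW

open Finset
open Pool.Agent.J4H81.PT

/-- the number of the solutions divided by its expected value without the factors at the larger primes -/
noncomputable def RR {k W : ℕ} [NeZero W] (B₀ : ℝ) (J U y : ℕ) (h : Fin k → ZMod W) (t : Fin k → ℕ) : ℝ :=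
  B₀ ^ k * cntY y (fun i => (h i).val + W * t i) / (((VV h).card : ℝ) * (J * U))

theorem card_VV_pos {k W : ℕ} [NeZero W] {h : Fin k → ZMod W} (hh : h ∈ AdmZ k W) : (0 : ℝ) < ((VV h).card : ℝ) := by
  classical
  unfold AdmZ at hh
  rw [mem_filter] at hh
  exact_mod_cast card_pos.2 hh.2

open Classical in
/-- the deficit for one residue vector -/
theorem low_h {k W T J U y : ℕ} [NeZero W] (hWT : W * T ≤ y + 1) (hJ : J * U + 1 ≤ T) (hJ0 : 0 < J) (hU : 0 < U) {B₀ ε : ℝ}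
    (hB₀ : 0 < B₀) (hε : 0 ≤ ε) (Bs : ℕ → Finset (ZMod W))
    (hgood : ∀ j < J, ∀ (h : Fin k → ZMod W) (c : ZMod W), c ∈ VV h → (∀ i, c + h i ∉ Bs j) →
      ∑ t ∈ Fintype.piFinset (fun _ : Fin k => range T), max 0 ((U : ℝ) - B₀ ^ k * cnt (j * U) U h c t) ≤ ε * (U * (T : ℝ) ^ k))
    (h : Fin k → ZMod W) (hh : h ∈ AdmZ k W) :
    ∑ t ∈ Fintype.piFinset (fun _ : Fin k => range T), max 0 (1 - RR B₀ J U y h t) ≤
      (ε + 1 / J * ∑ j ∈ range J, 1 / ((VV h).card : ℝ) * (((VV h).filter (fun c => ∃ i, c + h i ∈ Bs j)).card : ℝ)) * (T : ℝ) ^ k := by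
  have hV := card_VV_pos hh
  have hJr : (0 : ℝ) < J := by exact_mod_cast hJ0
  have hUr : (0 : ℝ) < U := by exact_mod_cast hU
  have hm : (0 : ℝ) < ((VV h).card : ℝ) * (J * U) := by positivity
  have htriv : ∀ (j : ℕ) (c : ZMod W),
      ∑ t ∈ Fintype.piFinset (fun _ : Fin k => range T), max 0 ((U : ℝ) - B₀ ^ k * cnt (j * U) U h c t) ≤ U * (T : ℝ) ^ k := by
    intro j c
    calc _ ≤ ∑ t ∈ Fintype.piFinset (fun _ : Fin k => range T), (U : ℝ) := by
          apply sum_le_sum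
          intro t _
          apply max_le (Nat.cast_nonneg _)
          have : 0 ≤ B₀ ^ k * (cnt (j * U) U h c t : ℝ) := by positivity
          linarith
      _ = _ := by
          rw [sum_const, Fintype.card_piFinset]
          simp
          ring
  have h1 : ∀ t : Fin k → ℕ, max 0 (1 - RR B₀ J U y h t) ≤
      1 / (((VV h).card : ℝ) * (J * U)) * ∑ j ∈ range J, ∑ c ∈ VV h, max 0 ((U : ℝ) - B₀ ^ k * cnt (j * U) U h c t) := by
    intro t
    apply max_le
    · apply mul_nonneg (by positivity)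
      exact sum_nonneg fun j _ => sum_nonneg fun c _ => le_max_left _ _
    · have h2 : ((∑ j ∈ range J, ∑ c ∈ VV h, cnt (j * U) U h c t : ℕ) : ℝ) ≤ cntY y (fun i => (h i).val + W * t i) := by
        exact_mod_cast cnt_le hWT hJ h t
      have h3 : ((VV h).card : ℝ) * (J * U) - B₀ ^ k * ((∑ j ∈ range J, ∑ c ∈ VV h, cnt (j * U) U h c t : ℕ) : ℝ) =
          ∑ j ∈ range J, ∑ c ∈ VV h, ((U : ℝ) - B₀ ^ k * cnt (j * U) U h c t) := by
        push_cast
        simp only [sum_sub_distrib, sum_const, card_range, nsmul_eq_mul, mul_sum]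
        ring
      have h4 : ((VV h).card : ℝ) * (J * U) - B₀ ^ k * cntY y (fun i => (h i).val + W * t i) ≤
          ∑ j ∈ range J, ∑ c ∈ VV h, max 0 ((U : ℝ) - B₀ ^ k * cnt (j * U) U h c t) := by
        calc _ ≤ ((VV h).card : ℝ) * (J * U) - B₀ ^ k * ((∑ j ∈ range J, ∑ c ∈ VV h, cnt (j * U) U h c t : ℕ) : ℝ) := by
              have := mul_le_mul_of_nonneg_left h2 (show 0 ≤ B₀ ^ k by positivity)
              linarith
          _ = ∑ j ∈ range J, ∑ c ∈ VV h, ((U : ℝ) - B₀ ^ k * cnt (j * U) U h c t) := h3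
          _ ≤ _ := sum_le_sum fun j _ => sum_le_sum fun c _ => le_max_right _ _
      have h5 : 1 - RR B₀ J U y h t = 1 / (((VV h).card : ℝ) * (J * U)) *
          (((VV h).card : ℝ) * (J * U) - B₀ ^ k * cntY y (fun i => (h i).val + W * t i)) := by
        unfold RR
        field_simp
      rw [h5]
      exact mul_le_mul_of_nonneg_left h4 (by positivity)
  refine (sum_le_sum fun t _ => h1 t).trans ?_
  rw [← mul_sum, sum_comm]
  have h2 : ∀ j ∈ range J, ∑ t ∈ Fintype.piFinset (fun _ : Fin k => range T), ∑ c ∈ VV h, max 0 ((U : ℝ) - B₀ ^ k * cnt (j * U) U h c t) ≤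
      (((VV h).card : ℝ) * ε + (((VV h).filter (fun c => ∃ i, c + h i ∈ Bs j)).card : ℝ)) * (U * (T : ℝ) ^ k) := by
    intro j hj
    rw [mem_range] at hj
    rw [sum_comm]
    have h3 : ∀ c ∈ VV h, ∑ t ∈ Fintype.piFinset (fun _ : Fin k => range T), max 0 ((U : ℝ) - B₀ ^ k * cnt (j * U) U h c t) ≤
        ε * (U * (T : ℝ) ^ k) + (if (∃ i, c + h i ∈ Bs j) then U * (T : ℝ) ^ k else 0) := by
      intro c hc
      split_ifs with hb
      · have := htriv j c
        have h3 : 0 ≤ ε * (U * (T : ℝ) ^ k) := by positivity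
        linarith
      · push Not at hb
        rw [add_zero]
        exact hgood j hj h c hc hb
    refine (sum_le_sum h3).trans (le_of_eq ?_)
    rw [sum_add_distrib, sum_const, ← sum_filter, sum_const, nsmul_eq_mul, nsmul_eq_mul]
    ring
  calc 1 / (((VV h).card : ℝ) * (J * U)) * ∑ j ∈ range J, ∑ t ∈ Fintype.piFinset (fun _ : Fin k => range T), ∑ c ∈ VV h, max 0 ((U : ℝ) - B₀ ^ k * cnt (j * U) U h c t) ≤
        1 / (((VV h).card : ℝ) * (J * U)) * ∑ j ∈ range J, (((VV h).card : ℝ) * ε + (((VV h).filter (fun c => ∃ i, c + h i ∈ Bs j)).card : ℝ)) * (U * (T : ℝ) ^ k) :=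
        mul_le_mul_of_nonneg_left (sum_le_sum h2) (by positivity)
    _ = _ := by
        rw [← sum_mul, sum_add_distrib, sum_const, card_range, nsmul_eq_mul, ← mul_sum]
        field_simp

open Classical in
/-- residue vectors and classes which hit a small set of bad classes -/
theorem bad_adm {k w W : ℕ} [NeZero W] (hW : W = primorial w) (hw : 2 ≤ w) (B : Finset (ZMod W)) (hB : ∀ b ∈ B, IsUnit b) :
    ∑ h ∈ AdmZ k W, 1 / ((VV h).card : ℝ) * (((VV h).filter (fun c => ∃ i, c + h i ∈ B)).card : ℝ) ≤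
      ((1 + 120 * (w : ℝ) ^ 2 * B.card / Nat.totient W) ^ k - 1) * (AdmZ k W).card := by
  have h1 := Pool.Agent.J4H57.HL.t_MU k w W B 1 hW hw (by norm_num) hB
  have h2 : ∀ h ∈ AdmZ k W, 1 + 1 / ((VV h).card : ℝ) * (((VV h).filter (fun c => ∃ i, c + h i ∈ B)).card : ℝ) ≤
      (1 / ((VV h).card : ℝ)) * ∑ c ∈ VV h, ∏ i : Fin k, (1 + 1 * (if c + h i ∈ B then (1 : ℝ) else 0)) := by
    intro h hh
    have hV := card_VV_pos hh
    have h3 : ∀ c ∈ VV h, 1 + (if (∃ i, c + h i ∈ B) then (1 : ℝ) else 0) ≤ ∏ i : Fin k, (1 + 1 * (if c + h i ∈ B then (1 : ℝ) else 0)) := by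
      intro c _
      have hge : ∀ i ∈ (univ : Finset (Fin k)), (1 : ℝ) ≤ 1 + 1 * (if c + h i ∈ B then (1 : ℝ) else 0) := by
        intro i _
        split_ifs <;> norm_num
      split_ifs with hb
      · obtain ⟨i, hi⟩ := hb
        rw [← mul_prod_erase univ _ (mem_univ i), if_pos hi]
        have h4 : (1 : ℝ) ≤ ∏ j ∈ univ.erase i, (1 + 1 * (if c + h j ∈ B then (1 : ℝ) else 0)) :=
          Finset.one_le_prod fun j hj => hge j (mem_univ _)
        linarith
      · rw [add_zero]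
        exact Finset.one_le_prod hge
    have h4 := sum_le_sum h3
    rw [sum_add_distrib, sum_const, ← sum_filter, sum_const, nsmul_eq_mul, nsmul_eq_mul, mul_one, mul_one] at h4
    have h5 := mul_le_mul_of_nonneg_left h4 (show 0 ≤ 1 / ((VV h).card : ℝ) by positivity)
    refine le_trans (le_of_eq ?_) h5
    field_simp
  have h3 := (sum_le_sum h2).trans h1
  rw [sum_add_distrib, sum_const, nsmul_eq_mul, mul_one] at h3
  have h4 : (1 : ℝ) * (120 * (w : ℝ) ^ 2) = 120 * (w : ℝ) ^ 2 := one_mul _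
  rw [h4] at h3
  linarith

open Classical in
/-- the deficit in the mean over all admissible residue vectors -/
theorem low_adm {k w W T J U y : ℕ} [NeZero W] (hW : W = primorial w) (hw : 2 ≤ w) (hWT : W * T ≤ y + 1) (hJ : J * U + 1 ≤ T)
    (hJ0 : 0 < J) (hU : 0 < U) {B₀ ε β : ℝ} (hB₀ : 0 < B₀) (hε : 0 ≤ ε) (Bs : ℕ → Finset (ZMod W)) (hBs : ∀ j < J, ∀ b ∈ Bs j, IsUnit b)
    (hBc : ∀ j < J, (1 + 120 * (w : ℝ) ^ 2 * (Bs j).card / Nat.totient W) ^ k - 1 ≤ β)
    (hgood : ∀ j < J, ∀ (h : Fin k → ZMod W) (c : ZMod W), c ∈ VV h → (∀ i, c + h i ∉ Bs j) →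
      ∑ t ∈ Fintype.piFinset (fun _ : Fin k => range T), max 0 ((U : ℝ) - B₀ ^ k * cnt (j * U) U h c t) ≤ ε * (U * (T : ℝ) ^ k)) :
    ∑ h ∈ AdmZ k W, ∑ t ∈ Fintype.piFinset (fun _ : Fin k => range T), max 0 (1 - RR B₀ J U y h t) ≤
      (ε + β) * (((AdmZ k W).card : ℝ) * (T : ℝ) ^ k) := by
  have hJr : (0 : ℝ) < J := by exact_mod_cast hJ0
  refine (sum_le_sum fun h hh => low_h hWT hJ hJ0 hU hB₀ hε Bs hgood h hh).trans ?_
  rw [← sum_mul, sum_add_distrib, sum_const, nsmul_eq_mul, ← mul_sum, sum_comm]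
  have h1 : ∑ j ∈ range J, ∑ h ∈ AdmZ k W, 1 / ((VV h).card : ℝ) * (((VV h).filter (fun c => ∃ i, c + h i ∈ Bs j)).card : ℝ) ≤
      ∑ j ∈ range J, β * (AdmZ k W).card := by
    apply sum_le_sum
    intro j hj
    rw [mem_range] at hj
    exact (bad_adm hW hw (Bs j) (hBs j hj)).trans (mul_le_mul_of_nonneg_right (hBc j hj) (Nat.cast_nonneg _))
  rw [sum_const, card_range, nsmul_eq_mul] at h1
  have h2 : 1 / (J : ℝ) * ∑ j ∈ range J, ∑ h ∈ AdmZ k W, 1 / ((VV h).card : ℝ) * (((VV h).filter (fun c => ∃ i, c + h i ∈ Bs j)).card : ℝ) ≤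
      β * (AdmZ k W).card := by
    have h3 := mul_le_mul_of_nonneg_left h1 (show 0 ≤ 1 / (J : ℝ) by positivity)
    refine h3.trans (le_of_eq ?_)
    field_simp
  have h3 : (0 : ℝ) ≤ (T : ℝ) ^ k := by positivity
  calc _ ≤ (((AdmZ k W).card : ℝ) * ε + β * (AdmZ k W).card) * (T : ℝ) ^ k := by gcongr
    _ = _ := by ring

end Pool.Agent.J4H81.PT.HW
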