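import Pool.Agent.J4H81.HL.UA

/-!
# Hardy-Littlewood for almost all admissible sets: the upper bound for the first moment (helper81)
-/

set_option autoImplicit false

namespace Pool.Agent.J4H81.PT.HW

open Finset
open Pool.Agent.J4H81.PT

/-- the number of the possible values of one coordinate -/
def NN (W T : ℕ) (r n : ℕ) : ℕ := ((range T).filter (fun t => (n + (r + W * t)).Prime)).card

theorem NN_le (W T r n : ℕ) : NN W T r n ≤ T := by
  unfold NN
  calc _ ≤ (range T).card := card_filter_le _ _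
    _ = T := card_range T

theorem sum_cntY {k W T y : ℕ} (r : Fin k → ℕ) :
    ∑ t ∈ Fintype.piFinset (fun _ : Fin k => range T), (cntY y (fun i => r i + W * t i) : ℝ) =
      ∑ n ∈ Icc 1 y, ∏ i, (NN W T (r i) n : ℝ) := by
  classical
  have h1 : ∀ t : Fin k → ℕ, (cntY y (fun i => r i + W * t i) : ℝ) = ∑ n ∈ Icc 1 y, ∏ i : Fin k, (if (n + (r i + W * t i)).Prime then (1 : ℝ) else 0) := by
    intro t
    unfold cntY
    rw [card_filter]
    push_cast
    refine sum_congr rfl fun n _ => ?_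
    by_cases h : ∀ i, (n + (r i + W * t i)).Prime
    · rw [if_pos h, prod_congr rfl (fun i _ => if_pos (h i)), prod_const_one]
    · rw [if_neg h]
      push Not at h
      obtain ⟨i, hi⟩ := h
      exact (prod_eq_zero (mem_univ i) (if_neg hi)).symm
  rw [sum_congr rfl (fun t _ => h1 t), sum_comm]
  refine sum_congr rfl fun n _ => ?_
  rw [← Finset.prod_univ_sum (t := fun _ : Fin k => range T) (f := fun i t => if (n + (r i + W * t)).Prime then (1 : ℝ) else 0)]
  refine prod_congr rfl fun i _ => ?_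
  rw [← sum_filter, sum_const, nsmul_eq_mul, mul_one]
  rfl

/-- classes outside `VV h` contribute nothing -/
theorem NN_zero {k w W T : ℕ} [NeZero W] (hW : W = primorial w) (h : Fin k → ZMod W) {n : ℕ} (hn : w < n)
    (hc : ((n : ℕ) : ZMod W) ∉ VV h) : ∏ i, (NN W T (h i).val n : ℝ) = 0 := by
  classical
  unfold VV at hc
  rw [mem_filter] at hc
  simp only [mem_univ, true_and, not_forall] at hc
  obtain ⟨i, hi⟩ := hc
  apply prod_eq_zero (mem_univ i)
  unfold NN
  rw [Nat.cast_eq_zero, card_eq_zero, filter_eq_empty_iff]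
  intro t _ hp
  apply hi
  have h1 : ((n : ℕ) : ZMod W) + h i = ((n + ((h i).val + W * t) : ℕ) : ZMod W) := by
    push_cast
    rw [ZMod.natCast_zmod_val, ZMod.natCast_self, zero_mul, add_zero]
  rw [h1, ZMod.isUnit_iff_coprime]
  rw [Nat.Prime.coprime_iff_not_dvd hp]
  intro hdvd
  have h2 := (hp.dvd_primorial_iff (n := w)).1 (by rw [← hW]; exact hdvd)
  omega

/-- the values of one coordinate in a good or bad class -/
theorem NN_bound {W T U v u : ℕ} [NeZero W] (hu : u < U) (c g : ZMod W) {G C₀ : ℝ} (hC₀ : 0 ≤ C₀) (hG : 0 ≤ G) (B : Finset (ZMod W))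
    [Decidable (c + g ∈ B)]
    (h1 : c + g ∉ B → (((range T).filter (fun s => ((c + g).val + W * (v + s)).Prime)).card : ℝ) ≤ G)
    (h2 : ∀ v' : ℕ, (((range T).filter (fun s => ((c + g).val + W * (v' + s)).Prime)).card : ℝ) ≤ C₀ * G) :
    (NN W T g.val (c.val + W * (v + u)) : ℝ) ≤ (G + U) * (1 + C₀ * (if c + g ∈ B then 1 else 0)) := by
  classical
  have hW0 : 0 < W := Nat.pos_of_ne_zero (NeZero.ne W)
  obtain ⟨e, hsum, he1⟩ : ∃ e : ℕ, c.val + g.val = (c + g).val + W * e ∧ e ≤ 1 := by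
    refine ⟨(c.val + g.val) / W, ?_, ?_⟩
    · rw [ZMod.val_add]
      exact (Nat.mod_add_div _ _).symm
    · have h4 := ZMod.val_lt c
      have h5 := ZMod.val_lt g
      have : (c.val + g.val) / W < 2 := by
        rw [Nat.div_lt_iff_lt_mul hW0]; omega
      exact Nat.lt_succ_iff.1 this
  have heq : ∀ t, c.val + W * (v + u) + (g.val + W * t) = (c + g).val + W * (v + (u + e + t)) := by
    intro t
    have : c.val + W * (v + u) + (g.val + W * t) = (c.val + g.val) + W * (v + u + t) := by ring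
    rw [this, hsum]
    ring
  have hNN : NN W T g.val (c.val + W * (v + u)) = ((range T).filter (fun t => ((c + g).val + W * (v + (u + e + t))).Prime)).card := by
    unfold NN
    congr 1
    apply filter_congr
    intro t _
    rw [heq]
  rw [hNN]
  have hU0 : (0 : ℝ) ≤ U := Nat.cast_nonneg _
  split_ifs with hb
  · have h3 := h2 (v + (u + e))
    have h4 : ((range T).filter (fun t => ((c + g).val + W * (v + (u + e + t))).Prime)).card =
        ((range T).filter (fun s => ((c + g).val + W * (v + (u + e) + s)).Prime)).card := by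
      congr 1
      apply filter_congr
      intro t _
      rw [show v + (u + e + t) = v + (u + e) + t by ring]
    rw [h4]
    refine h3.trans ?_
    nlinarith only [hC₀, hG, hU0, mul_nonneg hC₀ hU0]
  · rw [mul_zero, add_zero, mul_one]
    have h3 : ((range T).filter (fun t => ((c + g).val + W * (v + (u + e + t))).Prime)).card ≤
        ((range T).filter (fun s => ((c + g).val + W * (v + s)).Prime)).card + (u + e) := by
      have h4 : ((range T).filter (fun t => ((c + g).val + W * (v + (u + e + t))).Prime)).image (fun t => u + e + t) ⊆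
          (range T).filter (fun s => ((c + g).val + W * (v + s)).Prime) ∪ Ico T (T + (u + e)) := by
        intro s hs
        rw [mem_image] at hs
        obtain ⟨t, ht, rfl⟩ := hs
        rw [mem_filter, mem_range] at ht
        rw [mem_union, mem_filter, mem_range, mem_Ico]
        rcases lt_or_ge (u + e + t) T with h5 | h5
        · exact Or.inl ⟨h5, ht.2⟩
        · exact Or.inr ⟨h5, by omega⟩
      have h5 := (card_le_card h4).trans (card_union_le _ _)
      rw [card_image_of_injective _ (fun a b hab => by simpa using hab), Nat.card_Ico] at h5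
      have h6 : T + (u + e) - T = u + e := by omega
      rw [h6] at h5
      exact h5
    have h4 : (((range T).filter (fun t => ((c + g).val + W * (v + (u + e + t))).Prime)).card : ℝ) ≤
        (((range T).filter (fun s => ((c + g).val + W * (v + s)).Prime)).card : ℝ) + ((u + e : ℕ) : ℝ) := by exact_mod_cast h3
    have h5 : ((u + e : ℕ) : ℝ) ≤ U := by exact_mod_cast (by omega : u + e ≤ U)
    have h6 := h1 hb
    linarith

open Classical in
/-- the first moment for one residue vector -/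
theorem up_h {k w W T J U y : ℕ} [NeZero W] (hW : W = primorial w) (hT : T = (y + 1) / W) (hJ : T ≤ J * U + U) (hU : 0 < U)
    {G C₀ : ℝ} (hG : 0 ≤ G) (hC₀ : 0 ≤ C₀) (Bs : ℕ → Finset (ZMod W))
    (h1 : ∀ j < J + 2, ∀ b : ZMod W, IsUnit b → b ∉ Bs j → (((range T).filter (fun s => (b.val + W * (j * U + s)).Prime)).card : ℝ) ≤ G)
    (h2 : ∀ b : ZMod W, IsUnit b → ∀ v : ℕ, (((range T).filter (fun s => (b.val + W * (v + s)).Prime)).card : ℝ) ≤ C₀ * G)
    (h : Fin k → ZMod W) :
    ∑ t ∈ Fintype.piFinset (fun _ : Fin k => range T), (cntY y (fun i => (h i).val + W * t i) : ℝ) ≤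
      w * (T : ℝ) ^ k + ∑ j ∈ range (J + 2), U * (G + U) ^ k * ∑ c ∈ VV h, ∏ i : Fin k, (1 + C₀ * (if c + h i ∈ Bs j then (1 : ℝ) else 0)) := by
  have hW0 : 0 < W := Nat.pos_of_ne_zero (NeZero.ne W)
  rw [sum_cntY]
  set g : ℕ → ℝ := fun n => ∏ i, (NN W T (h i).val n : ℝ) with hg
  have hg0 : ∀ n, 0 ≤ g n := fun n => prod_nonneg fun i _ => Nat.cast_nonneg _
  have hgT : ∀ n, g n ≤ (T : ℝ) ^ k := by
    intro n
    calc g n ≤ ∏ i : Fin k, (T : ℝ) := prod_le_prod (fun i _ => Nat.cast_nonneg _) (fun i _ => by exact_mod_cast NN_le W T _ n)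
      _ = _ := by rw [prod_const, card_univ, Fintype.card_fin]
  -- the small n
  have hsplit : ∑ n ∈ Icc 1 y, g n ≤ w * (T : ℝ) ^ k + ∑ n ∈ (Ioc w y).filter (fun n => ((n : ℕ) : ZMod W) ∈ VV h), g n := by
    have e1 : ∑ n ∈ Icc 1 y, g n ≤ ∑ n ∈ Icc 1 w, g n + ∑ n ∈ Ioc w y, g n := by
      rw [← sum_union]
      · apply sum_le_sum_of_subset_of_nonneg
        · intro n hn
          rw [mem_Icc] at hn
          rw [mem_union, mem_Icc, mem_Ioc]
          omega
        · intro n _ _
          exact hg0 n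
      · rw [disjoint_left]
        intro n hn hn'
        rw [mem_Icc] at hn
        rw [mem_Ioc] at hn'
        omega
    have e2 : ∑ n ∈ Icc 1 w, g n ≤ w * (T : ℝ) ^ k := by
      calc ∑ n ∈ Icc 1 w, g n ≤ ∑ n ∈ Icc 1 w, (T : ℝ) ^ k := sum_le_sum fun n _ => hgT n
        _ = _ := by rw [sum_const, Nat.card_Icc, nsmul_eq_mul]; simp
    have e3 : ∑ n ∈ Ioc w y, g n = ∑ n ∈ (Ioc w y).filter (fun n => ((n : ℕ) : ZMod W) ∈ VV h), g n := by
      rw [sum_filter]
      refine sum_congr rfl fun n hn => ?_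
      rw [mem_Ioc] at hn
      split_ifs with hc
      · rfl
      · exact NN_zero hW h hn.1 hc
    rw [e3] at e1
    linarith
  refine hsplit.trans (add_le_add le_rfl ?_)
  -- the other n
  set ψ : (ℕ × ℕ) × ZMod W → ℕ := fun x => x.2.val + W * (x.1.1 * U + x.1.2) with hψ
  set φ : ℕ → (ℕ × ℕ) × ZMod W := fun n => ((n / W / U, n / W % U), ((n : ℕ) : ZMod W)) with hφ
  have hψφ : ∀ n, ψ (φ n) = n := by
    intro n
    rw [hψ, hφ]
    simp only
    rw [ZMod.val_natCast, mul_comm (n / W / U) U, Nat.div_add_mod, Nat.mod_add_div]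
  have e4 : ∑ n ∈ (Ioc w y).filter (fun n => ((n : ℕ) : ZMod W) ∈ VV h), g n =
      ∑ x ∈ ((Ioc w y).filter (fun n => ((n : ℕ) : ZMod W) ∈ VV h)).image φ, g (ψ x) := by
    rw [sum_image]
    · exact sum_congr rfl fun n _ => by rw [hψφ]
    · intro a _ b _ hab
      rw [← hψφ a, ← hψφ b, hab]
  have e5 : ((Ioc w y).filter (fun n => ((n : ℕ) : ZMod W) ∈ VV h)).image φ ⊆ (range (J + 2) ×ˢ range U) ×ˢ VV h := by
    intro x hx
    rw [mem_image] at hx
    obtain ⟨n, hn, rfl⟩ := hx
    rw [mem_filter, mem_Ioc] at hn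
    rw [hφ]
    rw [mem_product, mem_product, mem_range, mem_range]
    refine ⟨⟨?_, Nat.mod_lt _ hU⟩, hn.2⟩
    show n / W / U < J + 2
    rw [Nat.div_lt_iff_lt_mul hU]
    have h3 : n / W ≤ T := by
      rw [hT]
      exact Nat.div_le_div_right (by omega)
    have h4 : (J + 2) * U = J * U + U + U := by ring
    omega
  rw [e4]
  calc ∑ x ∈ ((Ioc w y).filter (fun n => ((n : ℕ) : ZMod W) ∈ VV h)).image φ, g (ψ x) ≤
        ∑ x ∈ (range (J + 2) ×ˢ range U) ×ˢ VV h, g (ψ x) := sum_le_sum_of_subset_of_nonneg e5 fun x _ _ => hg0 _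
    _ = ∑ j ∈ range (J + 2), ∑ u ∈ range U, ∑ c ∈ VV h, g (c.val + W * (j * U + u)) := by
        rw [sum_product, sum_product]
    _ ≤ ∑ j ∈ range (J + 2), ∑ u ∈ range U, ∑ c ∈ VV h, (G + U) ^ k * ∏ i : Fin k, (1 + C₀ * (if c + h i ∈ Bs j then (1 : ℝ) else 0)) := by
        refine sum_le_sum fun j hj => sum_le_sum fun u hu => sum_le_sum fun c hc => ?_
        rw [mem_range] at hj hu
        have hunit : ∀ i, IsUnit (c + h i) := by
          intro i
          unfold VV at hc
          rw [mem_filter] at hc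
          exact hc.2 i
        have h3 : g (c.val + W * (j * U + u)) ≤ ∏ i : Fin k, ((G + U) * (1 + C₀ * (if c + h i ∈ Bs j then (1 : ℝ) else 0))) := by
          apply prod_le_prod (fun i _ => Nat.cast_nonneg _)
          intro i _
          exact NN_bound hu c (h i) hC₀ hG (Bs j) (fun hb => h1 j hj _ (hunit i) hb) (h2 _ (hunit i))
        refine h3.trans (le_of_eq ?_)
        rw [prod_mul_distrib, prod_const, card_univ, Fintype.card_fin]
    _ = _ := by
        refine sum_congr rfl fun j _ => ?_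
        rw [sum_const, card_range, nsmul_eq_mul, ← mul_sum]
        ring

open Classical in
/-- the first moment over all admissible residue vectors -/
theorem up_adm {k w W T J U y : ℕ} [NeZero W] (hW : W = primorial w) (hw : 2 ≤ w) (hT : T = (y + 1) / W) (hJ : T ≤ J * U + U) (hJ0 : 0 < J) (hU : 0 < U)
    {G C₀ B₀ β : ℝ} (hG : 0 ≤ G) (hC₀ : 0 ≤ C₀) (hB₀ : 0 < B₀) (Bs : ℕ → Finset (ZMod W)) (hBs : ∀ j < J + 2, ∀ b ∈ Bs j, IsUnit b)
    (hBc : ∀ j < J + 2, (1 + C₀ * (120 * (w : ℝ) ^ 2) * (Bs j).card / Nat.totient W) ^ k ≤ β)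
    (h1 : ∀ j < J + 2, ∀ b : ZMod W, IsUnit b → b ∉ Bs j → (((range T).filter (fun s => (b.val + W * (j * U + s)).Prime)).card : ℝ) ≤ G)
    (h2 : ∀ b : ZMod W, IsUnit b → ∀ v : ℕ, (((range T).filter (fun s => (b.val + W * (v + s)).Prime)).card : ℝ) ≤ C₀ * G) :
    ∑ h ∈ AdmZ k W, ∑ t ∈ Fintype.piFinset (fun _ : Fin k => range T), RR B₀ J U y h t ≤
      (B₀ ^ k * w / (J * U) * (T : ℝ) ^ k + (J + 2) / J * (B₀ * (G + U)) ^ k * β) * (AdmZ k W).card := by
  have hJr : (0 : ℝ) < J := by exact_mod_cast hJ0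
  have hUr : (0 : ℝ) < U := by exact_mod_cast hU
  have h3 : ∀ h ∈ AdmZ k W, ∑ t ∈ Fintype.piFinset (fun _ : Fin k => range T), RR B₀ J U y h t ≤
      B₀ ^ k * w / (J * U) * (T : ℝ) ^ k + 1 / J * (B₀ * (G + U)) ^ k *
        ∑ j ∈ range (J + 2), (1 / ((VV h).card : ℝ)) * ∑ c ∈ VV h, ∏ i : Fin k, (1 + C₀ * (if c + h i ∈ Bs j then (1 : ℝ) else 0)) := by
    intro h hh
    have hV := card_VV_pos hh
    have hV1 : (1 : ℝ) ≤ ((VV h).card : ℝ) := by
      have : 0 < (VV h).card := by exact_mod_cast hV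
      exact_mod_cast this
    have h4 := up_h hW hT hJ hU hG hC₀ Bs h1 h2 h
    have h5 : ∑ t ∈ Fintype.piFinset (fun _ : Fin k => range T), RR B₀ J U y h t =
        B₀ ^ k / (((VV h).card : ℝ) * (J * U)) * ∑ t ∈ Fintype.piFinset (fun _ : Fin k => range T), (cntY y (fun i => (h i).val + W * t i) : ℝ) := by
      rw [mul_sum]
      refine sum_congr rfl fun t _ => ?_
      unfold RR
      ring
    rw [h5]
    have h6 := mul_le_mul_of_nonneg_left h4 (show 0 ≤ B₀ ^ k / (((VV h).card : ℝ) * (J * U)) by positivity)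
    refine h6.trans ?_
    rw [mul_add]
    apply add_le_add
    · rw [div_mul_eq_mul_div, div_mul_eq_mul_div]
      have h7 : B₀ ^ k * (w * (T : ℝ) ^ k) / (((VV h).card : ℝ) * (J * U)) ≤ B₀ ^ k * (w * (T : ℝ) ^ k) / (1 * (J * U)) := by
        apply div_le_div_of_nonneg_left (by positivity) (by positivity)
        exact mul_le_mul_of_nonneg_right hV1 (by positivity)
      refine h7.trans (le_of_eq ?_)
      rw [one_mul]
      ring
    · rw [mul_sum, mul_sum]
      apply le_of_eq
      refine sum_congr rfl fun j _ => ?_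
      rw [mul_pow]
      field_simp
  refine (sum_le_sum h3).trans ?_
  rw [sum_add_distrib, sum_const, nsmul_eq_mul, ← mul_sum, sum_comm]
  have h4 : ∑ j ∈ range (J + 2), ∑ h ∈ AdmZ k W, (1 / ((VV h).card : ℝ)) * ∑ c ∈ VV h, ∏ i : Fin k, (1 + C₀ * (if c + h i ∈ Bs j then (1 : ℝ) else 0)) ≤
      ∑ j ∈ range (J + 2), β * (AdmZ k W).card := by
    apply sum_le_sum
    intro j hj
    rw [mem_range] at hj
    exact (Pool.Agent.J4H57.HL.t_MU k w W (Bs j) C₀ hW hw hC₀ (hBs j hj)).trans (mul_le_mul_of_nonneg_right (hBc j hj) (Nat.cast_nonneg _))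
  rw [sum_const, card_range, nsmul_eq_mul] at h4
  push_cast at h4
  have h5 := mul_le_mul_of_nonneg_left h4 (show 0 ≤ 1 / (J : ℝ) * (B₀ * (G + U)) ^ k by positivity)
  refine (add_le_add le_rfl h5).trans (le_of_eq ?_)
  ring

end Pool.Agent.J4H81.PT.HW
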