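import Pool.Agent.J4H81.PT.CMb

/-!
# Hardy-Littlewood for almost all admissible sets: from vectors to sets (helper81)
-/

set_option autoImplicit false

namespace Pool.Agent.J4H81.PT.HW

open Finset
open Pool.Agent.J4H81.PT

variable {k W y T : ℕ} [NeZero W]

open Classical in
theorem card_AA (hW : ∀ p : ℕ, p.Prime → p ≤ k → p ∣ W) : ((AA k (W * T)).card : ℝ) = (AdmZ k W).card * (T : ℝ) ^ k := by
  have h0 : (AA k (W * T)).card = ∑ h ∈ AdmZ k W, T ^ k := by
    have h0 := card_lifts (T := T) hW (fun _ => True)
    convert h0 using 1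
    · congr 1
      ext a
      simp
    · refine sum_congr rfl fun h _ => ?_
      have h00 : ((Fintype.piFinset (fun _ : Fin k => range T)).card) = T ^ k := by
        rw [Fintype.card_piFinset]; simp
      rw [← h00]
      congr 1
      ext a
      simp
  rw [h0, sum_const, smul_eq_mul, Nat.cast_mul, Nat.cast_pow]

open Classical in
/-- the final count -/
theorem final_count_gen (hW : ∀ p : ℕ, p.Prime → p ≤ k → p ∣ W) (hT : T = (y + 1) / W) (hT0 : 0 < T)
    (P : (Fin k → ℕ) → Prop) (Q : Finset ℕ → Prop) (hPQ : ∀ a : Fin k → ℕ, Function.Injective a → Q (univ.image a) → P a)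
    {ε : ℝ} (hε : 0 ≤ ε) (c1 : (((AA k (W * T)).filter P).card : ℝ) ≤ ε * ((AA k (W * T)).card : ℝ)) :
    (1 - (k : ℝ) ^ 2 / T) * (((admissibleSets y k).filter Q).card : ℝ) ≤
      (ε + k / T) * ((admissibleSets y k).card : ℝ) := by
  have hW0 : 0 < W := Nat.pos_of_ne_zero (NeZero.ne W)
  have hT1 : (0 : ℝ) < T := by exact_mod_cast hT0
  have hWT : W * T ≤ y + 1 := by rw [hT]; exact Nat.mul_div_le _ _
  have hWT2 : y + 1 < W * T + W := by
    rw [hT]
    have := Nat.lt_mul_div_succ (y + 1) hW0
    rw [mul_add, mul_one] at this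
    exact this
  -- all tuples
  have c2 : (((AA k (y + 1)).filter P).card : ℝ) ≤
      (ε + k / T) * ((AA k (y + 1)).card : ℝ) := by
    have h1 : (AA k (y + 1)).filter P ⊆ (AA k (W * T)).filter P ∪
        (univ : Finset (Fin k)).biUnion (fun j => (AA k (y + 1)).filter (fun a => W * T ≤ a j)) := by
      intro a ha
      rw [mem_filter] at ha
      by_cases h : ∀ j, a j < W * T
      · apply mem_union_left
        rw [mem_filter]
        refine ⟨?_, ha.2⟩
        have := ha.1
        unfold AA at this ⊢
        rw [mem_filter, Fintype.mem_piFinset] at this ⊢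
        exact ⟨fun i => mem_range.2 (h i), this.2⟩
      · push Not at h
        obtain ⟨j, hj⟩ := h
        apply mem_union_right
        rw [mem_biUnion]
        exact ⟨j, mem_univ _, mem_filter.2 ⟨ha.1, hj⟩⟩
    have h2 : ∀ j : Fin k, (((AA k (y + 1)).filter (fun a => W * T ≤ a j)).card : ℝ) ≤
        (AA k (y + 1)).card / T := by
      intro j
      rw [le_div_iff₀ hT1]
      have := card_determined (T := T) hW hWT j ((AA k (y + 1)).filter (fun a => W * T ≤ a j))
        (filter_subset _ _) (by
          intro a ha b hb _ hmod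
          rw [mem_filter] at ha hb
          have ha1 := ha.1
          have hb1 := hb.1
          unfold AA at ha1 hb1
          rw [mem_filter, Fintype.mem_piFinset] at ha1 hb1
          have h3 := mem_range.1 (ha1.1 j)
          have h4 := mem_range.1 (hb1.1 j)
          have key : ∀ x : ℕ, W * T ≤ x → x < y + 1 → x = W * T + x % W := by
            intro x hx1 hx2
            obtain ⟨r, hr⟩ := Nat.exists_eq_add_of_le hx1
            rw [hr, Nat.mul_add_mod, Nat.mod_eq_of_lt (by omega)]
          rw [key _ ha.2 h3, key _ hb.2 h4, hmod])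
      exact_mod_cast this
    have h3 : (((AA k (y + 1)).filter P).card : ℝ) ≤ ((AA k (W * T)).filter P).card +
        ∑ j : Fin k, (((AA k (y + 1)).filter (fun a => W * T ≤ a j)).card : ℝ) := by
      have := (card_le_card h1).trans (card_union_le _ _)
      have h4 := this.trans (Nat.add_le_add_left card_biUnion_le _)
      exact_mod_cast h4
    have h4 : ((AA k (W * T)).card : ℝ) ≤ (AA k (y + 1)).card := by
      have : AA k (W * T) ⊆ AA k (y + 1) := by
        intro a ha
        unfold AA at ha ⊢
        rw [mem_filter, Fintype.mem_piFinset] at ha ⊢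
        exact ⟨fun i => mem_range.2 ((mem_range.1 (ha.1 i)).trans_le hWT), ha.2⟩
      exact_mod_cast card_le_card this
    calc _ ≤ (((AA k (W * T)).filter P).card : ℝ) +
          ∑ j : Fin k, (((AA k (y + 1)).filter (fun a => W * T ≤ a j)).card : ℝ) := h3
      _ ≤ (ε) * ((AA k (W * T)).card : ℝ) +
          ∑ j : Fin k, ((AA k (y + 1)).card : ℝ) / T := add_le_add c1 (sum_le_sum fun j _ => h2 j)
      _ ≤ (ε) * ((AA k (y + 1)).card : ℝ) + k * (((AA k (y + 1)).card : ℝ) / T) := by
          rw [sum_const, card_univ, Fintype.card_fin, nsmul_eq_mul]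
          gcongr
      _ = _ := by ring
  -- injective tuples
  set Inj := (AA k (y + 1)).filter (fun a => Function.Injective a) with hInj
  have c3 : (1 - (k : ℝ) ^ 2 / T) * ((AA k (y + 1)).card : ℝ) ≤ Inj.card := by
    have h1 : AA k (y + 1) ⊆ Inj ∪ (univ : Finset (Fin k × Fin k)).biUnion (fun x =>
        (AA k (y + 1)).filter (fun a => x.1 ≠ x.2 ∧ a x.1 = a x.2)) := by
      intro a ha
      by_cases h : Function.Injective a
      · exact mem_union_left _ (mem_filter.2 ⟨ha, h⟩)
      · apply mem_union_right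
        unfold Function.Injective at h
        push Not at h
        obtain ⟨i, j, h3, h4⟩ := h
        rw [mem_biUnion]
        exact ⟨(i, j), mem_univ _, mem_filter.2 ⟨ha, h4, h3⟩⟩
    have h2 : ∀ x : Fin k × Fin k, (((AA k (y + 1)).filter (fun a => x.1 ≠ x.2 ∧ a x.1 = a x.2)).card : ℝ) ≤
        (AA k (y + 1)).card / T := by
      rintro ⟨i, j⟩
      rw [le_div_iff₀ hT1]
      have := card_determined (T := T) hW hWT j ((AA k (y + 1)).filter (fun a => i ≠ j ∧ a i = a j))
        (filter_subset _ _) (by
          intro a ha b hb hl _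
          rw [mem_filter] at ha hb
          rw [← ha.2.2, ← hb.2.2]
          exact hl i ha.2.1)
      exact_mod_cast this
    have h3 : ((AA k (y + 1)).card : ℝ) ≤ Inj.card + ∑ x : Fin k × Fin k,
        (((AA k (y + 1)).filter (fun a => x.1 ≠ x.2 ∧ a x.1 = a x.2)).card : ℝ) := by
      have := (card_le_card h1).trans (card_union_le _ _)
      have h4 := this.trans (Nat.add_le_add_left card_biUnion_le _)
      exact_mod_cast h4
    have h4 : ∑ x : Fin k × Fin k,
        (((AA k (y + 1)).filter (fun a => x.1 ≠ x.2 ∧ a x.1 = a x.2)).card : ℝ) ≤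
        (k : ℝ) ^ 2 * (((AA k (y + 1)).card : ℝ) / T) := by
      refine (sum_le_sum fun x _ => h2 x).trans (le_of_eq ?_)
      rw [sum_const, card_univ, Fintype.card_prod, Fintype.card_fin, nsmul_eq_mul]
      push_cast
      ring
    have h5 : (1 - (k : ℝ) ^ 2 / T) * ((AA k (y + 1)).card : ℝ) =
        ((AA k (y + 1)).card : ℝ) - (k : ℝ) ^ 2 * (((AA k (y + 1)).card : ℝ) / T) := by ring
    rw [h5]
    linarith
  -- subsets
  have s1 : (admissibleSets y k).card * k.factorial = Inj.card := by
    unfold admissibleSets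
    rw [card_subsets, hInj]
    congr 1
    unfold AA
    ext a
    simp only [mem_filter, admT_iff]
    tauto
  have s2 : ((admissibleSets y k).filter Q).card * k.factorial ≤
      ((AA k (y + 1)).filter P).card := by
    unfold admissibleSets
    have h0 := card_subsets (range (y + 1)) k (fun a => Admissible a ∧ Q a)
    rw [filter_filter]
    refine le_trans (le_of_eq ?_) (le_trans (le_of_eq h0) ?_)
    · congr!
    apply card_le_card
    unfold AA
    intro a ha
    simp only [mem_filter, admT_iff] at ha ⊢
    exact ⟨⟨ha.1, ha.2.2.1⟩, hPQ a ha.2.1 ha.2.2.2⟩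
  have hk0 : (0 : ℝ) < k.factorial := by exact_mod_cast Nat.factorial_pos k
  have s1' : ((admissibleSets y k).card : ℝ) * k.factorial = Inj.card := by exact_mod_cast s1
  have s2' : (((admissibleSets y k).filter Q).card : ℝ) * k.factorial ≤
      ((AA k (y + 1)).filter P).card := by exact_mod_cast s2
  have hE : 0 ≤ ε + k / T := by positivity
  rcases le_or_gt (1 - (k : ℝ) ^ 2 / T) 0 with hneg | hpos
  · have h1 : (1 - (k : ℝ) ^ 2 / T) * (((admissibleSets y k).filter Q).card : ℝ) ≤ 0 :=
      mul_nonpos_of_nonpos_of_nonneg hneg (by positivity)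
    have h2 : 0 ≤ (ε + k / T) * ((admissibleSets y k).card : ℝ) := by positivity
    linarith
  · refine le_of_mul_le_mul_right ?_ hk0
    calc (1 - (k : ℝ) ^ 2 / T) * (((admissibleSets y k).filter Q).card : ℝ) * k.factorial
        = (1 - (k : ℝ) ^ 2 / T) * ((((admissibleSets y k).filter Q).card : ℝ) * k.factorial) := by
          ring
      _ ≤ (1 - (k : ℝ) ^ 2 / T) * ((ε + k / T) * ((AA k (y + 1)).card : ℝ)) := by
          exact mul_le_mul_of_nonneg_left (s2'.trans c2) hpos.le
      _ = (ε + k / T) * ((1 - (k : ℝ) ^ 2 / T) * ((AA k (y + 1)).card : ℝ)) := by ring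
      _ ≤ (ε + k / T) * Inj.card := by gcongr
      _ = _ := by rw [← s1']; ring

end Pool.Agent.J4H81.PT.HW
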