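import Pool.Agent.J4H81.HL.FC
import Pool.Agent.J4H81.HL.UB
import Pool.Agent.J4H81.HL.UC

/-!
# Hardy-Littlewood for almost all admissible sets: the assembly (helper81)
-/

set_option autoImplicit false

namespace Pool.Agent.J4H81.HL

open Finset
open Pool.Agent.J4H81.PT (VV AdmZ AA admissibleSets)
open Pool.Agent.J4H81.PT.HW (cntY RR card_VV_pos card_AA final_count_gen)

/-- the vectors with both factors close to one -/
theorem good_vector {cnt S Sz Sw R P H H' E κ : ℝ} (hSw : 0 ≤ Sw) (hH : 0 < H) (hcnt : cnt = R * Sw * H') (hSz : Sz = Sw * P)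
    (hS : |S - Sz| ≤ E * Sz) (hH1 : (1 - E) * H ≤ H') (hH2 : H' ≤ H) (hR : |R - 1| ≤ κ) (hP : |P - 1| ≤ κ) (hE : 0 ≤ E)
    (hEκ : E ≤ κ / 4) (hκ : κ ≤ 1 / 4) : |cnt - S * H| ≤ 4 * κ * (S * H) := by
  obtain ⟨hR1, hR2⟩ := abs_le.1 hR
  obtain ⟨hP1, hP2⟩ := abs_le.1 hP
  obtain ⟨hS1, hS2⟩ := abs_le.1 hS
  have hκ0 : 0 ≤ κ := by linarith
  set m : ℝ := Sw * H with hm
  have hm0 : 0 ≤ m := by positivity
  -- the count
  have c1 : (1 - κ) * (1 - E) * m ≤ cnt := by
    rw [hcnt, hm]
    have h1 : (1 - κ) * ((1 - E) * H) ≤ R * H' := mul_le_mul (by linarith) hH1 (mul_nonneg (by linarith) hH.le) (by linarith)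
    have h2 := mul_le_mul_of_nonneg_left h1 hSw
    nlinarith only [h2]
  have c2 : cnt ≤ (1 + κ) * m := by
    rw [hcnt, hm]
    have hH'0 : 0 ≤ H' := le_trans (mul_nonneg (by linarith) hH.le) hH1
    have h1 : R * H' ≤ (1 + κ) * H := mul_le_mul (by linarith) hH2 hH'0 (by linarith)
    have h2 := mul_le_mul_of_nonneg_left h1 hSw
    nlinarith only [h2]
  -- the singular series
  have hP0 : 0 ≤ P := by linarith
  have s1 : (1 - E) * (1 - κ) * m ≤ S * H := by
    have h1 : (1 - E) * (Sw * P) ≤ S := by rw [hSz] at hS1; linarith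
    have h2 : (1 - E) * (Sw * (1 - κ)) ≤ (1 - E) * (Sw * P) :=
      mul_le_mul_of_nonneg_left (mul_le_mul_of_nonneg_left (by linarith) hSw) (by linarith)
    have h3 := mul_le_mul_of_nonneg_right (h2.trans h1) hH.le
    rw [hm]
    nlinarith only [h3]
  have s2 : S * H ≤ (1 + E) * (1 + κ) * m := by
    have h1 : S ≤ (1 + E) * (Sw * P) := by rw [hSz] at hS2; linarith
    have h2 : (1 + E) * (Sw * P) ≤ (1 + E) * (Sw * (1 + κ)) :=
      mul_le_mul_of_nonneg_left (mul_le_mul_of_nonneg_left (by linarith) hSw) (by linarith)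
    have h3 := mul_le_mul_of_nonneg_right (h1.trans h2) hH.le
    rw [hm]
    nlinarith only [h3]
  have hSH : 5 / 8 * m ≤ S * H := by
    refine le_trans ?_ s1
    apply mul_le_mul_of_nonneg_right _ hm0
    nlinarith only [hκ, hEκ, hE, hκ0]
  have hfin : 5 / 2 * (κ * m) ≤ 4 * κ * (S * H) := by
    have := mul_le_mul_of_nonneg_left hSH (show 0 ≤ 4 * κ by linarith)
    nlinarith only [this]
  have hEm : E * m ≤ κ / 4 * m := mul_le_mul_of_nonneg_right hEκ hm0
  have hEκm : 0 ≤ E * κ * m := by positivity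
  rw [abs_le]
  constructor
  · nlinarith only [c1, s2, hfin, hEm, hEκm]
  · nlinarith only [c2, s1, hfin, hEm, hEκm]

open Classical in
/-- the mean of the middle part of the singular series for one residue vector -/
theorem sum_P {k w z W T : ℕ} [NeZero W] (hk : 1 ≤ k) (hw : 2 * k ≤ w) (hwz : w ≤ z) (hz : 3 ≤ z) (hT : 1 ≤ T) (hW : W = primorial w)
    (hlog : 100 * (k : ℝ) * (1 + Real.log z) ^ 2 ≤ Real.log T) (h : Fin k → ZMod W) :
    ∑ t ∈ Fintype.piFinset (fun _ : Fin k => range T), |∏ p ∈ (Ioc w z).filter Nat.Prime, XX (fun i => (h i).val + W * t i) p - 1| ≤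
      Real.sqrt (8 * (k : ℝ) ^ 2 / (w : ℝ) ^ 2 + 18 * Real.exp (-(Real.log T / (2 * Real.log z)))) * (T : ℝ) ^ k := by
  set ε : ℝ := 8 * (k : ℝ) ^ 2 / (w : ℝ) ^ 2 + 18 * Real.exp (-(Real.log T / (2 * Real.log z))) with hε
  have hε0 : 0 ≤ ε := by positivity
  have hpW : ∀ p : ℕ, p.Prime → w < p → ¬ p ∣ W := by
    intro p hp hwp hpW
    rw [hW, primorial] at hpW
    rw [Prime.dvd_finsetProd_iff hp.prime] at hpW
    obtain ⟨q, hq, hpq⟩ := hpW
    rw [mem_filter, mem_range] at hq
    have h1 := (Nat.prime_dvd_prime_iff_eq hp hq.2).1 hpq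
    omega
  have h6 := Pool.Agent.J4H69.HL.t_SING k w z T W (fun i => (h i).val) hk hw hwz hz hT hpW hlog
  have h8 := sq_sum_le_card_mul_sum_sq (s := Fintype.piFinset (fun _ : Fin k => range T))
    (f := fun t => |∏ p ∈ (Ioc w z).filter Nat.Prime, XX (fun i => (h i).val + W * t i) p - 1|)
  simp only [sq_abs] at h8
  rw [card_pi] at h8
  apply Real.le_sqrt_of_sq_le (h8.trans (mul_le_mul_of_nonneg_left h6 (by positivity))) |>.trans
  rw [show (T : ℝ) ^ k * (ε * (T : ℝ) ^ k) = ε * ((T : ℝ) ^ k) ^ 2 by ring, Real.sqrt_mul hε0, Real.sqrt_sq (by positivity)]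

open Classical in
/-- the number of the large values of a function -/
theorem markov {α : Type*} (S : Finset α) (f : α → ℝ) (hf : ∀ a ∈ S, 0 ≤ f a) {κ : ℝ} (hκ : 0 < κ) :
    ((S.filter (fun a => ¬ f a ≤ κ)).card : ℝ) ≤ (∑ a ∈ S, f a) / κ := by
  rw [le_div_iff₀ hκ]
  calc ((S.filter (fun a => ¬ f a ≤ κ)).card : ℝ) * κ = ∑ a ∈ S.filter (fun a => ¬ f a ≤ κ), κ := by rw [sum_const, nsmul_eq_mul]
    _ ≤ ∑ a ∈ S.filter (fun a => ¬ f a ≤ κ), f a := by
        apply sum_le_sum
        intro a ha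
        rw [mem_filter] at ha
        exact (not_le.1 ha.2).le
    _ ≤ ∑ a ∈ S, f a := sum_le_sum_of_subset_of_nonneg (filter_subset _ _) fun a ha _ => hf a ha

/-- the number of the `n` differs from the main term by more than the proportion `ρ` -/
def Far (y k : ℕ) (ρ : ℝ) (A : Finset ℕ) : Prop :=
  ¬ |(count y A : ℝ) - sing A * (y / Real.log y ^ k)| ≤ ρ * (sing A * (y / Real.log y ^ k))

open Classical in
/-- the assembly -/
theorem uni_inst {k w z y T W J U : ℕ} [NeZero W] {E E' κ B₀ εL εU : ℝ} (hk : 1 ≤ k) (hW : W = primorial w) (hT : T = (y + 1) / W)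
    (hw : 2 * k ≤ w) (hwz : w ≤ z) (hz : 3 ≤ z) (hT1 : 1 ≤ T) (hlog : 100 * (k : ℝ) * (1 + Real.log z) ^ 2 ≤ Real.log T)
    (hy : 3 ≤ y) (hJ0 : 0 < J) (hU : 0 < U) (hB₀ : B₀ = (Nat.totient W : ℝ) / W * Real.log (2 * (y + 1) : ℕ)) (hE : 0 ≤ E)
    (hEκ : E ≤ κ / 4) (hκ : κ ≤ 1 / 4) (hκ0 : 0 < κ)
    (hEa : 4 * (k : ℝ) ^ 2 * (1 + Real.log y) / z ≤ E)
    (hEb : Real.sqrt (8 * (k : ℝ) ^ 2 / (w : ℝ) ^ 2 + 18 * Real.exp (-(Real.log T / (2 * Real.log z)))) ≤ E')
    (hEc : (1 - E) * (y / Real.log y ^ k) ≤ (W * (J * U)) / Real.log (2 * (y + 1) : ℕ) ^ k)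
    (hEc' : (W * (J * U)) / Real.log (2 * (y + 1) : ℕ) ^ k ≤ y / Real.log y ^ k)
    (hL : ∑ h ∈ AdmZ k W, ∑ t ∈ Fintype.piFinset (fun _ : Fin k => range T), max 0 (1 - RR B₀ J U y h t) ≤
      εL * (((AdmZ k W).card : ℝ) * (T : ℝ) ^ k))
    (hUp : ∑ h ∈ AdmZ k W, ∑ t ∈ Fintype.piFinset (fun _ : Fin k => range T), RR B₀ J U y h t ≤
      (1 + εU) * (((AdmZ k W).card : ℝ) * (T : ℝ) ^ k)) (hεU : 0 ≤ εU) (hεL : 0 ≤ εL) :
    (1 - (k : ℝ) ^ 2 / T) * (((admissibleSets y k).filter (Far y k (4 * κ))).card : ℝ) ≤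
      ((εU + 2 * εL + E') / κ + k / T) * ((admissibleSets y k).card : ℝ) := by
  have hW0 : 0 < W := Nat.pos_of_ne_zero (NeZero.ne W)
  have hWr : (0 : ℝ) < W := by exact_mod_cast hW0
  have hφ : (0 : ℝ) < (Nat.totient W : ℝ) := by exact_mod_cast Nat.totient_pos.2 hW0
  have hT0 : (0 : ℝ) < T := by exact_mod_cast hT1
  have hJr : (0 : ℝ) < J := by exact_mod_cast hJ0
  have hUr : (0 : ℝ) < U := by exact_mod_cast hU
  have hWT : W * T ≤ y + 1 := by rw [hT]; exact Nat.mul_div_le _ _
  have hyr : (3 : ℝ) ≤ y := by exact_mod_cast hy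
  have hly : 1 ≤ Real.log y := by
    rw [Real.le_log_iff_exp_le (by linarith)]
    have := Real.exp_one_lt_d9
    linarith
  have hly0 : 0 < Real.log y := by linarith
  have hly2 : Real.log y ≤ Real.log (2 * (y + 1) : ℕ) := by
    apply Real.log_le_log (by linarith)
    push_cast
    linarith
  have hH0 : (0 : ℝ) < y / Real.log y ^ k := by positivity
  have hE'0 : 0 ≤ E' := (Real.sqrt_nonneg _).trans hEb
  have hk1 : (1 : ℝ) ≤ k := by exact_mod_cast hk
  have hprime : ∀ p : ℕ, p.Prime → p ≤ k → p ∣ W := by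
    intro p hp hpk
    rw [hW]
    exact hp.dvd_primorial_iff.2 (by omega)
  -- the bad vectors
  set good : (Fin k → ℕ) → Prop := fun a => |(count y (univ.image a) : ℝ) - sing (univ.image a) * (y / Real.log y ^ k)| ≤
    4 * κ * (sing (univ.image a) * (y / Real.log y ^ k)) with hgood
  obtain ⟨bad, hbd⟩ : ∃ bad : (Fin k → ℕ) → Prop, ∀ a, bad a ↔ (Function.Injective a ∧ ¬ good a) := ⟨_, fun a => Iff.rfl⟩
  have hbad : (((AA k (W * T)).filter bad).card : ℝ) ≤
      (εU + 2 * εL + E') / κ * ((AA k (W * T)).card : ℝ) := by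
    rw [card_AA hprime, Pool.Agent.J4H81.PT.card_lifts hprime]
    have h1 : ∀ h ∈ AdmZ k W, (((Fintype.piFinset (fun _ : Fin k => range T)).filter
        (fun t => bad (fun i => (h i).val + W * t i))).card : ℝ) ≤
        (∑ t ∈ Fintype.piFinset (fun _ : Fin k => range T), |RR B₀ J U y h t - 1|) / κ +
        (∑ t ∈ Fintype.piFinset (fun _ : Fin k => range T), |∏ p ∈ (Ioc w z).filter Nat.Prime, XX (fun i => (h i).val + W * t i) p - 1|) / κ := by
      intro h hh
      have hV := card_VV_pos hh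
      have h2 := markov (Fintype.piFinset (fun _ : Fin k => range T)) (fun t => |RR B₀ J U y h t - 1|) (fun _ _ => abs_nonneg _) hκ0
      have h3 := markov (Fintype.piFinset (fun _ : Fin k => range T))
        (fun t => |∏ p ∈ (Ioc w z).filter Nat.Prime, XX (fun i => (h i).val + W * t i) p - 1|) (fun _ _ => abs_nonneg _) hκ0
      refine le_trans ?_ (add_le_add h2 h3)
      have h4 : (Fintype.piFinset (fun _ : Fin k => range T)).filter
          (fun t => bad (fun i => (h i).val + W * t i)) ⊆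
          (Fintype.piFinset (fun _ : Fin k => range T)).filter (fun t => ¬ |RR B₀ J U y h t - 1| ≤ κ) ∪
          (Fintype.piFinset (fun _ : Fin k => range T)).filter
            (fun t => ¬ |∏ p ∈ (Ioc w z).filter Nat.Prime, XX (fun i => (h i).val + W * t i) p - 1| ≤ κ) := by
        intro t ht
        rw [mem_filter, hbd] at ht
        obtain ⟨ht1, hinj, hng⟩ := ht
        rw [mem_union, mem_filter, mem_filter]
        by_contra hcon
        push Not at hcon
        obtain ⟨hR, hP⟩ := hcon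
        have hR' := hR ht1
        have hP' := hP ht1
        apply hng
        set a : Fin k → ℕ := fun i => (h i).val + W * t i with ha
        have hcast : (fun i => ((a i : ℕ) : ZMod W)) = h := by
          funext i
          rw [ha]
          simp
        have hVV := Pool.Agent.J4H69.HL.t_VV k w W a hW
        rw [hcast] at hVV
        have hSz : singZ z (univ.image a) = (((VV h).card : ℝ) / W * ((W : ℝ) / (Nat.totient W : ℝ)) ^ k) *
            ∏ p ∈ (Ioc w z).filter Nat.Prime, XX a p := by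
          rw [singZ_image a hinj z, hVV]
          rw [← prod_union]
          · apply prod_congr _ (fun _ _ => rfl)
            ext p
            simp only [mem_union, mem_filter, mem_Icc, mem_Ioc]
            constructor
            · rintro ⟨⟨h5, h6⟩, h7⟩
              rcases le_or_gt p w with h8 | h8
              · exact Or.inl ⟨⟨h5, h8⟩, h7⟩
              · exact Or.inr ⟨⟨h8, h6⟩, h7⟩
            · rintro (⟨⟨h5, h6⟩, h7⟩ | ⟨⟨h5, h6⟩, h7⟩)
              · exact ⟨⟨h5, h6.trans hwz⟩, h7⟩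
              · exact ⟨⟨by omega, h6⟩, h7⟩
          · rw [disjoint_left]
            intro p hp hp'
            rw [mem_filter, mem_Icc] at hp
            rw [mem_filter, mem_Ioc] at hp'
            omega
        have hat : ∀ i, a i < y + 1 := by
          intro i
          rw [Fintype.mem_piFinset] at ht1
          have h5 := ZMod.val_lt (h i)
          have h6 := mem_range.1 (ht1 i)
          have h7 : W * (t i + 1) ≤ W * T := Nat.mul_le_mul_left _ h6
          rw [mul_add, mul_one] at h7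
          rw [ha]
          simp only
          omega
        have hSS := Pool.Agent.J4H57.HL.t_TAIL y z (univ.image a) (by omega) hz
          (by
            intro x hx
            rw [mem_image] at hx
            obtain ⟨i, _, rfl⟩ := hx
            exact mem_range.2 (hat i))
          (by rw [card_image_of_injective _ hinj, card_univ, Fintype.card_fin]; exact hk)
          (by
            rw [card_image_of_injective _ hinj, card_univ, Fintype.card_fin]
            have h2 : 4 * (k : ℝ) ^ 2 * (1 + Real.log y) / z ≤ 1 / 8 := by linarith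
            have hzr : (3 : ℝ) ≤ z := by exact_mod_cast hz
            rw [div_le_iff₀ (by linarith)] at h2
            have h3 : 0 ≤ 2 * (k : ℝ) ^ 2 * (1 + Real.log y) := by positivity
            linarith)
        rw [card_image_of_injective _ hinj, card_univ, Fintype.card_fin] at hSS
        have hSz0 : 0 ≤ singZ z (univ.image a) := by
          rw [singZ_image a hinj z]
          exact prod_nonneg fun p hp => XX_nonneg a (mem_filter.1 hp).2
        have hcnt : (cntY y a : ℝ) = RR B₀ J U y h t * (((VV h).card : ℝ) / W * ((W : ℝ) / (Nat.totient W : ℝ)) ^ k) *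
            ((W * (J * U)) / Real.log (2 * (y + 1) : ℕ) ^ k) := by
          have hL0 : 0 < Real.log (2 * (y + 1) : ℕ) := by linarith
          unfold RR
          rw [hB₀, ← ha, mul_pow, div_pow, div_pow]
          field_simp
        have hfin := good_vector (cnt := (cntY y a : ℝ)) (S := sing (univ.image a)) (Sz := singZ z (univ.image a))
          (by positivity) hH0 hcnt hSz (hSS.trans (mul_le_mul_of_nonneg_right hEa hSz0)) hEc hEc' hR' hP' hE hEκ hκ
        rw [hgood]
        simp only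
        rw [count_image]
        exact hfin
      have h5 := (card_le_card h4).trans (card_union_le _ _)
      exact_mod_cast h5
    have h2 : ∑ h ∈ AdmZ k W, ∑ t ∈ Fintype.piFinset (fun _ : Fin k => range T), |RR B₀ J U y h t - 1| ≤
        (εU + 2 * εL) * (((AdmZ k W).card : ℝ) * (T : ℝ) ^ k) := by
      have habs : ∀ x : ℝ, |x - 1| = (x - 1) + 2 * max 0 (1 - x) := by
        intro x
        rcases le_total 1 x with h | h
        · rw [abs_of_nonneg (by linarith), max_eq_left (by linarith)]; ring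
        · rw [abs_of_nonpos (by linarith), max_eq_right (by linarith)]; ring
      have h3 : ∀ h ∈ AdmZ k W, ∑ t ∈ Fintype.piFinset (fun _ : Fin k => range T), |RR B₀ J U y h t - 1| =
          ∑ t ∈ Fintype.piFinset (fun _ : Fin k => range T), RR B₀ J U y h t - (T : ℝ) ^ k +
          2 * ∑ t ∈ Fintype.piFinset (fun _ : Fin k => range T), max 0 (1 - RR B₀ J U y h t) := by
        intro h _
        rw [sum_congr rfl (fun t _ => habs (RR B₀ J U y h t)), sum_add_distrib, sum_sub_distrib, sum_const, nsmul_eq_mul, mul_one,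
          card_pi, mul_sum]
      rw [sum_congr rfl h3, sum_add_distrib, sum_sub_distrib, sum_const, nsmul_eq_mul, ← mul_sum]
      linarith
    have h3 : ∑ h ∈ AdmZ k W, ∑ t ∈ Fintype.piFinset (fun _ : Fin k => range T),
        |∏ p ∈ (Ioc w z).filter Nat.Prime, XX (fun i => (h i).val + W * t i) p - 1| ≤ E' * (((AdmZ k W).card : ℝ) * (T : ℝ) ^ k) := by
      calc _ ≤ ∑ h ∈ AdmZ k W, E' * (T : ℝ) ^ k := by
            apply sum_le_sum
            intro h _
            exact (sum_P hk hw hwz hz hT1 hW hlog h).trans (mul_le_mul_of_nonneg_right hEb (by positivity))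
        _ = _ := by rw [sum_const, nsmul_eq_mul]; ring
    push_cast
    refine (sum_le_sum h1).trans ?_
    rw [sum_add_distrib, ← sum_div, ← sum_div]
    have h4 := div_le_div_of_nonneg_right h2 hκ0.le
    have h5 := div_le_div_of_nonneg_right h3 hκ0.le
    refine (add_le_add h4 h5).trans (le_of_eq ?_)
    ring
  have hε : 0 ≤ (εU + 2 * εL + E') / κ := by positivity
  exact final_count_gen (y := y) hprime hT hT1 bad (Far y k (4 * κ)) (fun a hinj hQ => (hbd a).2 ⟨hinj, hQ⟩) hε hbad

end Pool.Agent.J4H81.HL
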