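import Pool.Agent.J4H81.PT.FCc

/-!
# Hardy-Littlewood on average: the mass of the weights of windows (helper81)
-/

set_option autoImplicit false

namespace Pool.Agent.J4H81.PT.HW

open Finset MeasureTheory Filter
open Pool.Agent.J4H81.PT

/-- the logarithms -/
theorem win_logs {W T v N₁ : ℕ} (hW : 0 < W) (hT : 0 < T) {η : ℝ} (hη : 0 < η) (hη1 : η ≤ 1) (hN₁ : 1 ≤ N₁)
    (hv : (v : ℝ) ≤ 2 / 3 * T) (hN₁u : (N₁ : ℝ) ≤ W * v + η * (W * T : ℕ) / 64) :
    Real.log N₁ + η / 16 ≤ Real.log (W * T : ℕ) := by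
  have hT0 : (0 : ℝ) < T := by exact_mod_cast hT
  have hW0 : (0 : ℝ) < W := by exact_mod_cast hW
  have hN0 : (0 : ℝ) < (W * T : ℕ) := by push_cast; positivity
  have hN₁0 : (0 : ℝ) < N₁ := by exact_mod_cast hN₁
  have h1 : (N₁ : ℝ) / (W * T : ℕ) ≤ 0.69 := by
    rw [div_le_iff₀ hN0]
    refine hN₁u.trans ?_
    have h2 : (W : ℝ) * v ≤ W * (2 / 3 * T) := mul_le_mul_of_nonneg_left hv hW0.le
    have h3 : η * (W * T : ℕ) ≤ 1 * (W * T : ℕ) := mul_le_mul_of_nonneg_right hη1 hN0.le
    push_cast at h3 ⊢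
    nlinarith only [h2, h3, mul_pos hW0 hT0]
  have h2 := Real.log_le_sub_one_of_pos (show 0 < (N₁ : ℝ) / (W * T : ℕ) by positivity)
  rw [Real.log_div hN₁0.ne' hN0.ne'] at h2
  linarith

/-- the weight has almost full mass on every class -/
theorem om_mass_win {W T v N₁ : ℕ} (hW : 0 < W) {η : ℝ} (hη : 0 < η) (hη1 : η ≤ 1) (hN₁ : 1 ≤ N₁)
    (hv : (v : ℝ) ≤ 2 / 3 * T) (hvN : W * v ≤ N₁)
    (hN₁u : (N₁ : ℝ) ≤ W * v + η * (W * T : ℕ) / 64) (hηT : 26 ≤ η * T) :
    ∀ r < W, ((T : ℝ) - v) - η * T / 4 ≤ ∑ s ∈ range T, om (η / 16) (W * T : ℕ) N₁ (r + W * s) ∧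
      ∑ s ∈ range T, om (η / 16) (W * T : ℕ) N₁ (r + W * s) ≤ (T : ℝ) - v := by
  intro r hr
  have hT0 : (0 : ℝ) < T := by
    by_contra h
    have : (T : ℝ) ≤ 0 := not_lt.1 h
    nlinarith
  have hTn : 0 < T := by exact_mod_cast hT0
  have hW0 : (0 : ℝ) < W := by exact_mod_cast hW
  have hN0 : (0 : ℝ) < (W * T : ℕ) := by push_cast; positivity
  have hN₁0 : (0 : ℝ) < N₁ := by exact_mod_cast hN₁
  have hκ0 : 0 < η / 16 := by positivity
  have hlogs := win_logs hW hTn hη hη1 hN₁ hv hN₁u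
  have hwt := om_wt hκ0 hlogs
  have hv0 : (0 : ℝ) ≤ v := Nat.cast_nonneg _
  have hvT : v ≤ T := by
    have : (v : ℝ) ≤ T := by linarith
    exact_mod_cast this
  constructor
  · set a : ℕ := ⌈v + η * T * (7 / 64)⌉₊ with ha
    set b : ℕ := ⌊T * (1 - η / 16)⌋₊ with hb
    have ha1 : v + η * T * (7 / 64) ≤ a := Nat.le_ceil _
    have ha2 : (a : ℝ) < v + η * T * (7 / 64) + 1 := Nat.ceil_lt_add_one (by positivity)
    have hb0 : 0 ≤ T * (1 - η / 16) := mul_nonneg hT0.le (by linarith)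
    have hb1 : (b : ℝ) ≤ T * (1 - η / 16) := Nat.floor_le hb0
    have hb2 : T * (1 - η / 16) < b + 1 := Nat.lt_floor_add_one _
    have hbT : b ≤ T := by
      have : (b : ℝ) ≤ T := hb1.trans (by nlinarith)
      exact_mod_cast this
    have hsub : Ico a b ⊆ range T := by
      intro s hs
      rw [mem_Ico] at hs
      rw [mem_range]
      omega
    have hone : ∀ s ∈ Ico a b, om (η / 16) (W * T : ℕ) N₁ (r + W * s) = 1 := by
      intro s hs
      rw [mem_Ico] at hs
      have hs1 : (a : ℝ) ≤ s := by exact_mod_cast hs.1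
      have hs2 : (s : ℝ) + 1 ≤ b := by exact_mod_cast hs.2
      have hs0 : 0 < v + η * T * (7 / 64) := by positivity
      have hr1 : (r : ℝ) + 1 ≤ W := by exact_mod_cast hr
      have hr0 : (0 : ℝ) ≤ r := Nat.cast_nonneg _
      have hlow : (W : ℝ) * (v + η * T * (7 / 64)) ≤ ((r + W * s : ℕ) : ℝ) := by
        push_cast
        have : (W : ℝ) * (v + η * T * (7 / 64)) ≤ W * s := mul_le_mul_of_nonneg_left (ha1.trans hs1) hW0.le
        linarith
      have hn0 : (0 : ℝ) < ((r + W * s : ℕ) : ℝ) := lt_of_lt_of_le (by positivity) hlow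
      have hup : ((r + W * s : ℕ) : ℝ) ≤ (W * T : ℕ) * (1 - η / 16) := by
        push_cast
        have h1 : (W : ℝ) * (s + 1) ≤ W * (T * (1 - η / 16)) := mul_le_mul_of_nonneg_left (hs2.trans hb1) hW0.le
        nlinarith only [h1, hr1]
      apply om_one hκ0
      · have h1 : (N₁ : ℝ) * Real.exp (η / 16) ≤ ((r + W * s : ℕ) : ℝ) := by
          have h2 : Real.exp (η / 16) ≤ 1 + η / 8 := by
            have h3 : |η / 16| ≤ 1 := by rw [abs_of_pos hκ0]; linarith
            have h4 := Real.abs_exp_sub_one_le h3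
            rw [abs_of_pos hκ0] at h4
            have := (abs_le.1 h4).2
            linarith
          have h3 : (N₁ : ℝ) * Real.exp (η / 16) ≤ (W * v + η * (W * T : ℕ) / 64) * (1 + η / 8) :=
            mul_le_mul hN₁u h2 (Real.exp_pos _).le (by positivity)
          refine h3.trans (le_trans ?_ hlow)
          push_cast
          have h4 : (W * v + η * (W * T) / 64) * (1 + η / 8) = W * (v + η * T / 64 + η * v / 8 + η * (η * T) / 512) := by ring
          rw [h4]
          apply mul_le_mul_of_nonneg_left _ hW0.le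
          have h5 : η * v ≤ η * (2 / 3 * T) := mul_le_mul_of_nonneg_left hv hη.le
          have h6 : η * (η * T) ≤ 1 * (η * T) := mul_le_mul_of_nonneg_right hη1 (by positivity)
          linarith
        have h2 := Real.log_le_log (by positivity) h1
        rwa [Real.log_mul hN₁0.ne' (Real.exp_pos _).ne', Real.log_exp] at h2
      · have h1 : ((r + W * s : ℕ) : ℝ) ≤ (W * T : ℕ) * Real.exp (-(η / 16)) := by
          refine hup.trans (mul_le_mul_of_nonneg_left ?_ hN0.le)
          have := Real.add_one_le_exp (-(η / 16))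
          linarith
        have h2 := Real.log_le_log hn0 h1
        rw [Real.log_mul hN0.ne' (Real.exp_pos _).ne', Real.log_exp] at h2
        linarith
    calc ((T : ℝ) - v) - η * T / 4 ≤ (b : ℝ) - a := by
          nlinarith only [hb2, ha2, hηT]
      _ ≤ ((Ico a b).card : ℝ) := by
          rw [Nat.card_Ico]
          have : (b : ℝ) ≤ ((b - a : ℕ) : ℝ) + a := by exact_mod_cast (by omega : b ≤ b - a + a)
          linarith
      _ = ∑ s ∈ Ico a b, om (η / 16) (W * T : ℕ) N₁ (r + W * s) := by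
          rw [sum_congr rfl hone, sum_const, nsmul_eq_mul, mul_one]
      _ ≤ _ := sum_le_sum_of_subset_of_nonneg hsub fun s _ _ => hwt.nonneg _
  · have hz : ∀ s ∈ range T, s ∉ Ico v T → om (η / 16) (W * T : ℕ) N₁ (r + W * s) = 0 := by
      intro s hs hs2
      rw [mem_range] at hs
      rw [mem_Ico] at hs2
      apply hwt.zero_le
      have h1 : s + 1 ≤ v := by omega
      have h2 := Nat.mul_le_mul_left W h1
      have h3 : W * (s + 1) = W * s + W := by ring
      omega
    have hsub : Ico v T ⊆ range T := by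
      intro s hs
      rw [mem_Ico] at hs
      exact mem_range.2 hs.2
    rw [← sum_subset hsub (fun s hs hs2 => hz s hs hs2)]
    calc _ ≤ ∑ s ∈ Ico v T, (1 : ℝ) := sum_le_sum fun s _ => hwt.le_one _
      _ = (T : ℝ) - v := by
          rw [sum_const, Nat.card_Ico, nsmul_eq_mul, mul_one, Nat.cast_sub hvT]

end Pool.Agent.J4H81.PT.HW
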